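import Pool.Agent.Lib.MP_4770bc_pr.Gadget

/-!
Cost functions of the gadget and the local supermartingale inequalities.
-/

set_option linter.unusedSimpArgs false
set_option linter.unreachableTactic false
set_option linter.unusedTactic false
set_option linter.unusedVariables false
set_option linter.unnecessarySeqFocus false

namespace Pool.Agent.Lib.MP_4770bc_pr

open Cfg LS

noncomputable def qn (m : ℕ) : ℝ := (2 / 3 : ℝ) ^ (42 - m)

noncomputable def qp (m : ℕ) : ℝ := (2 / 3 : ℝ) ^ m

theorem qn_succ {m : ℕ} (h : m < 42) : qn m = 2 / 3 * qn (m + 1) := by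
  have : 42 - m = (42 - (m + 1)) + 1 := by omega
  rw [qn, qn, this, pow_succ]; ring

theorem qn_pos (m : ℕ) : 0 < qn m := by rw [qn]; positivity

theorem qn_le_one (m : ℕ) : qn m ≤ 1 := by
  rw [qn]; exact pow_le_one₀ (by norm_num) (by norm_num)

theorem qn_42 : qn 42 = 1 := by rw [qn]; norm_num

theorem qp_succ (m : ℕ) : qp (m + 1) = 2 / 3 * qp m := by rw [qp, qp, pow_succ]; ring

theorem qp_pos (m : ℕ) : 0 < qp m := by rw [qp]; positivity

theorem qp_le_one (m : ℕ) : qp m ≤ 1 := by
  rw [qp]; exact pow_le_one₀ (by norm_num) (by norm_num)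

theorem qp_zero : qp 0 = 1 := by rw [qp]; norm_num

theorem qp_one : qp 1 = 2 / 3 := by rw [qp]; norm_num

/-- resistance distance from the left end -/
noncomputable def rho (r : ℕ) : ℝ := if r ≤ 42 then (r : ℝ) else 2 * r - 42

/-- cost of a resting configuration -/
noncomputable def om (A : Bool) : Cfg → ℝ
  | U i => if A = true then -(3 * qn i) else 0
  | X i j => 7 + (if i = 0 then 3 * (1 - qp j) else 0)
  | Y i j => 7 + ((j : ℝ) - i)

/-- cost of a local state -/
noncomputable def cost (A : Bool) (σ : ℝ) : LS → ℝ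
  | rest (U i) r => (if r = 53 then σ * 64 else rho r) + om A (U i)
  | rest (X i j) r => σ * rho r + om A (X i j)
  | rest (Y i j) r => σ * rho r + om A (Y i j)
  | UR i m M => if m = M then
      (if A = true then (i : ℝ) - qn m * (3 - ((m : ℝ) - i)) else qn m * (81 / 2))
      else (i : ℝ) + om A (U M)
  | P i _ => σ * 64 + 7 + (42 - (i : ℝ))
  | T i _ => σ * 42 + 7 + (if i = 0 then 3 * (1 - qp 42) else 0)
  | XR i _ _ _ => σ * i + 7
  | XL i j m M => if 1 ≤ i then σ * j + 7
      else if m = M then σ * j + 7 + 3 - qp m * (3 - ((j : ℝ) - m))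
      else σ * j + 7 + 3 * (1 - qp M)
  | YR _ j _ => σ * j + 7
  | YL i _ _ => σ * i + 7

/-- the local supermartingale inequality for greedy steps -/
def Ineq (A : Bool) (σ : ℝ) (s : LS) (p : ℕ) : Prop :=
  (u s p : ℝ) * cost A σ (goL s) + (u s (p + 1) : ℝ) * cost A σ (goR s) ≤
    ((u s p : ℝ) + u s (p + 1)) * cost A σ s

theorem ineq_restU (A : Bool) (σ : ℝ) (i p : ℕ) (hp : p + 1 < 53) (h : WF (rest (U i) (p + 1)))
    (hσ : σ = 1 / 2) (hA : A = true ∨ i = 0) : Ineq A σ (rest (U i) (p + 1)) p := by
  subst hσ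
  simp only [WF, WFc, okpos] at h
  have hi : p + 1 ≤ i := by omega
  have hA' : A = true := by
    rcases hA with h | h
    · exact h
    · omega
  subst hA'
  rw [Ineq]
  simp only [u, uc]
  have h0 : p < i := by omega
  rw [if_pos h0]
  by_cases h1 : p + 1 < i
  · rw [if_pos h1]; simp
  · have h2 : i = p + 1 := by omega
    subst h2
    rw [if_neg (lt_irrefl _)]
    by_cases h3 : p + 1 < 42
    · rw [if_pos h3]
      have h4 : ¬ (p + 1 = 42) := by omega
      have h5 : ¬ (p + 1 = 53) := by omega
      have hq := qn_succ h3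
      simp only [goR, if_neg h4, cost, if_neg h5, om, if_true, rho, if_pos h3.le]
      push_cast
      nlinarith
    · have h4 : p = 41 := by omega
      subst h4
      simp only [goR, cost, om, rho]
      norm_num [qn_42]

theorem ineq_UR (A : Bool) (σ : ℝ) (i M p : ℕ) (hp : p + 1 < 53) (h : WF (UR i (p + 1) M))
    (hσ : σ = 1 / 2) (hA : A = true ∨ i = 0) : Ineq A σ (UR i (p + 1) M) p := by
  subst hσ
  simp only [WF] at h
  rw [Ineq]
  have hu1 : u (UR i (p + 1) M) p = 1 := by
    simp only [u]
    rw [if_neg (by omega), if_pos (by omega)]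
  have hgL : cost A (1 / 2) (goL (UR i (p + 1) M)) = i + om A (U M) := by
    simp only [goL]
    split_ifs with h1
    · have : p = i := by omega
      subst this
      simp only [cost, rho]
      rw [if_neg (by omega), if_pos (by omega)]
    · simp only [cost]
      rw [if_neg (by omega)]
  rw [hu1, hgL]
  rcases Nat.lt_or_ge (p + 1) M with h1 | h1
  · have hu2 : u (UR i (p + 1) M) (p + 1) = 0 := by
      simp only [u]
      rw [if_neg (by omega), if_neg (by omega), if_pos (by omega)]
    rw [hu2]
    simp only [cost]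
    rw [if_neg (by omega)]
    simp
  · have hM : M = p + 1 := by omega
    subst hM
    rcases Nat.lt_or_ge (p + 1) 42 with h2 | h2
    · have hu2 : u (UR i (p + 1) (p + 1)) (p + 1) = 2 := by
        simp only [u]
        rw [if_neg (by omega), if_neg (by omega), if_neg (by omega), if_pos (by omega)]
      rw [hu2]
      have hq := qn_succ h2
      simp only [goR]
      rw [if_neg (by omega)]
      simp only [cost, om, if_true]
      rcases hA with hA | hA
      · subst hA
        simp only [if_true]
        push_cast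
        nlinarith
      · subst hA
        cases A
        · simp
          nlinarith
        · simp
          nlinarith
    · have h4 : p = 41 := by omega
      subst h4
      have hu2 : u (UR i (41 + 1) (41 + 1)) (41 + 1) = 1 := by
        simp only [u]
        rw [if_neg (by omega), if_neg (by omega), if_neg (by omega), if_neg (by omega)]
      rw [hu2]
      simp only [goR, cost, om, if_true]
      norm_num [qn_42]
      rcases hA with hA | hA
      · subst hA
        simp only [if_true]
        linarith
      · subst hA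
        cases A
        · norm_num
        · norm_num

theorem ineq_P (A : Bool) (σ : ℝ) (i p : ℕ) (hp : p + 1 < 53) (h : WF (P i (p + 1))) :
    Ineq A σ (P i (p + 1)) p := by
  simp only [WF] at h
  rw [Ineq]
  have hu1 : u (P i (p + 1)) p = 0 := by
    simp only [u]
    rw [if_neg (by omega), if_neg (by omega), if_pos (by omega)]
  have hu2 : u (P i (p + 1)) (p + 1) = 1 := by
    simp only [u]
    rw [if_neg (by omega), if_neg (by omega), if_neg (by omega)]
  rw [hu1, hu2]
  simp only [goR]
  split_ifs with h1 h2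
  · simp only [cost, om, rho]
    norm_num
    linarith
  · have : i = 42 := by omega
    subst this
    simp only [cost, om, rho, qp_zero]
    norm_num
  · simp only [cost]
    simp

theorem ineq_T (A : Bool) (σ : ℝ) (i p : ℕ) (hp : p + 1 < 53) (h : WF (T i (p + 1))) :
    Ineq A σ (T i (p + 1)) p := by
  simp only [WF] at h
  rw [Ineq]
  have hu1 : u (T i (p + 1)) p = 1 := by
    simp only [u]
    rw [if_neg (by omega), if_neg (by omega), if_pos (by omega)]
  have hu2 : u (T i (p + 1)) (p + 1) = 0 := by
    simp only [u]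
    rw [if_neg (by omega), if_neg (by omega), if_neg (by omega)]
  rw [hu1, hu2]
  simp only [goL]
  split_ifs with h1
  · simp only [cost, om, rho]
    norm_num
    linarith
  · simp only [cost]
    simp

theorem ineq_XR (A : Bool) (σ : ℝ) (i j M p : ℕ) (hp : p + 1 < 53)
    (h : WF (XR i j (p + 1) M)) : Ineq A σ (XR i j (p + 1) M) p := by
  simp only [WF] at h
  rw [Ineq]
  have hgL : cost A σ (goL (XR i j (p + 1) M)) = σ * i + 7 := by
    simp only [goL]
    split_ifs with h1
    · simp only [cost, om, rho]
      rw [if_pos (by omega), if_neg (by omega)]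
      ring
    · simp only [cost]
  have hgR : cost A σ (goR (XR i j (p + 1) M)) = σ * i + 7 := by
    simp only [goR, cost]
  rw [hgL, hgR]
  simp only [cost]
  apply le_of_eq
  ring

theorem ineq_YR (A : Bool) (σ : ℝ) (i j p : ℕ) (hp : p + 1 < 53)
    (h : WF (YR i j (p + 1))) : Ineq A σ (YR i j (p + 1)) p := by
  simp only [WF] at h
  rw [Ineq]
  have hu1 : u (YR i j (p + 1)) p = 0 := by
    simp only [u]
    rw [if_pos (by omega)]
  have hgR : cost A σ (goR (YR i j (p + 1))) = σ * j + 7 := by
    simp only [goR]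
    split_ifs with h1
    · simp only [cost, om, rho, qp_zero]
      rw [if_pos (by omega)]
      norm_num
    · simp only [cost]
  rw [hu1, hgR]
  simp only [cost]
  apply le_of_eq
  push_cast
  ring

theorem ineq_YL (A : Bool) (σ : ℝ) (i j p : ℕ) (hp : p + 1 < 53)
    (h : WF (YL i j (p + 1))) : Ineq A σ (YL i j (p + 1)) p := by
  simp only [WF] at h
  rw [Ineq]
  have hu2 : u (YL i j (p + 1)) (p + 1) = 0 := by
    simp only [u]
    rw [if_neg (by omega), if_neg (by omega)]
  have hgL : cost A σ (goL (YL i j (p + 1))) = σ * i + 7 := by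
    simp only [goL]
    split_ifs with h1
    · simp only [cost, om, rho, qp_zero]
      rw [if_pos (by omega)]
      norm_num
    · simp only [cost]
  rw [hu2, hgL]
  simp only [cost]
  apply le_of_eq
  push_cast
  ring

theorem ineq_restY (A : Bool) (σ : ℝ) (i j p : ℕ) (hp : p + 1 < 53)
    (h : WF (rest (Y i j) (p + 1))) (hσ0 : 0 ≤ σ) (hσ1 : σ ≤ 1) :
    Ineq A σ (rest (Y i j) (p + 1)) p := by
  simp only [WF, WFc, okpos] at h
  rw [Ineq]
  have hij : (i : ℝ) < j := by exact_mod_cast h.1.1
  by_cases h1 : p + 1 = j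
  · subst h1
    have hu1 : u (rest (Y i (p + 1)) (p + 1)) p = 1 := by
      simp only [u, uc]
      rw [if_pos (by omega)]
    have hu2 : u (rest (Y i (p + 1)) (p + 1)) (p + 1) = 0 := by
      simp only [u, uc]
      rw [if_neg (by omega)]
    have hgL : cost A σ (goL (rest (Y i (p + 1)) (p + 1))) = σ * i + 7 := by
      simp only [goL]
      split_ifs with h2
      · simp only [cost, om, rho, qp_zero]
        rw [if_pos (by omega)]
        norm_num
      · simp only [cost]
    rw [hu1, hu2, hgL]
    simp only [cost, om, rho]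
    rw [if_pos (by omega)]
    push_cast at hij ⊢
    nlinarith
  · by_cases h2 : p + 1 = i
    · subst h2
      have hu1 : u (rest (Y (p + 1) j) (p + 1)) p = 0 := by
        simp only [u, uc]
        rw [if_neg (by omega)]
      have hu2 : u (rest (Y (p + 1) j) (p + 1)) (p + 1) = 1 := by
        simp only [u, uc]
        rw [if_pos (by omega)]
      have hgR : cost A σ (goR (rest (Y (p + 1) j) (p + 1))) = σ * j + 7 := by
        simp only [goR]
        split_ifs with h3
        · simp only [cost, om, rho, qp_zero]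
          rw [if_pos (by omega)]
          norm_num
        · simp only [cost]
      rw [hu1, hu2, hgR]
      simp only [cost, om, rho]
      rw [if_pos (by omega)]
      push_cast at hij ⊢
      nlinarith
    · have hu1 : u (rest (Y i j) (p + 1)) p = 0 := by
        simp only [u, uc]
        rw [if_neg (by omega)]
      have hu2 : u (rest (Y i j) (p + 1)) (p + 1) = 0 := by
        simp only [u, uc]
        rw [if_neg (by omega)]
      rw [hu1, hu2]
      simp

theorem ineq_restX (A : Bool) (σ : ℝ) (i j p : ℕ) (hp : p + 1 < 53)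
    (h : WF (rest (X i j) (p + 1))) (hσ0 : 0 ≤ σ) (hσ1 : σ ≤ 1) :
    Ineq A σ (rest (X i j) (p + 1)) p := by
  simp only [WF, WFc, okpos] at h
  rw [Ineq]
  by_cases h1 : i ≤ p ∧ p < j
  · have h2 : j = p + 1 := by omega
    subst h2
    have hu1 : u (rest (X i (p + 1)) (p + 1)) p = 2 := by
      simp only [u, uc]
      rw [if_pos (by omega)]
    have hu2 : u (rest (X i (p + 1)) (p + 1)) (p + 1) = 0 := by
      simp only [u, uc]
      rw [if_neg (by omega)]
    have key : cost A σ (goL (rest (X i (p + 1)) (p + 1))) ≤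
        cost A σ (rest (X i (p + 1)) (p + 1)) := by
      simp only [goL]
      split_ifs with h3
      · have hp0 : p = 0 := by omega
        have hi0 : i = 0 := by omega
        subst hp0
        subst hi0
        simp only [cost, om, rho]
        norm_num [qp_one]
        linarith
      · by_cases hi : 1 ≤ i
        · simp only [cost, om, rho]
          rw [if_pos hi, if_pos (by omega), if_neg (by omega)]
          push_cast
          linarith
        · have hi0 : i = 0 := by omega
          subst hi0
          simp only [cost, om, rho]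
          simp only [Nat.add_sub_cancel]
          rw [if_neg (by omega), if_pos trivial, if_pos (by omega), if_pos trivial, qp_succ]
          push_cast
          have := qp_pos p
          nlinarith
    rw [hu1, hu2]
    push_cast
    linarith
  · have hu1 : u (rest (X i j) (p + 1)) p = 0 := by
      simp only [u, uc]
      rw [if_neg h1]
    rw [hu1]
    by_cases h2 : i ≤ p + 1 ∧ p + 1 < j
    · have hi : i = p + 1 := by omega
      subst hi
      simp only [goR, cost, om, rho]
      rw [if_pos (by omega), if_neg (by omega)]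
      push_cast
      apply le_of_eq
      ring
    · have hu2 : u (rest (X i j) (p + 1)) (p + 1) = 0 := by
        simp only [u, uc]
        rw [if_neg h2]
      rw [hu2]
      simp

theorem ineq_XL (A : Bool) (σ : ℝ) (i j M p : ℕ) (hp : p + 1 < 53)
    (h : WF (XL i j (p + 1) M)) (hσ0 : 0 ≤ σ) (hσ1 : σ ≤ 1) : Ineq A σ (XL i j (p + 1) M) p := by
  simp only [WF] at h
  rw [Ineq]
  have hu2 : u (XL i j (p + 1) M) (p + 1) = 1 := by
    simp only [u]
    rw [if_neg (by omega), if_neg (by omega), if_neg (by omega), if_pos (by omega)]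
  have hgR : cost A σ (goR (XL i j (p + 1) M)) = σ * j + 7 +
      (if 1 ≤ i then 0 else 3 * (1 - qp M)) := by
    simp only [goR]
    split_ifs with h1 h2 h2
    · simp only [cost, om, rho]
      rw [if_pos (by omega), if_neg (by omega)]
      ring
    · simp only [cost, om, rho]
      rw [if_pos (by omega), if_pos (by omega)]
      ring
    · simp only [cost]
      rw [if_pos (by omega)]
      ring
    · simp only [cost]
      rw [if_neg (by omega), if_neg (by omega)]
  rw [hu2, hgR]
  by_cases hi : 1 ≤ i
  · rw [if_pos hi]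
    by_cases hm : M = p + 1 ∧ i < p + 1
    · obtain ⟨rfl, hm⟩ := hm
      have hu1 : u (XL i j (p + 1) (p + 1)) p = 2 := by
        simp only [u]
        rw [if_neg (by omega), if_pos (by omega)]
      rw [hu1]
      simp only [goL]
      rw [if_neg (by omega)]
      simp only [cost]
      rw [if_pos hi, if_pos hi]
      push_cast
      linarith
    · have hu1 : u (XL i j (p + 1) M) p = 0 := by
        simp only [u]
        by_cases h3 : p < i
        · rw [if_pos h3]
        · rw [if_neg h3, if_neg (by omega), if_pos (by omega)]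
      rw [hu1]
      simp only [cost]
      rw [if_pos hi]
      push_cast
      linarith
  · have hi0 : i = 0 := by omega
    subst hi0
    rw [if_neg hi]
    by_cases hm : M = p + 1
    · subst hm
      have hu1 : u (XL 0 j (p + 1) (p + 1)) p = 2 := by
        simp only [u]
        rw [if_neg (by omega), if_pos (by omega)]
      rw [hu1]
      simp only [goL]
      by_cases hp0 : p = 0
      · subst hp0
        simp only [cost, om, rho]
        have hj : (0 : ℝ) ≤ j := by positivity
        norm_num [qp_one]
        nlinarith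
      · rw [if_neg (by omega)]
        obtain ⟨p, rfl⟩ : ∃ p', p = p' + 1 := ⟨p - 1, by omega⟩
        simp only [cost, Nat.add_sub_cancel]
        rw [if_neg (by omega), if_pos trivial, if_neg (by omega), if_pos trivial,
          qp_succ (p + 1)]
        push_cast
        apply le_of_eq
        ring
    · have hu1 : u (XL 0 j (p + 1) M) p = 0 := by
        simp only [u]
        rw [if_neg (by omega), if_neg (by omega), if_pos (by omega)]
      rw [hu1]
      simp only [cost]
      rw [if_neg (by omega), if_neg (by omega)]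
      push_cast
      linarith

/-- the regime in which the local inequality holds -/
def Reg (A : Bool) (σ : ℝ) (s : LS) : Prop :=
  (σ = 1 / 2 ∨ (σ = 1 ∧ tl (base s) = true)) ∧ (A = true ∨ okA s)

theorem ineq_all (A : Bool) (σ : ℝ) (s : LS) (p : ℕ) (hs : lpos s = p + 1) (hp : p + 1 < 53)
    (h : WF s) (hr : Reg A σ s) : Ineq A σ s p := by
  obtain ⟨hσ, hA⟩ := hr
  have hσ0 : 0 ≤ σ := by rcases hσ with h | h <;> [rw [h]; rw [h.1]] <;> norm_num
  have hσ1 : σ ≤ 1 := by rcases hσ with h | h <;> [rw [h]; rw [h.1]] <;> norm_num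
  rcases s with ⟨(i | ⟨i, j⟩ | ⟨i, j⟩), r⟩ | ⟨i, m, M⟩ | ⟨i, m⟩ | ⟨i, m⟩ | ⟨i, j, m, M⟩ | ⟨i, j, m, M⟩ |
    ⟨i, j, m⟩ | ⟨i, j, m⟩ <;> simp only [lpos] at hs <;> subst hs
  · have : σ = 1 / 2 := by
      rcases hσ with h | h
      · exact h
      · simp [base, tl] at h
    exact ineq_restU A σ i p hp h this hA
  · exact ineq_restX A σ i j p hp h hσ0 hσ1
  · exact ineq_restY A σ i j p hp h hσ0 hσ1
  · have : σ = 1 / 2 := by
      rcases hσ with h | h
      · exact h
      · simp [base, tl] at h
    exact ineq_UR A σ i M p hp h this hA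
  · exact ineq_P A σ i p hp h
  · exact ineq_T A σ i p hp h
  · exact ineq_XR A σ i j M p hp h
  · exact ineq_XL A σ i j M p hp h hσ0 hσ1
  · exact ineq_YR A σ i j p hp h
  · exact ineq_YL A σ i j p hp h

/-- number of lanes of a cell -/
def mult (c : ℕ) : ℕ := if c < 42 then 2 else 1

theorem rho_zero : rho 0 = 0 := by simp [rho]

theorem rho_53 : rho 53 = 64 := by norm_num [rho]

theorem rho_step (p : ℕ) : 1 ≤ rho (p + 1) - rho p := by
  rw [rho, rho]
  split_ifs with h1 h2 h2
  · push_cast; linarith
  · omega
  · have : p = 42 := by omega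
    subst this; norm_num
  · push_cast; linarith

theorem rho_mono {p q : ℕ} (h : p ≤ q) : rho p ≤ rho q := by
  induction q, h using Nat.le_induction with
  | base => exact le_rfl
  | succ n hn ih => linarith [rho_step n]

theorem rho_nonneg (p : ℕ) : 0 ≤ rho p := by
  rw [← rho_zero]; exact rho_mono (Nat.zero_le _)

theorem rho_harm (p : ℕ) : (mult p : ℝ) * rho p + (mult (p + 1) : ℝ) * rho (p + 2) =
    ((mult p : ℝ) + mult (p + 1)) * rho (p + 1) := by
  simp only [mult, rho]
  rcases Nat.lt_or_ge p 40 with h | h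
  · rw [if_pos (by omega), if_pos (by omega), if_pos (by omega), if_pos (by omega),
      if_pos (by omega)]
    push_cast; ring
  · rcases Nat.lt_or_ge p 43 with h' | h'
    · interval_cases p <;> norm_num
    · rw [if_neg (by omega), if_neg (by omega), if_neg (by omega), if_neg (by omega),
        if_neg (by omega)]
      push_cast; ring

theorem cost_rest_tl (A : Bool) (σ : ℝ) (c : Cfg) (r : ℕ) (h : tl c = true) :
    cost A σ (rest c r) = σ * rho r + om A c := by
  rcases c with i | ⟨i, j⟩ | ⟨i, j⟩
  · simp [tl] at h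
  · rfl
  · rfl

theorem cost_rest_U (A : Bool) (σ : ℝ) (i r : ℕ) (h : r < 53) :
    cost A σ (rest (U i) r) = rho r + om A (U i) := by
  simp only [cost]; rw [if_neg (by omega)]

theorem cost_rest_zero (A : Bool) (σ : ℝ) (c : Cfg) : cost A σ (rest c 0) = om A c := by
  rcases c with i | ⟨i, j⟩ | ⟨i, j⟩ <;> simp [cost, rho_zero]

theorem cost_rest_53 (A : Bool) (σ : ℝ) (c : Cfg) :
    cost A σ (rest c 53) = σ * 64 + om A c := by
  rcases c with i | ⟨i, j⟩ | ⟨i, j⟩ <;> simp [cost, rho_53]

theorem cost_srw (A : Bool) (σ : ℝ) (c : Cfg) (p : ℕ) (hc : WFc c) (ho : okpos c (p + 1))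
    (hp : p + 1 < 53) (hu : uc c (p + 1) = 0) :
    (mult p : ℝ) * cost A σ (rest c p) + (mult (p + 1) : ℝ) * cost A σ (rest c (p + 2)) =
      ((mult p : ℝ) + mult (p + 1)) * cost A σ (rest c (p + 1)) := by
  have h := rho_harm p
  rcases c with i | c | c
  · simp only [WFc, okpos, uc] at hc ho hu
    have hi : p + 1 < i := by
      split_ifs at hu <;> omega
    rw [cost_rest_U _ _ _ _ (by omega), cost_rest_U _ _ _ _ (by omega),
      cost_rest_U _ _ _ _ (by omega)]
    linarith
  · rw [cost_rest_tl _ _ _ _ rfl, cost_rest_tl _ _ _ _ rfl, cost_rest_tl _ _ _ _ rfl]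
    linear_combination σ * h
  · rw [cost_rest_tl _ _ _ _ rfl, cost_rest_tl _ _ _ _ rfl, cost_rest_tl _ _ _ _ rfl]
    linear_combination σ * h

theorem cost_step_lower (A : Bool) (σ : ℝ) (c : Cfg) (p : ℕ) (hc : WFc c) (ho : okpos c p)
    (ho' : okpos c (p + 1)) (hp : p < 53) (hσ : 1 / 2 ≤ σ) :
    1 / 2 ≤ cost A σ (rest c (p + 1)) - cost A σ (rest c p) := by
  have h := rho_step p
  rcases c with i | c | c
  · simp only [WFc, okpos] at hc ho ho'
    rw [cost_rest_U _ _ _ _ (by omega), cost_rest_U _ _ _ _ (by omega)]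
    linarith
  · rw [cost_rest_tl _ _ _ _ rfl, cost_rest_tl _ _ _ _ rfl]
    nlinarith
  · rw [cost_rest_tl _ _ _ _ rfl, cost_rest_tl _ _ _ _ rfl]
    nlinarith

theorem cost_first_upper (A : Bool) (σ : ℝ) (c : Cfg) (hσ : σ ≤ 1) :
    cost A σ (rest c 1) ≤ cost A σ (rest c 0) + 1 := by
  rw [cost_rest_zero]
  rcases c with i | c | c
  · rw [cost_rest_U _ _ _ _ (by omega)]
    norm_num [rho]
    linarith
  · rw [cost_rest_tl _ _ _ _ rfl]
    norm_num [rho]
    linarith
  · rw [cost_rest_tl _ _ _ _ rfl]
    norm_num [rho]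
    linarith

theorem cost_last (A : Bool) (σ : ℝ) (c : Cfg) (h : tl c = true) :
    cost A σ (rest c 52) = cost A σ (rest c 53) - 2 * σ := by
  rw [cost_rest_tl _ _ _ _ h, cost_rest_tl _ _ _ _ h]
  norm_num [rho]
  ring

/-- the loss for entering a fresh gadget without bonus -/
noncomputable def eps : ℝ := qn 1 * (81 / 2)

theorem enter_left (A : Bool) (σ : ℝ) (c : Cfg) (hc : WFc c) (hu : 0 < uc c 0) (hσ0 : 0 ≤ σ)
    (hσ : σ ≤ 1) :
    cost A σ (goR (rest c 0)) ≤ cost A σ (rest c 0) + (if A = true then 0 else eps) := by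
  rw [cost_rest_zero]
  have heps : 0 ≤ eps := by
    have := qn_pos 1
    rw [eps]; linarith
  have hif : 0 ≤ (if A = true then 0 else eps) := by
    split_ifs <;> simp [heps]
  rcases c with i | ⟨i, j⟩ | ⟨i, j⟩
  · simp only [uc] at hu
    have hi : i = 0 := by
      split_ifs at hu <;> omega
    subst hi
    simp only [goR, cost, om]
    rw [if_neg (by omega)]
    cases A
    · simp [eps]
    · have := qn_succ (m := 0) (by omega)
      simp
      norm_num at this
      linarith
  · simp only [uc] at hu
    have hi : i = 0 ∧ 0 < j := by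
      split_ifs at hu <;> omega
    obtain ⟨rfl, hj⟩ := hi
    simp only [goR, cost, om]
    have := qp_le_one j
    simp
    linarith
  · simp only [uc, WFc] at hu hc
    have hi : i = 0 ∧ 0 < j := by
      split_ifs at hu <;> omega
    obtain ⟨rfl, hj⟩ := hi
    have hj' : (0 : ℝ) ≤ j := by positivity
    have e : cost A σ (goR (rest (Y 0 j) 0)) = σ * j + 7 := by
      simp only [goR]
      split_ifs with h1
      · simp only [cost, om, rho, qp_zero]
        rw [if_pos (by omega)]
        norm_num
      · simp only [cost]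
    rw [e]
    simp only [om]
    push_cast
    nlinarith

theorem enter_right (A : Bool) (c : Cfg) (hc : WFc c) (hu : 0 < uc c 52) :
    cost A (1 / 2) (goL (rest c 53)) ≤ cost A (1 / 2) (rest c 53) - 1 := by
  rw [cost_rest_53]
  rcases c with i | ⟨i, j⟩ | ⟨i, j⟩
  · simp only [goL, cost, om]
    have h1 := qn_pos i
    have h2 := qn_le_one i
    have h3 := qp_pos 42
    by_cases hi : i = 0
    · subst hi
      have h4 : qp 42 = qn 0 := rfl
      simp
      cases A
      · simp; linarith
      · simp; linarith
    · rw [if_neg hi]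
      cases A
      · simp; linarith
      · simp; linarith
  · simp only [uc, WFc] at hu hc
    split_ifs at hu <;> omega
  · simp only [uc, WFc] at hu hc
    split_ifs at hu <;> omega

theorem cost_sigma (A : Bool) (s : LS) (h : WF s) (ht : tl (base s) = true) :
    cost A 1 s ≤ cost A (1 / 2) s + 32 := by
  have hr : ∀ r, r ≤ 53 → rho r ≤ 64 := by
    intro r hr
    rw [← rho_53]; exact rho_mono hr
  rcases s with ⟨(i | ⟨i, j⟩ | ⟨i, j⟩), r⟩ | ⟨i, m, M⟩ | ⟨i, m⟩ | ⟨i, m⟩ | ⟨i, j, m, M⟩ | ⟨i, j, m, M⟩ |
    ⟨i, j, m⟩ | ⟨i, j, m⟩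
  · simp [base, tl] at ht
  · simp only [WF, WFc, okpos] at h
    have := hr r (by omega)
    simp only [cost]; linarith
  · simp only [WF, WFc, okpos] at h
    have := hr r (by omega)
    simp only [cost]; linarith
  · simp [base, tl] at ht
  · simp [base, tl] at ht
  · simp [base, tl] at ht
  · simp only [WF] at h
    have : (i : ℝ) ≤ 42 := by exact_mod_cast (by omega : i ≤ 42)
    simp only [cost]; linarith
  · simp only [WF] at h
    have : (j : ℝ) ≤ 42 := by exact_mod_cast (by omega : j ≤ 42)
    simp only [cost]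
    split_ifs <;> linarith
  · simp only [WF] at h
    have : (j : ℝ) ≤ 42 := by exact_mod_cast (by omega : j ≤ 42)
    simp only [cost]; linarith
  · simp only [WF] at h
    have : (i : ℝ) ≤ 42 := by exact_mod_cast (by omega : i ≤ 42)
    simp only [cost]; linarith

theorem om_true_le (c : Cfg) : om true c ≤ om false c := by
  rcases c with i | ⟨i, j⟩ | ⟨i, j⟩
  · have := qn_pos i
    simp [om]; linarith
  · simp [om]
  · simp [om]

theorem om_tl_ge (A : Bool) (c : Cfg) (hc : WFc c) (h : tl c = true) : 7 ≤ om A c := by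
  rcases c with i | ⟨i, j⟩ | ⟨i, j⟩
  · simp [tl] at h
  · have := qp_le_one j
    simp only [om]
    split_ifs <;> linarith
  · simp only [WFc] at hc
    have : (i : ℝ) ≤ j := by exact_mod_cast hc.1.le
    simp only [om]; linarith

theorem om_ge (A : Bool) (c : Cfg) (hc : WFc c) (h : tl c = false) :
    -(if A = true then 3 else 0) ≤ om A c := by
  rcases c with i | ⟨i, j⟩ | ⟨i, j⟩
  · have := qn_le_one i
    simp only [om]
    split_ifs <;> linarith
  · simp [tl] at h
  · simp [tl] at h

theorem om_U_le (A : Bool) (i : ℕ) : om A (U i) ≤ 0 := by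
  have := qn_pos i
  simp only [om]
  split_ifs <;> linarith

theorem cost_lower (A : Bool) (σ : ℝ) (s : LS) (h : WF s) (hσ : 0 ≤ σ) :
    om A (base s) - 42 ≤ cost A σ s := by
  rcases s with ⟨(i | ⟨i, j⟩ | ⟨i, j⟩), r⟩ | ⟨i, m, M⟩ | ⟨i, m⟩ | ⟨i, m⟩ | ⟨i, j, m, M⟩ | ⟨i, j, m, M⟩ |
    ⟨i, j, m⟩ | ⟨i, j, m⟩
  · have := rho_nonneg r
    simp only [cost, base]
    split_ifs <;> nlinarith
  · have := rho_nonneg r
    simp only [cost, base]
    nlinarith
  · have := rho_nonneg r
    simp only [cost, base]
    nlinarith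
  · simp only [WF] at h
    have h1 := om_U_le A i
    have h2 := om_ge A (U M) (by simp only [WFc]; omega) rfl
    have h3 := qn_pos m
    have h4 := qn_le_one m
    have h5 : (i : ℝ) ≤ m := by exact_mod_cast h.1.le
    have h6 : (0 : ℝ) ≤ i := by positivity
    simp only [cost, base]
    split_ifs with h7 h8
    · nlinarith
    · nlinarith
    · have : (if A = true then (3 : ℝ) else 0) ≤ 3 := by split_ifs <;> norm_num
      linarith
  · simp only [WF] at h
    have h1 := om_U_le A i
    have h5 : (i : ℝ) ≤ 42 := by exact_mod_cast h.1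
    simp only [cost, base]
    nlinarith
  · have h1 := om_U_le A i
    have h2 := qp_le_one 42
    simp only [cost, base]
    split_ifs <;> nlinarith
  · have h1 := qp_pos j
    have h6 : (0 : ℝ) ≤ i := by positivity
    simp only [cost, base, om]
    split_ifs <;> nlinarith
  · simp only [WF] at h
    have h1 := qp_pos j
    have h2 := qp_pos m
    have h3 := qp_le_one m
    have h4 := qp_le_one M
    have h5 : (m : ℝ) ≤ j := by exact_mod_cast h.2.2.1.le
    have h6 : (0 : ℝ) ≤ j := by positivity
    simp only [cost, base, om]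
    split_ifs <;> first | omega | nlinarith
  · simp only [WF] at h
    have h5 : (j : ℝ) ≤ 42 := by exact_mod_cast (by omega : j ≤ 42)
    have h6 : (0 : ℝ) ≤ j := by positivity
    have h7 : (0 : ℝ) ≤ i := by positivity
    simp only [cost, base, om]
    nlinarith
  · simp only [WF] at h
    have h5 : (j : ℝ) ≤ 42 := by exact_mod_cast (by omega : j ≤ 42)
    have h6 : (0 : ℝ) ≤ j := by positivity
    have h7 : (0 : ℝ) ≤ i := by positivity
    simp only [cost, base, om]
    nlinarith

theorem rest_of_pos_zero (s : LS) (h : WF s) (hp : lpos s = 0) : s = rest (base s) 0 := by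
  rcases s with ⟨c, r⟩ | ⟨i, m, M⟩ | ⟨i, m⟩ | ⟨i, m⟩ | ⟨i, j, m, M⟩ | ⟨i, j, m, M⟩ |
    ⟨i, j, m⟩ | ⟨i, j, m⟩
  · simp only [lpos] at hp; subst hp; rfl
  all_goals
    simp only [lpos] at hp
    subst hp
    simp only [WF] at h
    omega

theorem rest_of_pos_53 (s : LS) (h : WF s) (hp : lpos s = 53) : s = rest (base s) 53 := by
  rcases s with ⟨c, r⟩ | ⟨i, m, M⟩ | ⟨i, m⟩ | ⟨i, m⟩ | ⟨i, j, m, M⟩ | ⟨i, j, m, M⟩ |
    ⟨i, j, m⟩ | ⟨i, j, m⟩
  · simp only [lpos] at hp; subst hp; rfl
  all_goals
    simp only [lpos] at hp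
    subst hp
    simp only [WF] at h
    omega

theorem eps_lt : eps ≤ 1 / 8 := by
  rw [eps, qn]
  norm_num

theorem eps_pos : 0 ≤ eps := by
  have := qn_pos 1
  rw [eps]; linarith

theorem uc_52 (c : Cfg) (h : WFc c) : uc c 52 = if tl c = true then 0 else 1 := by
  rcases c with i | ⟨i, j⟩ | ⟨i, j⟩ <;> simp only [WFc] at h <;> simp only [uc, tl]
  · rw [if_neg (by omega), if_neg (by omega)]; simp
  · rw [if_neg (by omega)]; simp
  · rw [if_neg (by omega)]; simp

end Pool.Agent.Lib.MP_4770bc_pr
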