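import Mathlib

/-!
An abstract recurrence criterion for history-dependent walks which choose uniformly from a finite
set of possible next positions.
-/

open MeasureTheory ProbabilityTheory Filter Topology
open scoped ENNReal NNReal

namespace Pool.Agent.Lib.MP_4770bc_pr

/-- history of a path, most recent position first -/
def hist {V : Type} (x : ℕ → V) : ℕ → List V
  | 0 => [x 0]
  | t + 1 => x (t + 1) :: hist x t

/-- history of the process -/
def H {V Ω : Type} (X : ℕ → Ω → V) (t : ℕ) (ω : Ω) : List V := hist (fun s => X s ω) t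

theorem H_succ {V Ω : Type} (X : ℕ → Ω → V) (t : ℕ) (ω : Ω) :
    H X (t + 1) ω = X (t + 1) ω :: H X t ω := rfl

theorem hist_eq_iff {V : Type} (x y : ℕ → V) (t : ℕ) :
    hist x t = hist y t ↔ ∀ s ≤ t, x s = y s := by
  induction t with
  | zero =>
    simp [hist]
  | succ t ih =>
    simp only [hist, List.cons.injEq, ih]
    constructor
    · rintro ⟨h1, h2⟩ s hs
      rcases Nat.lt_or_ge s (t + 1) with h | h
      · exact h2 s (by omega)
      · have : s = t + 1 := by omega
        subst this; exact h1
    · intro h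
      exact ⟨h _ le_rfl, fun s hs => h s (by omega)⟩

/-- an abstract walk choosing its next position uniformly in `C h`, where `h` is the history -/
structure IsProc {V Ω : Type} [MeasurableSpace Ω] (C : List V → Finset V) (P : Measure Ω)
    (X : ℕ → Ω → V) : Prop where
  meas : ∀ t v, MeasurableSet {ω | X t ω = v}
  step_mem : ∀ t h y, y ∈ C h → P {ω | H X (t + 1) ω = y :: h} =
    P {ω | H X t ω = h} * ((C h).card : ℝ≥0∞)⁻¹
  step_not_mem : ∀ t h y, y ∉ C h → P {ω | H X (t + 1) ω = y :: h} = 0

section

variable {V : Type} {Ω : Type} [MeasurableSpace Ω] {P : Measure Ω}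
  {X : ℕ → Ω → V} {C : List V → Finset V}

theorem measurableSet_H (hX : ∀ t v, MeasurableSet {ω | X t ω = v}) (t : ℕ) (h : List V) :
    MeasurableSet {ω | H X t ω = h} := by
  induction t generalizing h with
  | zero =>
    rcases h with _ | ⟨y, _ | ⟨z, h⟩⟩
    · simp [H, hist]
    · have : {ω | H X 0 ω = [y]} = {ω | X 0 ω = y} := by
        ext ω; simp [H, hist]
      rw [this]; exact hX 0 y
    · simp [H, hist]
  | succ t ih =>
    rcases h with _ | ⟨y, h⟩
    · simp [H, hist]
    · have : {ω | H X (t + 1) ω = y :: h} = {ω | X (t + 1) ω = y} ∩ {ω | H X t ω = h} := by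
        ext ω; simp [H, hist]
      rw [this]; exact (hX _ _).inter (ih h)

variable [Countable V]

theorem measurableSet_H_pred (hX : ∀ t v, MeasurableSet {ω | X t ω = v}) (t : ℕ)
    (S : Set (List V)) : MeasurableSet {ω | H X t ω ∈ S} := by
  have : {ω | H X t ω ∈ S} = ⋃ h ∈ S, {ω | H X t ω = h} := by
    ext ω; simp
  rw [this]
  exact MeasurableSet.biUnion S.to_countable (fun h _ => measurableSet_H hX t h)

/-- expectation of a function of the history after one more step -/
theorem lintegral_step (hp : IsProc C P X) (t : ℕ) (f : List V → ℝ≥0∞) :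
    ∫⁻ ω, f (H X (t + 1) ω) ∂P =
      ∑' h : List V, P {ω | H X t ω = h} *
        (((C h).card : ℝ≥0∞)⁻¹ * ∑ y ∈ C h, f (y :: h)) := by
  classical
  let _ : MeasurableSpace (V × List V) := ⊤
  have hmeas : Measurable (fun ω => (X (t + 1) ω, H X t ω)) := by
    apply measurable_to_countable'
    rintro ⟨y, h⟩
    have : (fun ω => (X (t + 1) ω, H X t ω)) ⁻¹' {(y, h)} =
        {ω | X (t + 1) ω = y} ∩ {ω | H X t ω = h} := by
      ext ω; simp
    rw [this]
    exact (hp.meas _ _).inter (measurableSet_H hp.meas t h)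
  have h1 : ∫⁻ ω, f (H X (t + 1) ω) ∂P =
      ∫⁻ p : V × List V, f (p.1 :: p.2) ∂(P.map (fun ω => (X (t + 1) ω, H X t ω))) := by
    rw [lintegral_map (by exact measurable_from_top) hmeas]
    rfl
  rw [h1]
  have hsing : MeasurableSingletonClass (V × List V) := ⟨fun _ => trivial⟩
  rw [lintegral_countable', ENNReal.tsum_prod', ENNReal.tsum_comm]
  congr 1
  ext h
  have h2 : ∀ y, (P.map (fun ω => (X (t + 1) ω, H X t ω))) {(y, h)} =
      P {ω | H X (t + 1) ω = y :: h} := by
    intro y
    rw [Measure.map_apply hmeas (by exact trivial)]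
    congr 1
    ext ω
    simp [H_succ]
  simp only [h2]
  rw [tsum_eq_sum (s := C h)]
  · rw [Finset.mul_sum, Finset.mul_sum]
    apply Finset.sum_congr rfl
    intro y hy
    rw [hp.step_mem t h y hy]
    ring
  · intro y hy
    rw [hp.step_not_mem t h y hy, mul_zero]

theorem lintegral_H (hX : ∀ t v, MeasurableSet {ω | X t ω = v}) (t : ℕ) (f : List V → ℝ≥0∞) :
    ∫⁻ ω, f (H X t ω) ∂P = ∑' h : List V, P {ω | H X t ω = h} * f h := by
  let _ : MeasurableSpace (List V) := ⊤
  have hsing : MeasurableSingletonClass (List V) := ⟨fun _ => trivial⟩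
  have hmeas : Measurable (H X t) := by
    apply measurable_to_countable'
    intro h
    exact measurableSet_H hX t h
  have h1 : ∫⁻ ω, f (H X t ω) ∂P = ∫⁻ h, f h ∂(P.map (H X t)) := by
    rw [lintegral_map (by exact measurable_from_top) hmeas]
  rw [h1, lintegral_countable']
  congr 1
  ext h
  rw [Measure.map_apply hmeas (by exact trivial), mul_comm]
  rfl

/-- one-step supermartingale inequality in integrated form -/
theorem lintegral_step_le (hp : IsProc C P X) (t : ℕ) (f g : List V → ℝ≥0∞)
    (hfg : ∀ h, ∑ y ∈ C h, f (y :: h) ≤ (C h).card * g h) :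
    ∫⁻ ω, f (H X (t + 1) ω) ∂P ≤ ∫⁻ ω, g (H X t ω) ∂P := by
  rw [lintegral_step hp, lintegral_H hp.meas]
  apply ENNReal.tsum_le_tsum
  intro h
  apply mul_le_mul_right
  rcases Nat.eq_zero_or_pos (C h).card with h0 | h0
  · have : C h = ∅ := Finset.card_eq_zero.mp h0
    simp [this]
  · calc ((C h).card : ℝ≥0∞)⁻¹ * ∑ y ∈ C h, f (y :: h)
        ≤ ((C h).card : ℝ≥0∞)⁻¹ * ((C h).card * g h) := by gcongr; exact hfg h
      _ = g h := by
        rw [← mul_assoc, ENNReal.inv_mul_cancel, one_mul]
        · exact_mod_cast h0.ne'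
        · exact ENNReal.natCast_ne_top _

/-- almost surely every step is a possible one -/
theorem ae_step_mem (hp : IsProc C P X) :
    ∀ᵐ ω ∂P, ∀ t, X (t + 1) ω ∈ C (H X t ω) := by
  rw [ae_all_iff]
  intro t
  classical
  have h0 := lintegral_step hp t (fun l : List V => match l with
      | [] => 0
      | y :: h => if y ∈ C h then (0 : ℝ≥0∞) else 1)
  have h00 : ∑' h : List V, P {ω | H X t ω = h} *
        (((C h).card : ℝ≥0∞)⁻¹ * ∑ y ∈ C h, (if y ∈ C h then (0 : ℝ≥0∞) else 1)) = 0 := by
    rw [ENNReal.tsum_eq_zero]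
    intro h
    have : ∑ y ∈ C h, (if y ∈ C h then (0 : ℝ≥0∞) else 1) = 0 := by
      apply Finset.sum_eq_zero
      intro y hy
      simp [hy]
    simp only [this, mul_zero]
  rw [h00] at h0
  have hms : MeasurableSet {ω | ¬ X (t + 1) ω ∈ C (H X t ω)} := by
    have : {ω | ¬ X (t + 1) ω ∈ C (H X t ω)} =
        {ω | H X (t + 1) ω ∈ {l : List V | match l with
          | [] => False
          | y :: h => y ∉ C h}} := by
      ext ω; simp [H_succ]
    rw [this]
    exact measurableSet_H_pred hp.meas _ _
  rw [ae_iff]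
  have : ∫⁻ ω, ({ω | ¬ X (t + 1) ω ∈ C (H X t ω)}).indicator 1 ω ∂P = 0 := by
    rw [← h0]
    apply lintegral_congr
    intro ω
    simp only [H_succ, Set.indicator, Set.mem_ofPred_eq, Pi.one_apply]
    split_ifs <;> rfl
  rwa [lintegral_indicator_one hms] at this

/-- Convergence of nonnegative supermartingales which are functions of the history. -/
theorem ae_tendsto [IsProbabilityMeasure P] (hp : IsProc C P X) (s : ℕ) (z : ℕ → List V → ℝ)
    (M : ℝ) (hz0 : ∀ k h, 0 ≤ z k h) (hM : ∀ h, z 0 h ≤ M)
    (hsup : ∀ k h, ∑ y ∈ C h, z (k + 1) (y :: h) ≤ (C h).card * z k h) :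
    ∀ᵐ ω ∂P, ∃ c, Tendsto (fun k => z k (H X (s + k) ω)) atTop (𝓝 c) := by
  classical
  let _ : MeasurableSpace (List V) := ⊤
  have hHm : ∀ t, Measurable (H X t) := by
    intro t
    apply measurable_to_countable'
    intro h
    exact measurableSet_H hp.meas t h
  let ℱ : Filtration ℕ (inferInstance : MeasurableSpace Ω) :=
    { seq := fun k => MeasurableSpace.comap (H X (s + k)) ⊤
      mono' := by
        apply monotone_nat_of_le_succ
        intro k
        have hh : H X (s + k) = List.tail ∘ H X (s + (k + 1)) := by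
          funext ω
          simp [← Nat.add_assoc, H_succ]
        rw [hh, ← MeasurableSpace.comap_comp]
        exact MeasurableSpace.comap_mono le_top
      le' := by
        intro k
        exact (hHm (s + k)).comap_le }
  have hsupE : ∀ k h, ∑ y ∈ C h, ENNReal.ofReal (z (k + 1) (y :: h)) ≤
      (C h).card * ENNReal.ofReal (z k h) := by
    intro k h
    rw [← ENNReal.ofReal_sum_of_nonneg (fun y _ => hz0 _ _)]
    calc ENNReal.ofReal (∑ y ∈ C h, z (k + 1) (y :: h))
        ≤ ENNReal.ofReal ((C h).card * z k h) := ENNReal.ofReal_le_ofReal (hsup k h)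
      _ = (C h).card * ENNReal.ofReal (z k h) := by
        rw [ENNReal.ofReal_mul (by positivity), ENNReal.ofReal_natCast]
  have hzm : ∀ k, Measurable (fun ω => z k (H X (s + k) ω)) := by
    intro k
    exact (measurable_from_top (f := z k)).comp (hHm (s + k))
  have hlint : ∀ k, ∫⁻ ω, ENNReal.ofReal (z k (H X (s + k) ω)) ∂P ≤ ENNReal.ofReal M := by
    intro k
    induction k with
    | zero =>
      calc ∫⁻ ω, ENNReal.ofReal (z 0 (H X (s + 0) ω)) ∂P ≤ ∫⁻ _, ENNReal.ofReal M ∂P := by
            apply lintegral_mono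
            intro ω
            exact ENNReal.ofReal_le_ofReal (hM _)
        _ = ENNReal.ofReal M := by simp
    | succ k ih =>
      refine le_trans ?_ ih
      have := lintegral_step_le hp (s + k) (fun h => ENNReal.ofReal (z (k + 1) h))
        (fun h => ENNReal.ofReal (z k h)) (hsupE k)
      exact this
  have hint : ∀ k, Integrable (fun ω => z k (H X (s + k) ω)) P := by
    intro k
    refine ⟨(hzm k).aestronglyMeasurable, ?_⟩
    rw [hasFiniteIntegral_iff_ofReal (Eventually.of_forall (fun ω => hz0 _ _))]
    exact lt_of_le_of_lt (hlint k) ENNReal.ofReal_lt_top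
  have hsm : Supermartingale (fun k ω => z k (H X (s + k) ω)) ℱ P := by
    apply supermartingale_of_setIntegral_succ_le
    · intro k
      apply Measurable.stronglyMeasurable
      exact (measurable_from_top (f := z k)).comp (comap_measurable (H X (s + k)))
    · exact hint
    · intro i S hS
      obtain ⟨B, -, rfl⟩ := hS
      have hBm : MeasurableSet (H X (s + i) ⁻¹' B) := measurableSet_H_pred hp.meas _ B
      rw [integral_eq_lintegral_of_nonneg_ae (Eventually.of_forall (fun ω => hz0 _ _))
        (hzm _).aestronglyMeasurable,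
        integral_eq_lintegral_of_nonneg_ae (Eventually.of_forall (fun ω => hz0 _ _))
        (hzm _).aestronglyMeasurable]
      apply ENNReal.toReal_mono
      · refine ne_of_lt (lt_of_le_of_lt (setLIntegral_le_lintegral _ _) ?_)
        exact lt_of_le_of_lt (hlint i) ENNReal.ofReal_lt_top
      · rw [← lintegral_indicator hBm, ← lintegral_indicator hBm]
        have := lintegral_step_le hp (s + i)
          (fun l => if l.tail ∈ B then ENNReal.ofReal (z (i + 1) l) else 0)
          (fun l => if l ∈ B then ENNReal.ofReal (z i l) else 0) (by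
            intro h
            by_cases hb : h ∈ B
            · simp only [List.tail_cons, hb, if_true]
              exact hsupE i h
            · simp [List.tail_cons, hb])
        exact this
  have hsub := hsm.neg
  have hbdd : ∀ n, eLpNorm ((-fun k ω => z k (H X (s + k) ω)) n) 1 P ≤
      ((Real.toNNReal M : ℝ≥0) : ℝ≥0∞) := by
    intro n
    rw [Pi.neg_apply, eLpNorm_neg, eLpNorm_one_eq_lintegral_enorm]
    refine le_trans (le_of_eq ?_) (hlint n)
    apply lintegral_congr
    intro ω
    rw [Real.enorm_eq_ofReal (hz0 _ _)]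
  filter_upwards [hsub.exists_ae_tendsto_of_bdd hbdd] with ω hω
  obtain ⟨c, hc⟩ := hω
  refine ⟨-c, ?_⟩
  have := hc.neg
  simpa using this

end

/-- histories of possible paths from `o` -/
inductive Valid {V : Type} (C : List V → Finset V) (o : V) : List V → Prop
  | start : Valid C o [o]
  | cons {h : List V} {y : V} : Valid C o h → y ∈ C h → Valid C o (y :: h)

theorem valid_hist {V : Type} {C : List V → Finset V} {o : V} {x : ℕ → V} (h0 : x 0 = o)
    (h1 : ∀ t, x (t + 1) ∈ C (hist x t)) (t : ℕ) : Valid C o (hist x t) := by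
  induction t with
  | zero => rw [hist, h0]; exact Valid.start
  | succ t ih => exact Valid.cons ih (h1 t)

theorem drop_hist {V : Type} (x : ℕ → V) (s k : ℕ) : (hist x (s + k)).drop k = hist x s := by
  induction k with
  | zero => rfl
  | succ k ih => simpa [← Nat.add_assoc, hist] using ih

theorem mem_take_hist {V : Type} (x : ℕ → V) (s k : ℕ) (y : V)
    (hy : y ∈ (hist x (s + k)).take (k + 1)) : ∃ t ≥ s, x t = y := by
  induction k with
  | zero =>
    cases s with
    | zero => simp [hist] at hy; exact ⟨0, le_rfl, hy.symm⟩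
    | succ s => simp [hist] at hy; exact ⟨s + 1, le_rfl, hy.symm⟩
  | succ k ih =>
    simp only [hist, List.take_succ_cons, List.mem_cons] at hy
    rcases hy with hy | hy
    · exact ⟨s + k + 1, by omega, hy.symm⟩
    · exact ih hy

/-- The recurrence criterion. -/
theorem infinitely_often {V : Type} [Countable V] {Ω : Type} [MeasurableSpace Ω] {P : Measure Ω}
    [IsProbabilityMeasure P] {X : ℕ → Ω → V} {C : List V → Finset V} (o : V)
    (hp : IsProc C P X) (hstart : ∀ᵐ ω ∂P, X 0 ω = o) (Ψ : List V → ℝ)
    (nonneg : ∀ h, Valid C o h → 0 ≤ Ψ h)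
    (super : ∀ h, Valid C o h → h.head? ≠ some o → ∑ y ∈ C h, Ψ (y :: h) ≤ (C h).card * Ψ h)
    (nonconv : ∀ x : ℕ → V, x 0 = o → (∀ t, x (t + 1) ∈ C (hist x t)) →
      (∃ T, ∀ t ≥ T, x t ≠ o) → ¬ ∃ c, Tendsto (fun t => Ψ (hist x t)) atTop (𝓝 c)) :
    ∀ᵐ ω ∂P, ∀ T, ∃ t ≥ T, X t ω = o := by
  classical
  let alive : List V → ℕ → List V → Prop := fun h₀ k h =>
    h.drop k = h₀ ∧ Valid C o h ∧ ∀ y ∈ h.take (k + 1), y ≠ o
  have hconv : ∀ᵐ ω ∂P, ∀ (s : ℕ) (h₀ : List V), ∃ c, Tendsto (fun k =>
      (if alive h₀ k (H X (s + k) ω) then Ψ (H X (s + k) ω) else 0)) atTop (𝓝 c) := by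
    rw [ae_all_iff]
    intro s
    rw [ae_all_iff]
    intro h₀
    apply ae_tendsto hp s (fun k h => if alive h₀ k h then Ψ h else 0) (max (Ψ h₀) 0)
    · intro k h
      show 0 ≤ if alive h₀ k h then Ψ h else 0
      split_ifs with ha
      · exact nonneg h ha.2.1
      · exact le_rfl
    · intro h
      show (if alive h₀ 0 h then Ψ h else 0) ≤ max (Ψ h₀) 0
      split_ifs with ha
      · have : h = h₀ := by simpa using ha.1
        rw [this]; exact le_max_left _ _
      · exact le_max_right _ _
    · intro k h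
      show ∑ y ∈ C h, (if alive h₀ (k + 1) (y :: h) then Ψ (y :: h) else 0) ≤
        (C h).card * (if alive h₀ k h then Ψ h else 0)
      split_ifs with ha
      · refine le_trans (Finset.sum_le_sum ?_) (super h ha.2.1 ?_)
        · intro y hy
          split_ifs with hb
          · exact le_rfl
          · exact nonneg _ (Valid.cons ha.2.1 hy)
        · intro hh
          rcases h with _ | ⟨a, h⟩
          · simp at hh
          · simp at hh
            apply ha.2.2 a (by simp)
            exact hh
      · rw [mul_zero]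
        apply le_of_eq
        apply Finset.sum_eq_zero
        intro y hy
        rw [if_neg]
        intro hb
        apply ha
        refine ⟨by simpa using hb.1, ?_, ?_⟩
        · have h2 := hb.2.1
          rcases h2 with _ | ⟨h2, _⟩
          · exfalso
            apply hb.2.2 o (by simp) rfl
          · exact h2
        · intro w hw
          apply hb.2.2 w
          simp only [List.take_succ_cons, List.mem_cons]
          exact Or.inr hw
  filter_upwards [hconv, ae_step_mem hp, hstart] with ω h1 h2 h3
  by_contra hcon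
  push Not at hcon
  obtain ⟨T, hT⟩ := hcon
  apply nonconv (fun s => X s ω) h3 h2 ⟨T, hT⟩
  obtain ⟨c, hc⟩ := h1 T (H X T ω)
  refine ⟨c, ?_⟩
  rw [← tendsto_add_atTop_iff_nat T]
  refine hc.congr ?_
  intro k
  rw [if_pos]
  · rw [Nat.add_comm]; rfl
  · refine ⟨drop_hist _ _ _, valid_hist h3 h2 _, ?_⟩
    intro y hy
    obtain ⟨t, ht, rfl⟩ := mem_take_hist _ _ _ _ hy
    exact hT t ht

end Pool.Agent.Lib.MP_4770bc_pr
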