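import Mathlib

/-!
Definitions for the greedy random walk (GRW) with the uniform rule, and for non-amenability.
-/

open MeasureTheory

namespace Pool.Agent.Lib.MP_4770bc_pr

/-- The set of edges crossed (in either direction) by the path `x` up to time `t`:
all unordered pairs of the form (x (s), x (s+1)) with `s + 1 ≤ t`. -/
def crossed {V : Type} (x : ℕ → V) (t : ℕ) : Set (Sym2 V) :=
  {e | ∃ s < t, e = s(x s, x (s + 1))}

/-- The neighbours of the present position `x t` which are joined to it by an edge that the path
has not crossed up to time `t`. -/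
def freshNbrs {V : Type} (G : SimpleGraph V) (x : ℕ → V) (t : ℕ) : Set V :=
  {y | G.Adj (x t) y ∧ s(x t, y) ∉ crossed x t}

/-- The vertices among which the greedy random walk chooses its next position (uniformly), after
having followed the path `x` up to time `t`: the far endpoints of the uncrossed edges at `x t` if
there is at least one such edge, and all neighbours of `x t` otherwise. -/
def choices {V : Type} (G : SimpleGraph V) (x : ℕ → V) (t : ℕ) : Set V :=
  {y | y ∈ freshNbrs G x t ∨ (freshNbrs G x t = ∅ ∧ G.Adj (x t) y)}

/-- `X` is a greedy random walk (with the uniform rule) on `G` started at `v₀`, under the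
measure `P`. The law is described through the probabilities of cylinder events. -/
structure IsGRW {V : Type} (G : SimpleGraph V) (v₀ : V) {Ω : Type} [MeasurableSpace Ω]
    (P : Measure Ω) (X : ℕ → Ω → V) : Prop where
  prob : IsProbabilityMeasure P
  measurable : ∀ t v, MeasurableSet {ω | X t ω = v}
  start : ∀ᵐ ω ∂P, X 0 ω = v₀
  step_mem : ∀ (x : ℕ → V) (t : ℕ), x (t + 1) ∈ choices G x t →
    P {ω | ∀ s ≤ t + 1, X s ω = x s} = P {ω | ∀ s ≤ t, X s ω = x s} / (choices G x t).ncard
  step_not_mem : ∀ (x : ℕ → V) (t : ℕ), x (t + 1) ∉ choices G x t →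
    P {ω | ∀ s ≤ t + 1, X s ω = x s} = 0

/-- The edge boundary of a set of vertices: the edges with exactly one endpoint in `S`. -/
def edgeBoundary {V : Type} (G : SimpleGraph V) (S : Set V) : Set (Sym2 V) :=
  {e | ∃ u ∈ S, ∃ w ∉ S, G.Adj u w ∧ e = s(u, w)}

/-- Non-amenability: the infimum of `|∂_E S| / |S|` over finite nonempty `S` is positive. -/
def NonAmenable {V : Type} (G : SimpleGraph V) : Prop :=
  ∃ c : ℝ, 0 < c ∧ ∀ S : Finset V, S.Nonempty → c ≤ (edgeBoundary G S).ncard / S.card

end Pool.Agent.Lib.MP_4770bc_pr
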