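import Pool.Agent.Lib.MP_4770bc_pr.Crit

/-!
Existence of the abstract history-dependent walks, by the Ionescu-Tulcea theorem.
-/

open MeasureTheory ProbabilityTheory Filter Topology Finset Preorder
open scoped ENNReal NNReal

namespace Pool.Agent.Lib.MP_4770bc_pr

/-- extension of a finite path -/
def extendPath {V : Type} (o : V) (a : ℕ) (u : (i : Iic a) → V) : ℕ → V :=
  fun s => if h : s ∈ Iic a then u ⟨s, h⟩ else o

theorem hist_extendPath {V : Type} (o : V) (a : ℕ) (x : ℕ → V) :
    hist (extendPath o a (frestrictLe (π := fun _ => V) a x)) a = hist x a := by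
  rw [hist_eq_iff]
  intro s hs
  simp [extendPath, hs]

/-- uniform choice from a finite set, with a default value for the empty set -/
noncomputable def unif {V : Type} (o : V) (C : Finset V) : PMF V :=
  if h : C.Nonempty then PMF.uniformOfFinset C h else PMF.pure o

theorem exists_proc {V : Type} [Countable V] (C : List V → Finset V) (o : V)
    (hne : ∀ h, h ≠ [] → (C h).Nonempty) :
    ∃ (Ω : Type) (_ : MeasurableSpace Ω) (P : Measure Ω) (X : ℕ → Ω → V),
      IsProbabilityMeasure P ∧ IsProc C P X ∧ ∀ᵐ ω ∂P, X 0 ω = o := by
  classical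
  let m : MeasurableSpace V := ⊤
  have hsing : MeasurableSingletonClass V := ⟨fun _ => trivial⟩
  let κ : (n : ℕ) → Kernel ((i : Iic n) → V) V := fun n =>
    Kernel.ofFunOfCountable (fun u => (unif o (C (hist (extendPath o n u) n))).toMeasure)
  have hκ : ∀ n, IsMarkovKernel (κ n) := by
    intro n
    constructor
    intro u
    show IsProbabilityMeasure ((unif o (C (hist (extendPath o n u) n))).toMeasure)
    infer_instance
  let μ₀ : Measure V := Measure.dirac o
  let P : Measure (ℕ → V) := Kernel.trajMeasure (X := fun _ => V) μ₀ κ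
  have hP : IsProbabilityMeasure P := by
    show IsProbabilityMeasure (Kernel.trajMeasure (X := fun _ => V) μ₀ κ)
    infer_instance
  have key : ∀ (t : ℕ) (u : (i : Iic t) → V) (y : V),
      P {x | frestrictLe (π := fun _ => V) t x = u ∧ x (t + 1) = y} =
      P {x | frestrictLe (π := fun _ => V) t x = u} *
        (unif o (C (hist (extendPath o t u) t))) y := by
    intro t u y
    have h := Kernel.map_frestrictLe_trajMeasure_compProd_eq_map_trajMeasure
      (X := fun _ => V) (μ₀ := μ₀) (κ := κ) (a := t)
    have h1 : (P.map (fun x ↦ (frestrictLe (π := fun _ => V) t x, x (t + 1)))) ({u} ×ˢ {y}) =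
        P {x | frestrictLe (π := fun _ => V) t x = u ∧ x (t + 1) = y} := by
      rw [Measure.map_apply (by fun_prop) (by measurability)]
      congr 1
    have h2 : (P.map (frestrictLe (π := fun _ => V) t) ⊗ₘ κ t) ({u} ×ˢ {y}) =
        P {x | frestrictLe (π := fun _ => V) t x = u} *
          (unif o (C (hist (extendPath o t u) t))) y := by
      rw [Measure.compProd_apply_prod (by measurability) (by measurability),
        lintegral_singleton, Measure.map_apply (by fun_prop) (by measurability), mul_comm]
      congr 1
      show (unif o (C (hist (extendPath o t u) t))).toMeasure {y} = _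
      rw [PMF.toMeasure_apply_singleton _ _ (by measurability)]
    rw [← h1, ← h2]
    exact congrArg (fun ν => ν ({u} ×ˢ {y})) h.symm
  have hset : ∀ (t : ℕ) (x₁ : ℕ → V),
      {x : ℕ → V | hist x t = hist x₁ t} =
      {x | frestrictLe (π := fun _ => V) t x = frestrictLe (π := fun _ => V) t x₁} := by
    intro t x₁
    ext x
    simp only [Set.mem_ofPred_eq, hist_eq_iff]
    constructor
    · intro h
      funext i
      exact h i.1 (Finset.mem_Iic.mp i.2)
    · intro h s hs
      exact congrFun h ⟨s, by simpa using hs⟩
  have key2 : ∀ (t : ℕ) (h : List V) (y : V),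
      P {x | hist x (t + 1) = y :: h} = P {x | hist x t = h} * (unif o (C h)) y := by
    intro t h y
    by_cases hx : ∃ x₁ : ℕ → V, hist x₁ t = h
    · obtain ⟨x₁, rfl⟩ := hx
      have h1 := key t (frestrictLe (π := fun _ => V) t x₁) y
      rw [hist_extendPath] at h1
      rw [hset, ← h1]
      congr 1
      ext x
      have h2 := Set.ext_iff.mp (hset t x₁) x
      simp only [Set.mem_ofPred_eq] at h2
      simp only [Set.mem_ofPred_eq, hist, List.cons.injEq, ← h2]
      exact and_comm
    · have e1 : {x : ℕ → V | hist x t = h} = ∅ := by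
        ext x
        simp only [Set.mem_ofPred_eq, Set.mem_empty_iff_false, iff_false]
        exact fun hh => hx ⟨x, hh⟩
      have e2 : {x : ℕ → V | hist x (t + 1) = y :: h} = ∅ := by
        ext x
        simp only [Set.mem_ofPred_eq, Set.mem_empty_iff_false, iff_false, hist, List.cons.injEq]
        exact fun hh => hx ⟨x, hh.2⟩
      rw [e1, e2]
      simp
  refine ⟨ℕ → V, inferInstance, P, fun t ω => ω t, hP, ⟨?_, ?_, ?_⟩, ?_⟩
  · intro t v
    exact (measurable_pi_apply (X := fun _ => V) t) (measurableSet_singleton v)
  · intro t h y hy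
    have := key2 t h y
    have hn : (C h).Nonempty := ⟨y, hy⟩
    have e : (unif o (C h)) y = ((C h).card : ℝ≥0∞)⁻¹ := by
      rw [unif, dif_pos hn, PMF.uniformOfFinset_apply_of_mem _ hy]
    rw [e] at this
    exact this
  · intro t h y hy
    have := key2 t h y
    rcases h with _ | ⟨a, h⟩
    · have e2 : {x : ℕ → V | hist x (t + 1) = [y]} = ∅ := by
        ext x
        simp only [Set.mem_ofPred_eq, Set.mem_empty_iff_false, iff_false, hist, List.cons.injEq]
        intro hh
        cases t <;> simp [hist] at hh
      show P {x : ℕ → V | hist x (t + 1) = [y]} = 0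
      rw [e2]; simp
    · have e : (unif o (C (a :: h))) y = 0 := by
        rw [unif, dif_pos (hne _ (by simp)), PMF.uniformOfFinset_apply_of_notMem _ hy]
      rw [e, mul_zero] at this
      exact this
  · have hP0 : P = Kernel.traj (X := fun _ => V) κ 0
        ((MeasurableEquiv.piUnique (fun _ : Iic 0 => V)).symm o) := by
      show Kernel.trajMeasure (X := fun _ => V) μ₀ κ = _
      rw [Kernel.trajMeasure]
      have hd := Measure.map_dirac' (f := (MeasurableEquiv.piUnique (fun _ : Iic 0 => V)).symm)
        (MeasurableEquiv.measurable _) o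
      rw [hd]
      exact Measure.dirac_bind (Kernel.measurable _) _
    have h1 : P.map (frestrictLe (π := fun _ => V) 0) =
        Measure.dirac ((MeasurableEquiv.piUnique (fun _ : Iic 0 => V)).symm o) := by
      rw [hP0, Kernel.traj_map_frestrictLe_apply, Kernel.partialTraj_self, Kernel.id_apply]
    rw [ae_iff]
    have h0 : (0 : ℕ) ∈ Iic 0 := by simp
    have h2 : P.map (frestrictLe (π := fun _ => V) 0) {u | u ⟨0, h0⟩ = o}ᶜ = 0 := by
      have hms : MeasurableSet {u : (i : Iic 0) → V | u ⟨0, h0⟩ = o} :=
        (measurable_pi_apply (X := fun _ : Iic 0 => V) ⟨0, h0⟩) (measurableSet_singleton o)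
      rw [h1, Measure.dirac_apply' _ hms.compl]
      simp only [Set.indicator_apply_eq_zero, Set.mem_compl_iff, Set.mem_ofPred_eq]
      intro hcon
      exact absurd rfl hcon
    rw [Measure.map_apply (by fun_prop) (by measurability)] at h2
    exact h2

end Pool.Agent.Lib.MP_4770bc_pr
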