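import Pool.Agent.Lib.MP_4770bc_pr.Global3

/-!
Properties of the graph: countable, infinite, connected, isoperimetric inequality.
-/

set_option linter.unusedSimpArgs false
set_option linter.unusedVariables false
set_option linter.unnecessarySeqFocus false

namespace Pool.Agent.Lib.MP_4770bc_pr

open Finset

/-- the graph -/
abbrev Gr : SimpleGraph (V0 ⊕ E0) := Sd lf rt

instance : Countable V0 := by
  let f : V0 → ℕ ⊕ (Gam × Fin 52) := fun v => match v with
    | V0.hub n => Sum.inl n
    | V0.inn γ r => Sum.inr (γ, r)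
  have hf : Function.Injective f := by
    intro a b h
    rcases a with n | ⟨γ, r⟩ <;> rcases b with m | ⟨δ, q⟩ <;> simp [f] at h
    · rw [h]
    · rw [h.1, h.2]
  exact hf.countable

instance : Infinite (V0 ⊕ E0) := by
  apply Infinite.of_injective (fun n : ℕ => (Sum.inl (V0.hub n) : V0 ⊕ E0))
  intro a b h
  simpa using h

/-- a lane in each cell -/
def laneOf (c : ℕ) (h : c < 53) : Fin 95 :=
  ⟨if c < 42 then 2 * c else c + 42, by split_ifs <;> omega⟩

theorem cell_laneOf (c : ℕ) (h : c < 53) : cell (laneOf c h) = c := by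
  rw [cell, laneOf]
  by_cases h1 : c < 42
  · simp only [h1, if_true]
    rw [if_pos (by omega)]; omega
  · simp only [h1, if_false]
    rw [if_neg (by omega)]; omega

theorem reach_pos (γ : Gam) (c : ℕ) (hc : c ≤ 53) :
    Gr.Reachable (Sum.inl (V0.hub γ.1)) (Sum.inl (posV γ c)) := by
  induction c with
  | zero => rw [posV_zero]
  | succ c ih =>
    have h1 := ih (by omega)
    have h2 : Gr.Adj (Sum.inl (posV γ c)) (Sum.inr (γ, laneOf c (by omega))) := by
      rw [Sd_adj_inl_inr]
      left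
      rw [lf, cell_laneOf]
    have h3 : Gr.Adj (Sum.inr (γ, laneOf c (by omega))) (Sum.inl (posV γ (c + 1))) := by
      rw [Sd_adj_inr_inl]
      right
      rw [rt, cell_laneOf]
    exact (h1.trans h2.reachable).trans h3.reachable

theorem reach_hub (n : ℕ) :
    Gr.Reachable (Sum.inl (V0.hub 0)) (Sum.inl (V0.hub n)) := by
  induction n with
  | zero => exact SimpleGraph.Reachable.refl _
  | succ n ih =>
    have h0 : 0 < D n := lt_of_lt_of_le (by norm_num) (D_ge n)
    have := reach_pos ⟨n, ⟨0, h0⟩⟩ 53 le_rfl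
    rw [posV_53] at this
    exact ih.trans this

theorem reach_all (v : V0 ⊕ E0) : Gr.Reachable (Sum.inl (V0.hub 0)) v := by
  rcases v with (n | ⟨γ, r⟩) | e
  · exact reach_hub n
  · have h1 := reach_pos γ (r.1 + 1) (by have := r.2; omega)
    have h2 : posV γ (r.1 + 1) = V0.inn γ r := by
      rw [posV_inn _ _ ⟨by omega, by have := r.2; omega⟩]
      rfl
    rw [h2] at h1
    exact (reach_hub γ.1).trans h1
  · have h1 := reach_pos e.1 (cell e.2) (cell_lt _).le
    have h2 : Gr.Adj (Sum.inl (posV e.1 (cell e.2))) (Sum.inr e) := by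
      rw [Sd_adj_inl_inr]
      left
      rfl
    exact ((reach_hub e.1.1).trans h1).trans h2.reachable

theorem Gr_connected : Gr.Connected := by
  have : Nonempty (V0 ⊕ E0) := ⟨Sum.inl (V0.hub 0)⟩
  constructor
  intro a b
  exact (reach_all a).symm.trans (reach_all b)

/-- Isoperimetry from a flow with large divergence. -/
theorem iso_of_flow {V : Type} [DecidableEq V] (G : SimpleGraph V) (N : V → Finset V)
    (hN : ∀ v w, w ∈ N v ↔ G.Adj v w) (θ : V → V → ℝ) (M : ℝ)
    (h0 : ∀ v w, ¬ G.Adj v w → θ v w = 0)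
    (hanti : ∀ v w, θ v w = - θ w v) (hM : ∀ v w, θ v w ≤ M)
    (hdiv : ∀ v, ((N v).card : ℝ) ≤ ∑ w ∈ N v, θ v w) (S : Finset V) :
    ∑ v ∈ S, ((N v).card : ℝ) ≤ M * (edgeBoundary G S).ncard := by
  have h1 : ∑ v ∈ S, ∑ w ∈ S, θ v w = 0 := by
    have e1 : ∑ v ∈ S, ∑ w ∈ S, θ v w = ∑ v ∈ S, ∑ w ∈ S, θ w v := Finset.sum_comm
    have e2 : ∑ v ∈ S, ∑ w ∈ S, θ w v = - ∑ v ∈ S, ∑ w ∈ S, θ v w := by
      rw [← Finset.sum_neg_distrib]
      apply Finset.sum_congr rfl
      intro v _
      rw [← Finset.sum_neg_distrib]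
      apply Finset.sum_congr rfl
      intro w _
      exact hanti w v
    linarith
  have h2 : ∀ v, ∑ w ∈ N v, θ v w = ∑ w ∈ N v \ S, θ v w + ∑ w ∈ S, θ v w := by
    intro v
    have e1 : ∑ w ∈ S, θ v w = ∑ w ∈ N v ∩ S, θ v w := by
      symm
      apply Finset.sum_subset Finset.inter_subset_right
      intro w hw hw2
      apply h0
      intro hadj
      exact hw2 (Finset.mem_inter.mpr ⟨(hN v w).mpr hadj, hw⟩)
    rw [e1]
    have := Finset.sum_inter_add_sum_sdiff (N v) S (θ v)
    linarith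
  have h3 : ∑ v ∈ S, ∑ w ∈ N v \ S, θ v w ≤ M * (∑ v ∈ S, (N v \ S).card : ℕ) := by
    push_cast
    rw [Finset.mul_sum]
    apply Finset.sum_le_sum
    intro v _
    have := Finset.sum_le_card_nsmul (N v \ S) (θ v) M (fun w _ => hM v w)
    rw [nsmul_eq_mul] at this
    linarith
  have h4 : (∑ v ∈ S, (N v \ S).card : ℕ) = (edgeBoundary G S).ncard := by
    rw [← Finset.card_sigma]
    have h5 : (edgeBoundary G S) = ((S.sigma (fun v => N v \ S)).image
        (fun p => s(p.1, p.2)) : Finset (Sym2 V)) := by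
      ext e
      simp only [edgeBoundary, Set.mem_ofPred_eq, Finset.coe_image, Set.mem_image,
        Finset.mem_coe, Finset.mem_sigma, Finset.mem_sdiff, Sigma.exists]
      constructor
      · rintro ⟨u, hu, w, hw, hadj, rfl⟩
        exact ⟨u, w, ⟨hu, (hN u w).mpr hadj, hw⟩, rfl⟩
      · rintro ⟨u, w, ⟨hu, hadj, hw⟩, rfl⟩
        exact ⟨u, hu, w, hw, (hN u w).mp hadj, rfl⟩
    rw [h5, Set.ncard_coe_finset, Finset.card_image_of_injOn]
    rintro ⟨a, b⟩ hab ⟨c, d⟩ hcd heq
    simp only [Finset.mem_coe, Finset.mem_sigma, Finset.mem_sdiff] at hab hcd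
    simp only [Sym2.eq_iff] at heq
    rcases heq with ⟨rfl, rfl⟩ | ⟨rfl, rfl⟩
    · rfl
    · exact absurd hab.1 hcd.2.2
  calc ∑ v ∈ S, ((N v).card : ℝ) ≤ ∑ v ∈ S, ∑ w ∈ N v, θ v w :=
        Finset.sum_le_sum (fun v _ => hdiv v)
    _ = ∑ v ∈ S, ∑ w ∈ N v \ S, θ v w + ∑ v ∈ S, ∑ w ∈ S, θ v w := by
        rw [← Finset.sum_add_distrib]
        exact Finset.sum_congr rfl (fun v _ => h2 v)
    _ ≤ M * (edgeBoundary G S).ncard := by
        rw [h1, ← h4]; linarith

/-- the flow through the lanes of a cell -/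
noncomputable def yf (c : ℕ) : ℝ := if c < 42 then 191 + 4 * c else 717 + 4 * ((c : ℝ) - 42)

theorem yf_nonneg (c : ℕ) : 0 ≤ yf c := by
  rw [yf]
  split_ifs with h
  · positivity
  · have : (42 : ℝ) ≤ c := by exact_mod_cast (by omega : 42 ≤ c)
    linarith

theorem yf_le (c : ℕ) (h : c < 53) : yf c ≤ 757 := by
  rw [yf]
  split_ifs with h1
  · have : (c : ℝ) ≤ 41 := by exact_mod_cast (by omega : c ≤ 41)
    linarith
  · have : (c : ℝ) ≤ 52 := by exact_mod_cast (by omega : c ≤ 52)
    linarith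

theorem yf_step (c : ℕ) (h : c < 52) : (mult (c + 1) : ℝ) + mult c ≤
    mult (c + 1) * yf (c + 1) - mult c * (yf c + 2) := by
  rcases Nat.lt_or_ge c 41 with h1 | h1
  · rw [yf, yf, mult, mult, if_pos (by omega), if_pos (by omega), if_pos (by omega),
      if_pos (by omega)]
    push_cast; linarith
  · rcases Nat.lt_or_ge 41 c with h2 | h2
    · rw [yf, yf, mult, mult, if_neg (by omega), if_neg (by omega), if_neg (by omega),
        if_neg (by omega)]
      push_cast; linarith
    · have : c = 41 := by omega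
      subst this
      norm_num [yf, mult]

/-- the flow -/
noncomputable def theta : V0 ⊕ E0 → V0 ⊕ E0 → ℝ
  | .inl v, .inr e => if lf e = v then yf (cell e.2) else if rt e = v then
      -(yf (cell e.2) + 2) else 0
  | .inr e, .inl v => if lf e = v then -yf (cell e.2) else if rt e = v then
      (yf (cell e.2) + 2) else 0
  | _, _ => 0

def Nb : V0 ⊕ E0 → Finset (V0 ⊕ E0)
  | .inl v => (inc v).map Function.Embedding.inr
  | .inr e => {.inl (lf e), .inl (rt e)}

theorem mem_Nb (v w : V0 ⊕ E0) : w ∈ Nb v ↔ Gr.Adj v w := by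
  rcases v with v | e
  · rcases w with w | e
    · simp only [Nb, mem_map, Function.Embedding.inr_apply, reduceCtorEq, and_false,
        exists_false, false_iff]
      exact Sd_adj_inl_inl lf rt v w
    · rw [Sd_adj_inl_inr]
      simp only [Nb, mem_map, Function.Embedding.inr_apply, Sum.inr.injEq, exists_eq_right,
        mem_inc]
      constructor
      · rintro (h | h)
        · exact Or.inl h.symm
        · exact Or.inr h.symm
      · rintro (h | h)
        · exact Or.inl h.symm
        · exact Or.inr h.symm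
  · rcases w with w | e'
    · rw [Sd_adj_inr_inl]
      simp [Nb]
    · simp only [Nb, mem_insert, mem_singleton, reduceCtorEq, or_self, false_iff]
      exact Sd_adj_inr_inr lf rt e e'

theorem theta_R {v : V0} {e : E0} (he : e ∈ incR v) :
    theta (Sum.inl v) (Sum.inr e) = yf (cell e.2) := by
  have he' := (mem_incR v e).mp he
  rw [theta, if_pos he']

theorem theta_L {v : V0} {e : E0} (he : e ∈ incL v) :
    theta (Sum.inl v) (Sum.inr e) = -(yf (cell e.2) + 2) := by
  have he' := (mem_incL v e).mp he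
  have hne : lf e ≠ v := by
    rw [← he']; exact lf_ne_rt e
  rw [theta, if_neg hne, if_pos he']

theorem theta_sum (v : V0) (cR cL : ℕ) (hR : ∀ e ∈ incR v, cell e.2 = cR)
    (hL : ∀ e ∈ incL v, cell e.2 = cL) :
    ∑ w ∈ Nb (Sum.inl v), theta (Sum.inl v) w =
      (incR v).card * yf cR - (incL v).card * (yf cL + 2) := by
  rw [Nb, Finset.sum_map, inc, Finset.sum_union (disjoint_inc v)]
  have h1 : ∑ e ∈ incR v, theta (Sum.inl v) (Function.Embedding.inr e) =
      ∑ e ∈ incR v, yf cR := by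
    apply Finset.sum_congr rfl
    intro e he
    rw [Function.Embedding.inr_apply, theta_R he, hR e he]
  have h2 : ∑ e ∈ incL v, theta (Sum.inl v) (Function.Embedding.inr e) =
      ∑ e ∈ incL v, (-(yf cL + 2)) := by
    apply Finset.sum_congr rfl
    intro e he
    rw [Function.Embedding.inr_apply, theta_L he, hL e he]
  rw [h1, h2, Finset.sum_const, Finset.sum_const, nsmul_eq_mul, nsmul_eq_mul]
  ring

theorem card_Nb (v : V0) : ((Nb (Sum.inl v)).card : ℝ) = (incR v).card + (incL v).card := by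
  rw [Nb, Finset.card_map, inc, Finset.card_union_of_disjoint (disjoint_inc v)]
  push_cast
  ring

theorem cell_of_incR_hub (n : ℕ) (e : E0) (he : e ∈ incR (V0.hub n)) : cell e.2 = 0 :=
  ((lf_eq_hub e n).mp ((mem_incR (V0.hub n) e).mp he)).2

theorem cell_of_incL_hub (n : ℕ) (e : E0) (he : e ∈ incL (V0.hub n)) :
    e.1.1 + 1 = n ∧ cell e.2 = 52 :=
  (rt_eq_hub e n).mp ((mem_incL (V0.hub n) e).mp he)

theorem theta_div_hub0 : ((Nb (Sum.inl (V0.hub 0))).card : ℝ) ≤
    ∑ w ∈ Nb (Sum.inl (V0.hub 0)), theta (Sum.inl (V0.hub 0)) w := by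
  have hR : ∀ e ∈ incR (V0.hub 0), cell e.2 = 0 := fun e he => cell_of_incR_hub 0 e he
  have hL : ∀ e ∈ incL (V0.hub 0), cell e.2 = 0 := fun e he =>
    absurd (cell_of_incL_hub 0 e he).1 (Nat.succ_ne_zero _)
  rw [card_Nb, theta_sum (V0.hub 0) 0 0 hR hL]
  have h2 : (incL (V0.hub 0)).card = 0 := by rw [incL, Finset.card_empty]
  rw [h2]
  have : (0 : ℝ) ≤ ((incR (V0.hub 0)).card : ℝ) := Nat.cast_nonneg _
  have hy : yf 0 = 191 := by norm_num [yf]
  rw [hy]
  push_cast
  linarith

theorem theta_div_hub (n : ℕ) : ((Nb (Sum.inl (V0.hub (n + 1)))).card : ℝ) ≤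
    ∑ w ∈ Nb (Sum.inl (V0.hub (n + 1))), theta (Sum.inl (V0.hub (n + 1))) w := by
  have hR : ∀ e ∈ incR (V0.hub (n + 1)), cell e.2 = 0 := by
    intro e he
    rw [incR] at he
    exact ((mem_levLanes (n + 1) 0 e).mp he).2
  have hL : ∀ e ∈ incL (V0.hub (n + 1)), cell e.2 = 52 := by
    intro e he
    rw [incL] at he
    exact ((mem_levLanes n 52 e).mp he).2
  rw [card_Nb, theta_sum (V0.hub (n + 1)) 0 52 hR hL]
  have hy : yf 0 = 191 := by norm_num [yf]
  have hy2 : yf 52 = 757 := by norm_num [yf]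
  have h4 : mult 0 = 2 := by norm_num [mult]
  have h5 : mult 52 = 1 := by norm_num [mult]
  rw [incR, incL, card_levLanes _ _ (by norm_num), card_levLanes _ _ (by norm_num), D_succ,
    h4, h5, hy, hy2]
  have : (0 : ℝ) ≤ (D n : ℝ) := Nat.cast_nonneg _
  push_cast
  linarith

theorem theta_div_inn (γ : Gam) (r : Fin 52) : ((Nb (Sum.inl (V0.inn γ r))).card : ℝ) ≤
    ∑ w ∈ Nb (Sum.inl (V0.inn γ r)), theta (Sum.inl (V0.inn γ r)) w := by
  have hr := r.2
  rw [card_Nb, theta_sum (V0.inn γ r) (r.1 + 1) r.1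
    (fun e he => ((mem_gamLanes _ _ _).mp he).2) (fun e he => ((mem_gamLanes _ _ _).mp he).2)]
  rw [incR, incL, card_gamLanes _ _ (by omega), card_gamLanes _ _ (by omega)]
  have := yf_step r.1 hr
  linarith

theorem theta_div (v : V0 ⊕ E0) : ((Nb v).card : ℝ) ≤ ∑ w ∈ Nb v, theta v w := by
  rcases v with (n | ⟨γ, r⟩) | e
  · cases n with
    | zero => exact theta_div_hub0
    | succ n => exact theta_div_hub n
  · exact theta_div_inn γ r
  · have hne : (Sum.inl (lf e) : V0 ⊕ E0) ≠ Sum.inl (rt e) := by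
      intro h
      exact lf_ne_rt e (by simpa using h)
    rw [Nb, Finset.card_pair hne, Finset.sum_pair hne]
    simp only [theta, if_true, if_neg (lf_ne_rt e)]
    push_cast
    linarith

theorem theta_le (v w : V0 ⊕ E0) : theta v w ≤ 759 := by
  rcases v with v | e <;> rcases w with w | e'
  · simp [theta]
  · have h1 := yf_nonneg (cell e'.2)
    have h2 := yf_le (cell e'.2) (cell_lt _)
    simp only [theta]
    split_ifs <;> linarith
  · have h1 := yf_nonneg (cell e.2)
    have h2 := yf_le (cell e.2) (cell_lt _)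
    simp only [theta]
    split_ifs <;> linarith
  · simp [theta]

theorem theta_anti (v w : V0 ⊕ E0) : theta v w = - theta w v := by
  rcases v with v | e <;> rcases w with w | e' <;> simp only [theta] <;>
    (try split_ifs) <;> ring

theorem theta_zero (v w : V0 ⊕ E0) (h : ¬ Gr.Adj v w) : theta v w = 0 := by
  rcases v with v | e <;> rcases w with w | e'
  · simp [theta]
  · rw [Sd_adj_inl_inr] at h
    push Not at h
    simp only [theta]
    rw [if_neg (fun h1 => h.1 h1.symm), if_neg (fun h1 => h.2 h1.symm)]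
  · rw [Sd_adj_inr_inl] at h
    push Not at h
    simp only [theta]
    rw [if_neg (fun h1 => h.1 h1.symm), if_neg (fun h1 => h.2 h1.symm)]
  · simp [theta]

theorem neighborSet_eq (v : V0 ⊕ E0) : Gr.neighborSet v = (Nb v : Set (V0 ⊕ E0)) := by
  ext w
  rw [SimpleGraph.mem_neighborSet, Finset.mem_coe, mem_Nb]

theorem Gr_iso (S : Finset (V0 ⊕ E0)) :
    1 / 759 * ∑ v ∈ S, ((Gr.neighborSet v).ncard : ℝ) ≤ (edgeBoundary Gr S).ncard := by
  have h := iso_of_flow Gr Nb mem_Nb theta 759 theta_zero theta_anti theta_le theta_div S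
  have e : ∀ v, ((Gr.neighborSet v).ncard : ℝ) = ((Nb v).card : ℝ) := by
    intro v
    rw [neighborSet_eq, Set.ncard_coe_finset]
  simp only [e]
  linarith

theorem Nb_nonempty (v : V0 ⊕ E0) : (Nb v).Nonempty := by
  rcases v with v | e
  · rw [Nb, Finset.map_nonempty]
    rcases v with n | ⟨γ, r⟩
    · have h0 : 0 < D n := lt_of_lt_of_le (by norm_num) (D_ge n)
      refine ⟨(⟨n, ⟨0, h0⟩⟩, laneOf 0 (by norm_num)), ?_⟩
      rw [mem_inc]
      left
      rw [lf_eq_hub]
      exact ⟨rfl, cell_laneOf 0 (by norm_num)⟩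
    · have hr := r.2
      refine ⟨(γ, laneOf (r.1 + 1) (by omega)), ?_⟩
      rw [mem_inc]
      left
      rw [lf_eq_inn]
      exact ⟨rfl, cell_laneOf (r.1 + 1) (by omega)⟩
  · exact ⟨.inl (lf e), by simp [Nb]⟩

theorem Gr_nonAmenable : NonAmenable Gr := by
  refine ⟨1 / 759, by norm_num, ?_⟩
  intro S hS
  have h := Gr_iso S
  have hcard : (0 : ℝ) < S.card := by
    have : 0 < S.card := Finset.card_pos.mpr hS
    exact_mod_cast this
  rw [le_div_iff₀ hcard]
  refine le_trans ?_ h
  apply mul_le_mul_of_nonneg_left _ (by norm_num)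
  have h1 : (S.card : ℝ) = ∑ v ∈ S, (1 : ℝ) := by simp
  rw [h1]
  apply Finset.sum_le_sum
  intro v _
  rw [neighborSet_eq, Set.ncard_coe_finset]
  have : 1 ≤ (Nb v).card := Finset.card_pos.mpr (Nb_nonempty v)
  exact_mod_cast this

end Pool.Agent.Lib.MP_4770bc_pr
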