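import Mathlib

/-!
The local state machine of a gadget, its cost functions and the local inequalities.
A gadget is a path of 53 cells; the cells `0..41` carry two lanes, the cells `42..52` one lane.
-/

set_option linter.unusedSimpArgs false
set_option linter.unreachableTactic false
set_option linter.unusedTactic false

namespace Pool.Agent.Lib.MP_4770bc_pr

/-- resting configurations of a gadget -/
inductive Cfg : Type
  | U (i : ℕ) : Cfg
  | X (i j : ℕ) : Cfg
  | Y (i j : ℕ) : Cfg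
  deriving DecidableEq

/-- local states of the walker relative to a gadget -/
inductive LS : Type
  | rest (c : Cfg) (r : ℕ) : LS
  | UR (i m M : ℕ) : LS
  | P (i m : ℕ) : LS
  | T (i m : ℕ) : LS
  | XR (i j m M : ℕ) : LS
  | XL (i j m M : ℕ) : LS
  | YR (i j m : ℕ) : LS
  | YL (i j m : ℕ) : LS
  deriving DecidableEq

open Cfg LS

def base : LS → Cfg
  | rest c _ => c
  | UR i _ _ => U i
  | P i _ => U i
  | T i _ => U i
  | XR i j _ _ => X i j
  | XL i j _ _ => X i j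
  | YR i j _ => Y i j
  | YL i j _ => Y i j

def lpos : LS → ℕ
  | rest _ r => r
  | UR _ m _ => m
  | P _ m => m
  | T _ m => m
  | XR _ _ m _ => m
  | XL _ _ m _ => m
  | YR _ _ m => m
  | YL _ _ m => m

/-- has the tail been used? -/
def tl : Cfg → Bool
  | U _ => false
  | X _ _ => true
  | Y _ _ => true

def WFc : Cfg → Prop
  | U i => i ≤ 42
  | X i j => i ≤ j ∧ j ≤ 42
  | Y i j => i < j ∧ j ≤ 42 ∧ (i = 0 ∨ j = 42)

def okpos : Cfg → ℕ → Prop
  | U i, r => r ≤ i ∨ r = 53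
  | X i j, r => r ≤ i ∨ (j ≤ r ∧ r ≤ 53)
  | Y i j, r => r ≤ i ∨ (j ≤ r ∧ r ≤ 53)

def WF : LS → Prop
  | rest c r => WFc c ∧ okpos c r
  | UR i m M => i < m ∧ m ≤ M ∧ M ≤ 42
  | P i m => i ≤ 42 ∧ 42 < m ∧ m < 53
  | T i m => i ≤ 42 ∧ 42 < m ∧ m < 53
  | XR i j m M => i < m ∧ m ≤ M ∧ M ≤ j ∧ j ≤ 42
  | XL i j m M => i ≤ M ∧ M ≤ m ∧ m < j ∧ j ≤ 42 ∧ 1 ≤ M
  | YR i j m => i < m ∧ m < j ∧ j ≤ 42 ∧ (i = 0 ∨ j = 42)
  | YL i j m => i < m ∧ m < j ∧ j ≤ 42 ∧ (i = 0 ∨ j = 42)

/-- number of unused lanes in a cell, for a resting configuration -/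
def uc : Cfg → ℕ → ℕ
  | U i, c => if c < i then 0 else if c < 42 then 2 else 1
  | X i j, c => if i ≤ c ∧ c < j then 2 else 0
  | Y i j, c => if i ≤ c ∧ c < j then 1 else 0

/-- number of unused lanes in a cell, for a local state -/
def u : LS → ℕ → ℕ
  | rest c _, x => uc c x
  | UR i m M, c => if c < i then 0 else if c < m then 1 else if c < M then 0
      else if c < 42 then 2 else 1
  | P i m, c => if c < i then 0 else if c < 42 then 1 else if c < m then 0 else 1
  | T i m, c => if c < i then 0 else if c < 42 then 2 else if c < m then 1 else 0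
  | XR i j m M, c => if c < i then 0 else if c < m then 1 else if c < M then 0
      else if c < j then 2 else 0
  | XL i j m M, c => if c < i then 0 else if c < M then 2 else if c < m then 0
      else if c < j then 1 else 0
  | YR _ j m, c => if c < m then 0 else if c < j then 1 else 0
  | YL i _ m, c => if c < i then 0 else if c < m then 1 else 0

/-- greedy step to the left -/
def goL : LS → LS
  | rest (U i) r => T i (r - 1)
  | rest (X i j) r => if r = 1 then rest (Y 0 j) 0 else XL i j (r - 1) (r - 1)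
  | rest (Y i j) r => if r = i + 1 then rest (X 0 0) i else YL i j (r - 1)
  | UR i m M => if m = i + 1 then rest (U M) i else UR i (m - 1) M
  | P i m => P i m
  | T i m => if m = 43 then rest (X i 42) 42 else T i (m - 1)
  | XR i j m M => if m = i + 1 then rest (X M j) i else XR i j (m - 1) M
  | XL i j m _ => if m = 1 then rest (Y 0 j) 0 else XL i j (m - 1) (m - 1)
  | YR i j m => YR i j m
  | YL i j m => if m = i + 1 then rest (X 0 0) i else YL i j (m - 1)

/-- greedy step to the right -/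
def goR : LS → LS
  | rest (U i) r => if r = 42 then P i 43 else UR i (r + 1) (r + 1)
  | rest (X i j) r => XR i j (r + 1) (r + 1)
  | rest (Y i j) r => if r + 1 = j then rest (X 0 0) j else YR i j (r + 1)
  | UR i m _ => if m = 42 then P i 43 else UR i (m + 1) (m + 1)
  | P i m => if m = 52 then (if i < 42 then rest (Y i 42) 53 else rest (X 0 0) 53)
      else P i (m + 1)
  | T i m => T i m
  | XR i j m _ => XR i j (m + 1) (m + 1)
  | XL i j m M => if m + 1 = j then rest (X i M) j else XL i j (m + 1) M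
  | YR i j m => if m + 1 = j then rest (X 0 0) j else YR i j (m + 1)
  | YL i j m => YL i j m

theorem goR_spec (s : LS) (p : ℕ) (hs : lpos s = p) (h : WF s) (hp : p < 53) (hu : 0 < u s p) :
    WF (goR s) ∧ lpos (goR s) = p + 1 ∧
      ∀ c < 53, u (goR s) c = if c = p then u s c - 1 else u s c := by
  rcases s with ⟨(i | ⟨i, j⟩ | ⟨i, j⟩), r⟩ | ⟨i, m, M⟩ | ⟨i, m⟩ | ⟨i, m⟩ | ⟨i, j, m, M⟩ | ⟨i, j, m, M⟩ |
    ⟨i, j, m⟩ | ⟨i, j, m⟩
  all_goals
    simp only [lpos] at hs
    subst hs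
    simp only [WF, WFc, okpos, u, uc] at h hu
    split_ifs at hu
    all_goals try omega
    all_goals
      refine ⟨?_, ?_, ?_⟩
      · simp only [goR]
        repeat' split_ifs
        all_goals first
          | (simp only [WF, WFc, okpos]; omega)
          | omega
          | (simp only [WF, WFc, okpos, or_true, true_or, and_true]; omega)
      · simp only [goR]
        repeat' split_ifs
        all_goals first | (simp only [lpos]; omega) | rfl | omega
      · intro c hc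
        simp only [goR]
        split_ifs
        all_goals first
          | omega
          | (simp only [u, uc]; repeat' split_ifs <;> omega)

theorem goL_spec (s : LS) (p : ℕ) (hs : lpos s = p + 1) (h : WF s) (hp : p < 53)
    (hu : 0 < u s p) :
    WF (goL s) ∧ lpos (goL s) = p ∧
      ∀ c < 53, u (goL s) c = if c = p then u s c - 1 else u s c := by
  rcases s with ⟨(i | ⟨i, j⟩ | ⟨i, j⟩), r⟩ | ⟨i, m, M⟩ | ⟨i, m⟩ | ⟨i, m⟩ | ⟨i, j, m, M⟩ | ⟨i, j, m, M⟩ |
    ⟨i, j, m⟩ | ⟨i, j, m⟩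
  all_goals
    simp only [lpos] at hs
    subst hs
    simp only [WF, WFc, okpos, u, uc] at h hu
    split_ifs at hu
    all_goals try omega
    all_goals
      refine ⟨?_, ?_, ?_⟩
      · simp only [goL]
        repeat' split_ifs
        all_goals first
          | (simp only [WF, WFc, okpos]; omega)
          | omega
          | (simp only [WF, WFc, okpos, or_true, true_or, and_true]; omega)
      · simp only [goL]
        repeat' split_ifs
        all_goals first | (simp only [lpos]; omega) | rfl | omega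
      · intro c hc
        simp only [goL]
        split_ifs
        all_goals first
          | omega
          | (simp only [u, uc]; repeat' split_ifs <;> omega)

theorem srw_rest (s : LS) (p : ℕ) (hs : lpos s = p) (h : WF s)
    (hl : p = 0 ∨ u s (p - 1) = 0) (hr : 53 ≤ p ∨ u s p = 0) : s = rest (base s) p := by
  rcases s with ⟨(i | ⟨i, j⟩ | ⟨i, j⟩), r⟩ | ⟨i, m, M⟩ | ⟨i, m⟩ | ⟨i, m⟩ | ⟨i, j, m, M⟩ | ⟨i, j, m, M⟩ |
    ⟨i, j, m⟩ | ⟨i, j, m⟩
  all_goals
    simp only [lpos] at hs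
    subst hs
  all_goals try rfl
  all_goals
    exfalso
    simp only [WF, u] at h hl hr
    rcases hl with hl | hl
    · omega
    · rcases hr with hr | hr
      · omega
      · split_ifs at hl <;> first | omega | (split_ifs at hr <;> omega)

theorem okpos_succ (c : Cfg) (p : ℕ) (hc : WFc c) (h : okpos c p) (hp : p < 53)
    (hu : uc c p = 0) : okpos c (p + 1) := by
  rcases c with i | ⟨i, j⟩ | ⟨i, j⟩ <;> simp only [WFc, okpos, uc] at h hu hc ⊢ <;>
    split_ifs at hu <;> omega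

theorem okpos_pred (c : Cfg) (p : ℕ) (hc : WFc c) (h : okpos c (p + 1)) (hp : p < 53)
    (hu : uc c p = 0) : okpos c p := by
  rcases c with i | ⟨i, j⟩ | ⟨i, j⟩ <;> simp only [WFc, okpos, uc] at h hu hc ⊢ <;>
    split_ifs at hu <;> omega

theorem tl_goR (s : LS) (h : tl (base s) = true) : tl (base (goR s)) = true := by
  rcases s with ⟨(i | ⟨i, j⟩ | ⟨i, j⟩), r⟩ | ⟨i, m, M⟩ | ⟨i, m⟩ | ⟨i, m⟩ | ⟨i, j, m, M⟩ | ⟨i, j, m, M⟩ |
    ⟨i, j, m⟩ | ⟨i, j, m⟩
  all_goals
    simp only [base, tl, goR] at h ⊢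
    try ((try split_ifs) <;> simp_all [base, tl])

theorem tl_goL (s : LS) (h : tl (base s) = true) : tl (base (goL s)) = true := by
  rcases s with ⟨(i | ⟨i, j⟩ | ⟨i, j⟩), r⟩ | ⟨i, m, M⟩ | ⟨i, m⟩ | ⟨i, m⟩ | ⟨i, j, m, M⟩ | ⟨i, j, m, M⟩ |
    ⟨i, j, m⟩ | ⟨i, j, m⟩
  all_goals
    simp only [base, tl, goL] at h ⊢
    try ((try split_ifs) <;> simp_all [base, tl])

def isT : LS → Prop
  | T _ _ => True
  | _ => False

/-- states admissible when the bonus flag is off -/
def okA : LS → Prop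
  | rest (U i) _ => i = 0
  | UR i _ _ => i = 0
  | P i _ => i = 0
  | _ => True

theorem flip_goR (s : LS) (h0 : tl (base s) = false) (h1 : tl (base (goR s)) = true) :
    lpos (goR s) = 53 := by
  rcases s with ⟨(i | ⟨i, j⟩ | ⟨i, j⟩), r⟩ | ⟨i, m, M⟩ | ⟨i, m⟩ | ⟨i, m⟩ | ⟨i, j, m, M⟩ | ⟨i, j, m, M⟩ |
    ⟨i, j, m⟩ | ⟨i, j, m⟩
  all_goals
    simp only [base, tl, goR] at h0 h1 ⊢
    try ((try split_ifs at h1 ⊢) <;> simp_all [base, tl, lpos])

theorem flip_goL (s : LS) (h0 : tl (base s) = false) (h1 : tl (base (goL s)) = true) :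
    isT s := by
  rcases s with ⟨(i | ⟨i, j⟩ | ⟨i, j⟩), r⟩ | ⟨i, m, M⟩ | ⟨i, m⟩ | ⟨i, m⟩ | ⟨i, j, m, M⟩ | ⟨i, j, m, M⟩ |
    ⟨i, j, m⟩ | ⟨i, j, m⟩
  all_goals
    simp only [base, tl, goL] at h0 h1 ⊢
    try ((try split_ifs at h1 ⊢) <;> simp_all [base, tl, isT])

theorem isT_goR (s : LS) (h : isT (goR s)) : isT s := by
  rcases s with ⟨(i | ⟨i, j⟩ | ⟨i, j⟩), r⟩ | ⟨i, m, M⟩ | ⟨i, m⟩ | ⟨i, m⟩ | ⟨i, j, m, M⟩ | ⟨i, j, m, M⟩ |
    ⟨i, j, m⟩ | ⟨i, j, m⟩
  all_goals
    simp only [goR] at h ⊢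
    try ((try split_ifs at h ⊢) <;> simp_all [isT])

theorem isT_goL (s : LS) (p : ℕ) (hs : lpos s = p + 1) (hw : WF s) (hu : 0 < u s p)
    (h : isT (goL s)) : isT s ∨ lpos s = 53 := by
  rcases s with ⟨(i | ⟨i, j⟩ | ⟨i, j⟩), r⟩ | ⟨i, m, M⟩ | ⟨i, m⟩ | ⟨i, m⟩ | ⟨i, j, m, M⟩ | ⟨i, j, m, M⟩ |
    ⟨i, j, m⟩ | ⟨i, j, m⟩
  · simp only [lpos] at hs
    subst hs
    simp only [WF, WFc, okpos, u, uc] at hw hu
    right
    simp only [lpos]
    split_ifs at hu <;> omega
  all_goals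
    left
    simp only [goL] at h ⊢
    try ((try split_ifs at h ⊢) <;> simp_all [isT])

theorem okA_goR (s : LS) (p : ℕ) (hs : lpos s = p) (hw : WF s) (hp : p < 53) (hu : 0 < u s p)
    (h : okA s) : okA (goR s) := by
  rcases s with ⟨(i | ⟨i, j⟩ | ⟨i, j⟩), r⟩ | ⟨i, m, M⟩ | ⟨i, m⟩ | ⟨i, m⟩ | ⟨i, j, m, M⟩ | ⟨i, j, m, M⟩ |
    ⟨i, j, m⟩ | ⟨i, j, m⟩
  all_goals
    simp only [goR, okA] at h ⊢
    try ((try split_ifs) <;> simp_all [okA])

theorem okA_goL (s : LS) (p : ℕ) (hs : lpos s = p + 1) (hw : WF s) (hu : 0 < u s p)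
    (h : okA s ∨ lpos s = 53) (hp : 0 < p) : okA (goL s) := by
  rcases s with ⟨(i | ⟨i, j⟩ | ⟨i, j⟩), r⟩ | ⟨i, m, M⟩ | ⟨i, m⟩ | ⟨i, m⟩ | ⟨i, j, m, M⟩ | ⟨i, j, m, M⟩ |
    ⟨i, j, m⟩ | ⟨i, j, m⟩
  all_goals
    simp only [lpos] at hs h
    subst hs
    simp only [WF, WFc, okpos] at hw
    simp only [goL, okA] at h ⊢
    try ((try split_ifs) <;> simp_all [okA])
    all_goals try omega

end Pool.Agent.Lib.MP_4770bc_pr
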