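import Pool.Agent.Lib.MP_4770bc_pr.Pot

/-!
The multigraph.
-/

set_option linter.unusedSimpArgs false
set_option linter.unusedVariables false
set_option linter.unnecessarySeqFocus false

namespace Pool.Agent.Lib.MP_4770bc_pr

open Finset

/-- vertices of the multigraph: hubs and inner positions `1..52` of the gadgets -/
inductive V0 : Type
  | hub (n : ℕ) : V0
  | inn (γ : Gam) (r : Fin 52) : V0
  deriving DecidableEq

/-- lanes -/
abbrev E0 : Type := Gam × Fin 95

/-- the cell of a lane -/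
def cell (l : Fin 95) : ℕ := if l.1 < 84 then l.1 / 2 else l.1 - 42

theorem cell_lt (l : Fin 95) : cell l < 53 := by
  have := l.2
  rw [cell]; split_ifs <;> omega

/-- position `r` of gadget `γ` -/
def posV (γ : Gam) (r : ℕ) : V0 :=
  if h : 1 ≤ r ∧ r ≤ 52 then V0.inn γ ⟨r - 1, by omega⟩
  else if r = 0 then V0.hub γ.1 else V0.hub (γ.1 + 1)

theorem posV_zero (γ : Gam) : posV γ 0 = V0.hub γ.1 := by simp [posV]

theorem posV_53 (γ : Gam) : posV γ 53 = V0.hub (γ.1 + 1) := by simp [posV]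

theorem posV_inn (γ : Gam) (r : ℕ) (h : 1 ≤ r ∧ r ≤ 52) :
    posV γ r = V0.inn γ ⟨r - 1, by omega⟩ := by rw [posV, dif_pos h]

def lf (e : E0) : V0 := posV e.1 (cell e.2)

def rt (e : E0) : V0 := posV e.1 (cell e.2 + 1)

theorem lf_eq_hub (e : E0) (n : ℕ) : lf e = V0.hub n ↔ e.1.1 = n ∧ cell e.2 = 0 := by
  have := cell_lt e.2
  rw [lf, posV]
  split_ifs with h1 h2
  · simp; omega
  · simp [h2]
  · omega

theorem rt_eq_hub (e : E0) (n : ℕ) : rt e = V0.hub n ↔ e.1.1 + 1 = n ∧ cell e.2 = 52 := by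
  have := cell_lt e.2
  rw [rt, posV]
  by_cases h1 : 1 ≤ cell e.2 + 1 ∧ cell e.2 + 1 ≤ 52
  · rw [dif_pos h1]; simp; omega
  · rw [dif_neg h1, if_neg (by omega)]
    simp only [V0.hub.injEq]
    constructor
    · intro h3; exact ⟨h3, by omega⟩
    · intro h3; exact h3.1

theorem lf_eq_inn (e : E0) (γ : Gam) (r : Fin 52) :
    lf e = V0.inn γ r ↔ e.1 = γ ∧ cell e.2 = r.1 + 1 := by
  have := cell_lt e.2
  have := r.2
  rw [lf, posV]
  split_ifs with h1 h2
  · simp only [V0.inn.injEq, Fin.ext_iff]; 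
    constructor
    · rintro ⟨h3, h4⟩; exact ⟨h3, by omega⟩
    · rintro ⟨h3, h4⟩; exact ⟨h3, by omega⟩
  · simp; omega
  · simp; omega

theorem rt_eq_inn (e : E0) (γ : Gam) (r : Fin 52) :
    rt e = V0.inn γ r ↔ e.1 = γ ∧ cell e.2 = r.1 := by
  have := cell_lt e.2
  have := r.2
  rw [rt, posV]
  split_ifs with h1 h2
  · simp only [V0.inn.injEq, Fin.ext_iff]
    constructor
    · rintro ⟨h3, h4⟩; exact ⟨h3, by omega⟩
    · rintro ⟨h3, h4⟩; exact ⟨h3, by omega⟩
  · simp; omega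
  · simp; omega

theorem lf_ne_rt (e : E0) : lf e ≠ rt e := by
  intro h
  rcases hv : lf e with n | ⟨γ, r⟩
  · have h1 := (lf_eq_hub e n).mp hv
    have h2 := (rt_eq_hub e n).mp (by rw [← h, hv])
    omega
  · have h1 := (lf_eq_inn e γ r).mp hv
    have h2 := (rt_eq_inn e γ r).mp (by rw [← h, hv])
    omega

/-- all lanes of a level in a given cell -/
def levLanes (n c : ℕ) : Finset E0 :=
  ((Finset.univ : Finset (Fin (D n))) ×ˢ (Finset.univ.filter (fun l : Fin 95 => cell l = c))).map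
    ⟨fun p => ((⟨n, p.1⟩ : Gam), p.2), by
      rintro ⟨a, b⟩ ⟨c, d⟩ h
      simp only [Prod.mk.injEq, Sigma.mk.injEq, heq_eq_eq, true_and] at h
      exact Prod.ext h.1 h.2⟩

theorem mem_levLanes (n c : ℕ) (e : E0) : e ∈ levLanes n c ↔ e.1.1 = n ∧ cell e.2 = c := by
  simp only [levLanes, mem_map, mem_product, mem_univ, true_and, mem_filter,
    Function.Embedding.coeFn_mk, Prod.exists]
  constructor
  · rintro ⟨g, l, h, rfl⟩
    exact ⟨rfl, h⟩
  · rintro ⟨h1, h2⟩
    obtain ⟨⟨m, g⟩, l⟩ := e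
    simp only at h1 h2
    subst h1
    exact ⟨g, l, h2, rfl⟩

/-- all lanes of a gadget in a given cell -/
def gamLanes (γ : Gam) (c : ℕ) : Finset E0 :=
  (Finset.univ.filter (fun l : Fin 95 => cell l = c)).map
    ⟨fun l => (γ, l), fun a b h => (Prod.mk.inj h).2⟩

theorem mem_gamLanes (γ : Gam) (c : ℕ) (e : E0) : e ∈ gamLanes γ c ↔ e.1 = γ ∧ cell e.2 = c := by
  simp only [gamLanes, mem_map, mem_filter, mem_univ, true_and, Function.Embedding.coeFn_mk]
  constructor
  · rintro ⟨l, h, rfl⟩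
    exact ⟨rfl, h⟩
  · rintro ⟨h1, h2⟩
    obtain ⟨δ, l⟩ := e
    simp only at h1 h2
    subst h1
    exact ⟨l, h2, rfl⟩

def incR : V0 → Finset E0
  | V0.hub n => levLanes n 0
  | V0.inn γ r => gamLanes γ (r.1 + 1)

def incL : V0 → Finset E0
  | V0.hub 0 => ∅
  | V0.hub (n + 1) => levLanes n 52
  | V0.inn γ r => gamLanes γ r.1

theorem mem_incR (v : V0) (e : E0) : e ∈ incR v ↔ lf e = v := by
  rcases v with n | ⟨γ, r⟩
  · rw [incR, mem_levLanes, lf_eq_hub]
  · rw [incR, mem_gamLanes, lf_eq_inn]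

theorem mem_incL (v : V0) (e : E0) : e ∈ incL v ↔ rt e = v := by
  rcases v with (_ | n) | ⟨γ, r⟩
  · rw [rt_eq_hub]; simp [incL]
  · rw [incL, mem_levLanes, rt_eq_hub]; simp
  · rw [incL, mem_gamLanes, rt_eq_inn]

def inc (v : V0) : Finset E0 := incR v ∪ incL v

theorem mem_inc (v : V0) (e : E0) : e ∈ inc v ↔ lf e = v ∨ rt e = v := by
  rw [inc, mem_union, mem_incR, mem_incL]

theorem disjoint_inc (v : V0) : Disjoint (incR v) (incL v) := by
  rw [Finset.disjoint_left]
  intro e h1 h2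
  rw [mem_incR] at h1
  rw [mem_incL] at h2
  exact lf_ne_rt e (h1.trans h2.symm)

theorem card_cell (c : ℕ) (h : c < 53) :
    (Finset.univ.filter (fun l : Fin 95 => cell l = c)).card = mult c := by
  interval_cases c <;> decide

theorem card_levLanes (n c : ℕ) (h : c < 53) : (levLanes n c).card = D n * mult c := by
  rw [levLanes, card_map, card_product, card_cell c h, Finset.card_univ, Fintype.card_fin]

theorem card_gamLanes (γ : Gam) (c : ℕ) (h : c < 53) : (gamLanes γ c).card = mult c := by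
  rw [gamLanes, card_map, card_cell c h]

attribute [irreducible] levLanes gamLanes

end Pool.Agent.Lib.MP_4770bc_pr
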