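import Pool.Agent.Lib.MP_4770bc_pr.Geom

/-!
The global ghost machine.
-/

set_option linter.unusedSimpArgs false
set_option linter.unusedVariables false
set_option linter.unnecessarySeqFocus false

namespace Pool.Agent.Lib.MP_4770bc_pr

open Finset Cfg LS

/-- the walker -/
inductive Wk : Type
  | hub (n : ℕ) : Wk
  | ins (γ : Gam) (s : LS) : Wk

/-- global ghost states -/
structure GS : Type where
  cf : Gam → Cfg
  w : Wk
  used : Finset E0
  top : ℕ

def posW : Wk → V0
  | Wk.hub n => V0.hub n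
  | Wk.ins γ s => posV γ (lpos s)

/-- the local state of gadget `γ` -/
def locW (cf : Gam → Cfg) (γ : Gam) : Wk → LS
  | Wk.hub n => if n = γ.1 then rest (cf γ) 0 else rest (cf γ) 53
  | Wk.ins δ s => if δ = γ then s else rest (cf γ) 0

/-- unused lanes in the cells of gadget `γ` -/
def uW (cf : Gam → Cfg) (γ : Gam) (c : ℕ) : Wk → ℕ
  | Wk.hub _ => uc (cf γ) c
  | Wk.ins δ s => if δ = γ then u s c else uc (cf γ) c

def normW (γ : Gam) (s : LS) : Wk :=
  if lpos s = 0 then Wk.hub γ.1 else if lpos s = 53 then Wk.hub (γ.1 + 1) else Wk.ins γ s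

/-- the new local state after crossing the lane `e` -/
def resS (S : GS) (e : E0) : LS :=
  if lpos (locW S.cf e.1 S.w) = cell e.2 then
    (if e ∈ S.used then rest (S.cf e.1) (cell e.2 + 1) else goR (locW S.cf e.1 S.w))
  else
    (if e ∈ S.used then rest (S.cf e.1) (cell e.2) else goL (locW S.cf e.1 S.w))

def nxS (S : GS) (e : E0) : GS where
  cf := Function.update S.cf e.1 (base (resS S e))
  w := normW e.1 (resS S e)
  used := insert e S.used
  top := if lpos (resS S e) = 53 then max S.top (e.1.1 + 1) else S.top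

/-- number of unused lanes in a cell -/
def fcount (used : Finset E0) (γ : Gam) (c : ℕ) : ℕ := (gamLanes γ c \ used).card

structure Good (S : GS) : Prop where
  wc : ∀ γ, WFc (S.cf γ)
  ins : ∀ γ s, S.w = Wk.ins γ s → WF s ∧ base s = S.cf γ ∧ 0 < lpos s ∧ lpos s < 53 ∧
    γ.1 ≤ S.top ∧ (AA (cnt S.cf) γ.1 = true ∨ okA s) ∧ (isT s → γ.1 < S.top)
  hub : ∀ n, S.w = Wk.hub n → n ≤ S.top
  cnts : ∀ γ c, c < 53 → fcount S.used γ c = uW S.cf γ c S.w
  top1 : ∀ γ : Gam, S.top < γ.1 → S.cf γ = U 0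
  top2 : ∀ γ : Gam, S.top ≤ γ.1 → tl (S.cf γ) = false
  top3 : ∀ m < S.top, ∃ g, tl (S.cf ⟨m, g⟩) = true

/-- the walker is next to or inside gadget `γ`, in local state `s` -/
def At (S : GS) (γ : Gam) (s : LS) : Prop :=
  S.w = Wk.ins γ s ∨ (S.w = Wk.hub γ.1 ∧ s = rest (S.cf γ) 0) ∨
    (S.w = Wk.hub (γ.1 + 1) ∧ s = rest (S.cf γ) 53)

theorem okpos_zero (c : Cfg) : okpos c 0 := by
  rcases c with i | ⟨i, j⟩ | ⟨i, j⟩ <;> simp [okpos]

theorem okpos_53 (c : Cfg) (h : WFc c) : okpos c 53 := by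
  rcases c with i | ⟨i, j⟩ | ⟨i, j⟩ <;> simp only [okpos, WFc, or_true] at h ⊢ <;> omega

theorem wfc_base (s : LS) (h : WF s) : WFc (base s) := by
  rcases s with ⟨c, r⟩ | ⟨i, m, M⟩ | ⟨i, m⟩ | ⟨i, m⟩ | ⟨i, j, m, M⟩ | ⟨i, j, m, M⟩ |
    ⟨i, j, m⟩ | ⟨i, j, m⟩ <;> simp only [WF, base, WFc] at h ⊢
  · exact h.1
  all_goals omega

theorem tl_of_goR_53 (s : LS) (h : WF s) (hp : lpos s = 52) (hu : 0 < u s 52) :
    tl (base (goR s)) = true := by
  rcases s with ⟨(i | ⟨i, j⟩ | ⟨i, j⟩), r⟩ | ⟨i, m, M⟩ | ⟨i, m⟩ | ⟨i, m⟩ | ⟨i, j, m, M⟩ | ⟨i, j, m, M⟩ |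
    ⟨i, j, m⟩ | ⟨i, j, m⟩
  all_goals
    simp only [lpos] at hp
    subst hp
    simp only [WF, WFc, okpos, u, uc] at h hu
  · omega
  · split_ifs at hu <;> omega
  · split_ifs at hu <;> omega
  · omega
  · simp only [goR, if_true]
    split_ifs <;> rfl
  · split_ifs at hu <;> omega
  all_goals omega

theorem tl_of_okpos_52 (c : Cfg) (h : WFc c) (ho : okpos c 52) : tl c = true := by
  rcases c with i | ⟨i, j⟩ | ⟨i, j⟩
  · simp only [WFc, okpos] at h ho; omega
  · rfl
  · rfl

theorem okA_enter (c : Cfg) (h : 0 < uc c 0) : okA (rest c 0) := by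
  rcases c with i | ⟨i, j⟩ | ⟨i, j⟩
  · simp only [uc] at h
    simp only [okA]
    split_ifs at h <;> omega
  · trivial
  · trivial

theorem okA_rest (c : Cfg) (r r' : ℕ) (h : okA (rest c r)) : okA (rest c r') := by
  rcases c with i | ⟨i, j⟩ | ⟨i, j⟩
  · exact h
  · trivial
  · trivial

theorem okA_of_tl (c : Cfg) (r : ℕ) (h : tl c = true) : okA (rest c r) := by
  rcases c with i | ⟨i, j⟩ | ⟨i, j⟩
  · simp [tl] at h
  · trivial
  · trivial

section
variable {S : GS} {γ : Gam} {s : LS}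

theorem At.wf (h : At S γ s) (hG : Good S) : WF s := by
  rcases h with h | ⟨_, h⟩ | ⟨_, h⟩
  · exact (hG.ins _ _ h).1
  · rw [h]; exact ⟨hG.wc _, okpos_zero _⟩
  · rw [h]; exact ⟨hG.wc _, okpos_53 _ (hG.wc _)⟩

theorem At.base (h : At S γ s) (hG : Good S) : base s = S.cf γ := by
  rcases h with h | ⟨_, h⟩ | ⟨_, h⟩
  · exact (hG.ins _ _ h).2.1
  · rw [h]; rfl
  · rw [h]; rfl

theorem At.le53 (h : At S γ s) (hG : Good S) : lpos s ≤ 53 := by
  rcases h with h | ⟨_, h⟩ | ⟨_, h⟩
  · exact (hG.ins _ _ h).2.2.2.1.le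
  · rw [h]; simp [lpos]
  · rw [h]; simp [lpos]

theorem At.pos (h : At S γ s) : posW S.w = posV γ (lpos s) := by
  rcases h with h | ⟨h1, h⟩ | ⟨h1, h⟩
  · rw [h]; rfl
  · rw [h1, h, lpos, posV_zero]; rfl
  · rw [h1, h, lpos, posV_53]; rfl

theorem At.loc (h : At S γ s) : locW S.cf γ S.w = s := by
  rcases h with h | ⟨h1, h⟩ | ⟨h1, h⟩
  · rw [h, locW, if_pos rfl]
  · rw [h1, h, locW, if_pos rfl]
  · rw [h1, h, locW, if_neg (by omega)]

theorem At.lev (h : At S γ s) (hG : Good S) : γ.1 ≤ S.top := by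
  rcases h with h | ⟨h1, h⟩ | ⟨h1, h⟩
  · exact (hG.ins _ _ h).2.2.2.2.1
  · exact hG.hub _ h1
  · have := hG.hub _ h1; omega

theorem At.uW (h : At S γ s) (c : ℕ) : uW S.cf γ c S.w = u s c := by
  rcases h with h | ⟨h1, h⟩ | ⟨h1, h⟩
  · rw [h]; simp [Pool.Agent.Lib.MP_4770bc_pr.uW]
  · rw [h1, h]; rfl
  · rw [h1, h]; rfl

theorem At.count (h : At S γ s) (hG : Good S) (c : ℕ) (hc : c < 53) :
    fcount S.used γ c = u s c := by
  rw [hG.cnts γ c hc, h.uW]

theorem At.isT (h : At S γ s) (hG : Good S) (ht : isT s) : γ.1 < S.top := by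
  rcases h with h | ⟨h1, h⟩ | ⟨h1, h⟩
  · exact (hG.ins _ _ h).2.2.2.2.2.2 ht
  · rw [h] at ht; exact absurd ht (by simp [Pool.Agent.Lib.MP_4770bc_pr.isT])
  · rw [h] at ht; exact absurd ht (by simp [Pool.Agent.Lib.MP_4770bc_pr.isT])

/-- the walker's position is an end of the lane `e` iff ... -/
theorem at_right (e : E0) (hG : Good S) (h : lf e = posW S.w) :
    ∃ s, At S e.1 s ∧ lpos s = cell e.2 := by
  rcases hw : S.w with n | ⟨δ, s⟩
  · rw [hw] at h
    have h1 := (lf_eq_hub e n).mp h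
    refine ⟨rest (S.cf e.1) 0, Or.inr (Or.inl ⟨by rw [hw, h1.1], rfl⟩), ?_⟩
    rw [h1.2]; rfl
  · rw [hw] at h
    obtain ⟨_, _, h3, h4, _⟩ := hG.ins _ _ hw
    rw [posW, posV_inn δ (lpos s) ⟨by omega, by omega⟩, lf_eq_inn] at h
    obtain ⟨h1, h2⟩ := h
    refine ⟨s, Or.inl (by rw [hw, h1]), ?_⟩
    simp only at h2
    omega

theorem at_left (e : E0) (hG : Good S) (h : rt e = posW S.w) :
    ∃ s, At S e.1 s ∧ lpos s = cell e.2 + 1 := by
  rcases hw : S.w with n | ⟨δ, s⟩
  · rw [hw] at h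
    have h1 := (rt_eq_hub e n).mp h
    refine ⟨rest (S.cf e.1) 53, Or.inr (Or.inr ⟨by rw [hw, h1.1], rfl⟩), ?_⟩
    rw [h1.2]; rfl
  · rw [hw] at h
    obtain ⟨_, _, h3, h4, _⟩ := hG.ins _ _ hw
    rw [posW, posV_inn δ (lpos s) ⟨by omega, by omega⟩, rt_eq_inn] at h
    obtain ⟨h1, h2⟩ := h
    refine ⟨s, Or.inl (by rw [hw, h1]), ?_⟩
    simp only at h2
    omega

theorem At.lf_iff (h : At S γ s) (hG : Good S) (e : E0) (he : e.1 = γ) :
    lf e = posW S.w ↔ cell e.2 = lpos s := by
  constructor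
  · intro h1
    obtain ⟨s', hs', h2⟩ := at_right e hG h1
    rw [he] at hs'
    have := h.loc.symm.trans hs'.loc
    rw [this, h2]
  · intro h1
    rw [h.pos, lf, he, h1]

theorem At.rt_iff (h : At S γ s) (hG : Good S) (e : E0) (he : e.1 = γ) :
    rt e = posW S.w ↔ cell e.2 + 1 = lpos s := by
  constructor
  · intro h1
    obtain ⟨s', hs', h2⟩ := at_left e hG h1
    rw [he] at hs'
    have := h.loc.symm.trans hs'.loc
    rw [this, h2]
  · intro h1
    rw [h.pos, rt, he, h1]

theorem gamLanes_subset_R (h : At S γ s) (hG : Good S) (hp : lpos s < 53) :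
    gamLanes γ (lpos s) ⊆ inc (posW S.w) := by
  intro e he
  rw [mem_gamLanes] at he
  rw [mem_inc]
  exact Or.inl ((h.lf_iff hG e he.1).mpr he.2)

theorem gamLanes_subset_L (h : At S γ s) (hG : Good S) (hp : 0 < lpos s) :
    gamLanes γ (lpos s - 1) ⊆ inc (posW S.w) := by
  intro e he
  rw [mem_gamLanes] at he
  rw [mem_inc]
  exact Or.inr ((h.rt_iff hG e he.1).mpr (by omega))

theorem fcount_zero {used : Finset E0} {γ : Gam} {c : ℕ} (h : gamLanes γ c ⊆ used) :
    fcount used γ c = 0 := by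
  rw [fcount, Finset.card_eq_zero, Finset.sdiff_eq_empty_iff_subset]
  exact h

theorem fcount_pos {used : Finset E0} {e : E0} (h : e ∉ used) :
    0 < fcount used e.1 (cell e.2) := by
  rw [fcount, Finset.card_pos]
  exact ⟨e, Finset.mem_sdiff.mpr ⟨(mem_gamLanes _ _ _).mpr ⟨rfl, rfl⟩, h⟩⟩

theorem exhausted (h : At S γ s) (hG : Good S) (hex : inc (posW S.w) ⊆ S.used) :
    s = rest (S.cf γ) (lpos s) ∧ (lpos s < 53 → uc (S.cf γ) (lpos s) = 0) ∧
      (0 < lpos s → uc (S.cf γ) (lpos s - 1) = 0) := by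
  have h53 := h.le53 hG
  have hR : lpos s < 53 → u s (lpos s) = 0 := by
    intro hp
    rw [← h.count hG _ hp]
    exact fcount_zero ((gamLanes_subset_R h hG hp).trans hex)
  have hL : 0 < lpos s → u s (lpos s - 1) = 0 := by
    intro hp
    rw [← h.count hG _ (by omega)]
    exact fcount_zero ((gamLanes_subset_L h hG hp).trans hex)
  have hs : s = rest (S.cf γ) (lpos s) := by
    have := srw_rest s (lpos s) rfl (h.wf hG)
      (by rcases Nat.eq_zero_or_pos (lpos s) with h0 | h0
          · exact Or.inl h0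
          · exact Or.inr (hL h0))
      (by rcases Nat.lt_or_ge (lpos s) 53 with h0 | h0
          · exact Or.inr (hR h0)
          · exact Or.inl h0)
    rw [h.base hG] at this
    exact this
  refine ⟨hs, ?_, ?_⟩
  · intro hp
    have := hR hp
    rw [hs] at this
    exact this
  · intro hp
    have := hL hp
    rw [hs] at this
    exact this

/-- if hub `n` is exhausted then the bonus flag of level `n` is on, and the previous level is
full -/
theorem full_of_exhausted {n : ℕ} (hG : Good S) (hw : S.w = Wk.hub (n + 1))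
    (hex : inc (posW S.w) ⊆ S.used) : full (cnt S.cf) n = true := by
  have h : ∀ g : Fin (D n), tl (S.cf ⟨n, g⟩) = true := by
    intro g
    have hA : At S ⟨n, g⟩ (rest (S.cf ⟨n, g⟩) 53) := Or.inr (Or.inr ⟨hw, rfl⟩)
    have h1 := (exhausted hA hG hex).2.2 (by simp [lpos])
    simp only [lpos, Nat.add_one_sub_one] at h1
    rw [uc_52 _ (hG.wc _)] at h1
    by_contra hcon
    rw [if_neg hcon] at h1
    exact absurd h1 (by norm_num)
  have hc : cnt S.cf n = D n := by
    rw [cnt, Finset.filter_true_of_mem (fun g _ => h g)]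
    simp
  rw [full, hc]
  simp

theorem half_of_full {b : ℕ → ℕ} {n : ℕ} (h : full b n = true) : half b n = true := by
  simp only [full, half, decide_eq_true_eq] at h ⊢; omega

theorem AA_of_exhausted {n : ℕ} (hG : Good S) (hw : S.w = Wk.hub n)
    (hex : inc (posW S.w) ⊆ S.used) : AA (cnt S.cf) n = true := by
  cases n with
  | zero => rfl
  | succ n => exact half_of_full (full_of_exhausted hG hw hex)

/-- facts about a possible move -/
structure StepOK (S : GS) (e : E0) (s s' : LS) : Prop where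
  atS : At S e.1 s
  res : resS S e = s'
  wf : WF s'
  pos : (lf e = posW S.w ∧ lpos s = cell e.2 ∧ lpos s' = cell e.2 + 1) ∨
    (rt e = posW S.w ∧ lpos s = cell e.2 + 1 ∧ lpos s' = cell e.2)
  tlm : tl (base s) = true → tl (base s') = true
  flip : tl (base s) = false → tl (base s') = true → lpos s' = 53 ∨ isT s
  cnts : ∀ c < 53, u s' c = if c = cell e.2 ∧ e ∉ S.used then u s c - 1 else u s c
  isT' : isT s' → isT s ∨ lpos s = 53
  okA' : AA (cnt S.cf) e.1.1 = true ∨ okA s' ∨ lpos s' = 0 ∨ lpos s' = 53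
  tl53 : lpos s' = 53 → tl (base s') = true
  kind : (e ∉ S.used ∧ 0 < u s (cell e.2) ∧
      ((lf e = posW S.w ∧ s' = goR s) ∨ (rt e = posW S.w ∧ s' = goL s))) ∨
    (inc (posW S.w) ⊆ S.used ∧ s = rest (S.cf e.1) (lpos s) ∧
      ((lf e = posW S.w ∧ s' = rest (S.cf e.1) (lpos s + 1)) ∨
        (rt e = posW S.w ∧ s' = rest (S.cf e.1) (lpos s - 1))))

theorem step_ok (hG : Good S) (e : E0) (he : (e ∈ inc (posW S.w) ∧ e ∉ S.used) ∨
    (e ∈ inc (posW S.w) ∧ inc (posW S.w) ⊆ S.used)) : ∃ s, StepOK S e s (resS S e) := by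
  have hin : e ∈ inc (posW S.w) := by rcases he with h | h <;> exact h.1
  have hcell := cell_lt e.2
  rw [mem_inc] at hin
  rcases hin with hlf | hrt
  · obtain ⟨s, hs, hp⟩ := at_right e hG hlf
    refine ⟨s, ?_⟩
    have hwf := hs.wf hG
    rcases he with ⟨_, he⟩ | ⟨_, he⟩
    · -- greedy, to the right
      have hres : resS S e = goR s := by
        rw [resS, hs.loc, if_pos hp, if_neg he]
      have hu : 0 < u s (cell e.2) := by
        rw [← hs.count hG _ hcell]; exact fcount_pos he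
      obtain ⟨h1, h2, h3⟩ := goR_spec s (cell e.2) hp hwf hcell hu
      rw [hres]
      refine ⟨hs, hres, h1, Or.inl ⟨hlf, hp, h2⟩, tl_goR s, ?_, ?_, ?_, ?_, ?_, ?_⟩
      · intro h4 h5; exact Or.inl (flip_goR s h4 h5)
      · intro c hc
        rw [h3 c hc]
        simp [he]
      · intro h4; exact Or.inl (isT_goR s h4)
      · rcases hs with h | ⟨h4, h⟩ | ⟨h4, h⟩
        · rcases (hG.ins _ _ h).2.2.2.2.2.1 with h5 | h5
          · exact Or.inl h5
          · exact Or.inr (Or.inl (okA_goR s _ hp hwf hcell hu h5))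
        · have hc0 : cell e.2 = 0 := by rw [← hp, h]; rfl
          have hu' := hu
          rw [hc0, h] at hu'
          have h5 : okA s := by rw [h]; exact okA_enter _ hu'
          exact Or.inr (Or.inl (okA_goR s _ hp hwf hcell hu h5))
        · rw [h] at hp; simp only [lpos] at hp; omega
      · intro h4
        have hc52 : cell e.2 = 52 := by omega
        rw [hc52] at hu hp
        exact tl_of_goR_53 s hwf hp hu
      · exact Or.inl ⟨he, hu, Or.inl ⟨hlf, rfl⟩⟩
    · -- exhausted, to the right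
      have heu : e ∈ S.used := he (by rw [mem_inc]; exact Or.inl hlf)
      obtain ⟨h1, h2, h3⟩ := exhausted hs hG he
      have hres : resS S e = rest (S.cf e.1) (cell e.2 + 1) := by
        rw [resS, hs.loc, if_pos hp, if_pos heu]
      have hok : okpos (S.cf e.1) (cell e.2) := by
        rw [h1, hp] at hwf; exact hwf.2
      have hu0 : uc (S.cf e.1) (cell e.2) = 0 := by
        rw [← hp]; exact h2 (by omega)
      have hok' := okpos_succ _ _ (hG.wc e.1) hok hcell hu0
      rw [hres]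
      refine ⟨hs, hres, ⟨hG.wc _, hok'⟩, Or.inl ⟨hlf, hp, rfl⟩, ?_, ?_, ?_, ?_, ?_, ?_, ?_⟩
      · intro h4; rw [hs.base hG] at h4; exact h4
      · intro h4 h5
        rw [hs.base hG] at h4
        simp only [base] at h5
        rw [h4] at h5
        exact absurd h5 (by simp)
      · intro c hc
        simp only [heu, not_true_eq_false, and_false, if_false]
        rw [h1]; rfl
      · intro h4; exact absurd h4 (by simp [isT])
      · rcases hs with h | ⟨h4, h⟩ | ⟨h4, h⟩
        · rcases (hG.ins _ _ h).2.2.2.2.2.1 with h5 | h5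
          · exact Or.inl h5
          · rw [h1] at h5
            exact Or.inr (Or.inl (okA_rest _ _ _ h5))
        · exact Or.inl (AA_of_exhausted hG h4 he)
        · rw [h] at hp; simp only [lpos] at hp; omega
      · intro h4
        simp only [lpos] at h4
        have hc52 : cell e.2 = 52 := by omega
        rw [hc52] at hok
        exact tl_of_okpos_52 _ (hG.wc _) hok
      · exact Or.inr ⟨he, h1, Or.inl ⟨hlf, by rw [hp]⟩⟩
  · obtain ⟨s, hs, hp⟩ := at_left e hG hrt
    refine ⟨s, ?_⟩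
    have hwf := hs.wf hG
    have hne : ¬ (lpos s = cell e.2) := by omega
    rcases he with ⟨_, he⟩ | ⟨_, he⟩
    · -- greedy, to the left
      have hres : resS S e = goL s := by
        rw [resS, hs.loc, if_neg hne, if_neg he]
      have hu : 0 < u s (cell e.2) := by
        rw [← hs.count hG _ hcell]; exact fcount_pos he
      obtain ⟨h1, h2, h3⟩ := goL_spec s (cell e.2) hp hwf hcell hu
      rw [hres]
      refine ⟨hs, hres, h1, Or.inr ⟨hrt, hp, h2⟩, tl_goL s, ?_, ?_, ?_, ?_, ?_, ?_⟩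
      · intro h4 h5; exact Or.inr (flip_goL s h4 h5)
      · intro c hc
        rw [h3 c hc]
        simp [he]
      · intro h4; exact isT_goL s _ hp hwf hu h4
      · rcases Nat.eq_zero_or_pos (cell e.2) with h0 | h0
        · exact Or.inr (Or.inr (Or.inl (by omega)))
        · rcases hs with h | ⟨h4, h⟩ | ⟨h4, h⟩
          · rcases (hG.ins _ _ h).2.2.2.2.2.1 with h5 | h5
            · exact Or.inl h5
            · exact Or.inr (Or.inl (okA_goL s _ hp hwf hu (Or.inl h5) h0))
          · rw [h] at hp; simp only [lpos] at hp; omega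
          · exact Or.inr (Or.inl (okA_goL s _ hp hwf hu (Or.inr (by rw [h]; rfl)) h0))
      · intro h4; omega
      · exact Or.inl ⟨he, hu, Or.inr ⟨hrt, rfl⟩⟩
    · -- exhausted, to the left
      have heu : e ∈ S.used := he (by rw [mem_inc]; exact Or.inr hrt)
      obtain ⟨h1, h2, h3⟩ := exhausted hs hG he
      have hres : resS S e = rest (S.cf e.1) (cell e.2) := by
        rw [resS, hs.loc, if_neg hne, if_pos heu]
      have hok : okpos (S.cf e.1) (cell e.2 + 1) := by
        rw [h1, hp] at hwf; exact hwf.2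
      have hu0 : uc (S.cf e.1) (cell e.2) = 0 := by
        have := h3 (by omega)
        rw [hp] at this
        simpa using this
      have hok' := okpos_pred _ _ (hG.wc e.1) hok hcell hu0
      rw [hres]
      refine ⟨hs, hres, ⟨hG.wc _, hok'⟩, Or.inr ⟨hrt, hp, rfl⟩, ?_, ?_, ?_, ?_, ?_, ?_, ?_⟩
      · intro h4; rw [hs.base hG] at h4; exact h4
      · intro h4 h5
        rw [hs.base hG] at h4
        simp only [base] at h5
        rw [h4] at h5
        exact absurd h5 (by simp)
      · intro c hc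
        simp only [heu, not_true_eq_false, and_false, if_false]
        rw [h1]; rfl
      · intro h4; exact absurd h4 (by simp [isT])
      · rcases hs with h | ⟨h4, h⟩ | ⟨h4, h⟩
        · rcases (hG.ins _ _ h).2.2.2.2.2.1 with h5 | h5
          · exact Or.inl h5
          · rw [h1] at h5
            exact Or.inr (Or.inl (okA_rest _ _ _ h5))
        · rw [h] at hp; simp only [lpos] at hp; omega
        · have hc52 : cell e.2 = 52 := by
            rw [h] at hp; simp only [lpos] at hp; omega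
          rw [hc52] at hok'
          exact Or.inr (Or.inl (okA_of_tl _ _ (tl_of_okpos_52 _ (hG.wc _) hok')))
      · intro h4
        simp only [lpos] at h4
        omega
      · exact Or.inr ⟨he, h1, Or.inr ⟨hrt, by rw [hp]; rfl⟩⟩

end

end Pool.Agent.Lib.MP_4770bc_pr
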