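import Pool.Agent.Lib.MP_4770bc_pr.Global

/-!
Invariance of the ghost invariants, and the effect of moves on the potential.
-/

set_option linter.unusedSimpArgs false
set_option linter.unusedVariables false
set_option linter.unnecessarySeqFocus false

namespace Pool.Agent.Lib.MP_4770bc_pr

open Finset Cfg LS

theorem fcount_insert (used : Finset E0) (e : E0) (δ : Gam) (c : ℕ) :
    fcount (insert e used) δ c = if δ = e.1 ∧ c = cell e.2 ∧ e ∉ used then fcount used δ c - 1
      else fcount used δ c := by
  rw [fcount, fcount]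
  split_ifs with h
  · obtain ⟨h1, h2, h3⟩ := h
    have : gamLanes δ c \ insert e used = (gamLanes δ c \ used).erase e := by
      ext x
      simp only [mem_sdiff, mem_insert, mem_erase]
      tauto
    rw [this, Finset.card_erase_of_mem]
    rw [mem_sdiff, mem_gamLanes]
    exact ⟨⟨h1.symm, h2.symm⟩, h3⟩
  · have : gamLanes δ c \ insert e used = gamLanes δ c \ used := by
      ext x
      simp only [mem_sdiff, mem_insert]
      constructor
      · rintro ⟨h1, h2⟩
        exact ⟨h1, fun h3 => h2 (Or.inr h3)⟩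
      · rintro ⟨h1, h2⟩
        refine ⟨h1, ?_⟩
        rintro (h3 | h3)
        · subst h3
          rw [mem_gamLanes] at h1
          exact h ⟨h1.1.symm, h1.2.symm, h2⟩
        · exact h2 h3
    rw [this]

theorem AA_update (cf : Gam → Cfg) (γ : Gam) (c : Cfg)
    (h : tl (cf γ) = true → tl c = true) :
    AA (cnt (Function.update cf γ c)) γ.1 = AA (cnt cf) γ.1 := by
  by_cases ht : tl c = tl (cf γ)
  · rw [cnt_update_same cf γ c ht]
  · have h0 : tl (cf γ) = false := by
      by_contra hcon
      have hcon' : tl (cf γ) = true := by simpa using hcon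
      exact ht (by rw [hcon', h hcon'])
    have h1 : tl c = true := by
      by_contra hcon
      have hcon' : tl c = false := by simpa using hcon
      exact ht (by rw [hcon', h0])
    exact (cnt_update_bump cf γ c h0 h1).AA_ne (by omega)

section
variable {S : GS} {e : E0} {s s' : LS}

theorem StepOK.le53 (hG : Good S) (h : StepOK S e s s') : lpos s' ≤ 53 := by
  have := cell_lt e.2
  rcases h.pos with h1 | h1 <;> omega

theorem normW_pos (γ : Gam) (t : LS) (h : lpos t ≤ 53) : posW (normW γ t) = posV γ (lpos t) := by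
  rw [normW]
  split_ifs with h1 h2
  · rw [h1, posV_zero]; rfl
  · rw [h2, posV_53]; rfl
  · rfl

theorem pos_nx (hG : Good S) (h : StepOK S e s (resS S e)) :
    posW (nxS S e).w = if lf e = posW S.w then rt e else lf e := by
  have h1 : posW (nxS S e).w = posV e.1 (lpos (resS S e)) := normW_pos _ _ (h.le53 hG)
  rw [h1]
  rcases h.pos with ⟨h2, h3, h4⟩ | ⟨h2, h3, h4⟩
  · rw [if_pos h2, h4]; rfl
  · have : lf e ≠ posW S.w := by
      rw [← h2]; exact lf_ne_rt e
    rw [if_neg this, h4]; rfl

theorem normW_ins {γ δ : Gam} {t t' : LS} (h : normW γ t = Wk.ins δ t') :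
    γ = δ ∧ t = t' ∧ lpos t ≠ 0 ∧ lpos t ≠ 53 := by
  rw [normW] at h
  split_ifs at h with h1 h2
  · injection h with h3 h4
    exact ⟨h3, h4, h1, h2⟩

theorem normW_hub {γ : Gam} {t : LS} {n : ℕ} (h : normW γ t = Wk.hub n) :
    (lpos t = 0 ∧ n = γ.1) ∨ (lpos t = 53 ∧ n = γ.1 + 1) := by
  rw [normW] at h
  split_ifs at h with h1 h2
  · injection h with h3
    exact Or.inl ⟨h1, h3.symm⟩
  · injection h with h3
    exact Or.inr ⟨h2, h3.symm⟩

theorem uW_norm (cf : Gam → Cfg) (γ : Gam) (t : LS) (hw : WF t) (hb : base t = cf γ) (c : ℕ) :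
    uW cf γ c (normW γ t) = u t c := by
  rw [normW]
  split_ifs with h1 h2
  · rw [rest_of_pos_zero t hw h1, hb]; rfl
  · rw [rest_of_pos_53 t hw h2, hb]; rfl
  · simp [uW]

theorem uW_norm_ne (cf : Gam → Cfg) (γ δ : Gam) (t : LS) (hd : δ ≠ γ) (c : ℕ) :
    uW cf δ c (normW γ t) = uc (cf δ) c := by
  rw [normW]
  split_ifs with h1 h2
  · rfl
  · rfl
  · rw [uW, if_neg (fun h => hd h.symm)]

theorem uW_at_ne {γ δ : Gam} (hs : At S γ s) (hd : δ ≠ γ) (c : ℕ) :
    uW S.cf δ c S.w = uc (S.cf δ) c := by
  rcases hs with h | ⟨h, _⟩ | ⟨h, _⟩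
  · rw [h, uW, if_neg (fun h => hd h.symm)]
  · rw [h]; rfl
  · rw [h]; rfl

theorem top_mono (S : GS) (e : E0) : S.top ≤ (nxS S e).top := by
  show S.top ≤ if lpos (resS S e) = 53 then max S.top (e.1.1 + 1) else S.top
  split_ifs
  · exact le_max_left _ _
  · exact le_rfl

theorem good_nx (hG : Good S) (h : StepOK S e s (resS S e)) : Good (nxS S e) := by
  have hlev := h.atS.lev hG
  have htop := top_mono S e
  have hbase := h.atS.base hG
  have htlm : tl (S.cf e.1) = true → tl (base (resS S e)) = true := by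
    rw [← hbase]; exact h.tlm
  have hwfb := wfc_base _ h.wf
  have h53 := h.le53 hG
  have hcf : (nxS S e).cf = Function.update S.cf e.1 (base (resS S e)) := rfl
  have hw : (nxS S e).w = normW e.1 (resS S e) := rfl
  have hused : (nxS S e).used = insert e S.used := rfl
  have htop' : (nxS S e).top =
    if lpos (resS S e) = 53 then max S.top (e.1.1 + 1) else S.top := rfl
  constructor
  · intro δ
    rw [hcf]
    rcases eq_or_ne δ e.1 with h1 | h1
    · rw [h1, Function.update_self]; exact hwfb
    · rw [Function.update_of_ne h1]; exact hG.wc δ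
  · intro δ t ht
    rw [hw] at ht
    obtain ⟨rfl, rfl, h0, h53'⟩ := normW_ins ht
    refine ⟨h.wf, by rw [hcf, Function.update_self], by omega, by omega, by omega, ?_, ?_⟩
    · rw [hcf, AA_update _ _ _ htlm]
      rcases h.okA' with h1 | h1 | h1 | h1
      · exact Or.inl h1
      · exact Or.inr h1
      · exact absurd h1 h0
      · exact absurd h1 h53'
    · intro hT
      refine lt_of_lt_of_le ?_ htop
      rcases h.isT' hT with h1 | h1
      · exact h.atS.isT hG h1
      · rcases h.atS with h2 | ⟨h2, h3⟩ | ⟨h2, h3⟩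
        · have := (hG.ins _ _ h2).2.2.2.1; omega
        · rw [h3] at h1; simp [lpos] at h1
        · have := hG.hub _ h2; omega
  · intro n hn
    rw [hw] at hn
    rw [htop']
    rcases normW_hub hn with ⟨h1, h2⟩ | ⟨h1, h2⟩
    · rw [if_neg (by omega)]; omega
    · rw [if_pos h1, h2]; exact le_max_right _ _
  · intro δ c hc
    rw [hused, fcount_insert, hw, hcf]
    rcases eq_or_ne δ e.1 with h1 | h1
    · rw [h1, uW_norm _ _ _ h.wf (by rw [Function.update_self]), h.cnts c hc,
        h.atS.count hG c hc]
      simp only [true_and]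
    · rw [if_neg (by tauto), uW_norm_ne _ _ _ _ h1, Function.update_of_ne h1, hG.cnts δ c hc,
        uW_at_ne h.atS h1]
  · intro δ hδ
    rw [hcf, Function.update_of_ne]
    · exact hG.top1 δ (by omega)
    · rintro rfl; omega
  · intro δ hδ
    rw [hcf]
    rcases eq_or_ne δ e.1 with h1 | h1
    · rw [h1, Function.update_self]
      rw [h1] at hδ
      have h2 : tl (S.cf e.1) = false := hG.top2 _ (by omega)
      by_contra hcon
      have hcon' : tl (base (resS S e)) = true := by simpa using hcon
      rcases h.flip (by rw [hbase]; exact h2) hcon' with h3 | h3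
      · rw [htop', if_pos h3] at hδ
        have := le_max_right S.top (e.1.1 + 1)
        omega
      · have := h.atS.isT hG h3
        omega
    · rw [Function.update_of_ne h1]
      exact hG.top2 δ (by omega)
  · intro m hm
    rw [hcf]
    rcases Nat.lt_or_ge m S.top with h1 | h1
    · obtain ⟨g, hg⟩ := hG.top3 m h1
      refine ⟨g, ?_⟩
      rcases eq_or_ne (⟨m, g⟩ : Gam) e.1 with h2 | h2
      · rw [h2, Function.update_self]
        apply htlm
        rw [← h2]; exact hg
      · rw [Function.update_of_ne h2]; exact hg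
    · rw [htop'] at hm
      split_ifs at hm with h2
      · have h3 : m = e.1.1 := by
          rcases le_max_iff.mp (le_refl (max S.top (e.1.1 + 1))) with h4 | h4 <;> omega
        refine ⟨h3 ▸ e.1.2, ?_⟩
        have h4 : (⟨m, h3 ▸ e.1.2⟩ : Gam) = e.1 := by
          subst h3; rfl
        rw [h4, Function.update_self]
        exact h.tl53 h2
      · omega

/-- the potential of a global state -/
noncomputable def Psi (S : GS) : ℝ :=
  match S.w with
  | Wk.hub n => hubPot (cnt S.cf) S.cf (S.top + 1) n
  | Wk.ins γ s => Phi (cnt S.cf) S.cf (S.top + 1) γ s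

theorem Psi_at {γ : Gam} (hs : At S γ s) : Psi S = Phi (cnt S.cf) S.cf (S.top + 1) γ s := by
  rw [Psi]
  rcases hs with h | ⟨h, h2⟩ | ⟨h, h2⟩
  · rw [h]
  · rw [h, h2, Phi_zero]
  · rw [h, h2, Phi_53]

/-- normalized cost difference of a move -/
noncomputable def dcost (S : GS) (e : E0) (s s' : LS) : ℝ :=
  kap (cnt S.cf) e.1.1 * (cost (AA (cnt S.cf) e.1.1) (sg (cnt S.cf) e.1.1) s' -
    cost (AA (cnt S.cf) e.1.1) (sg (cnt S.cf) e.1.1) s)

theorem Psi_norm (cf : Gam → Cfg) (γ : Gam) (t : LS) (U : Finset E0) (T : ℕ) (hw : WF t) :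
    Psi ⟨cf, normW γ t, U, T⟩ = Phi (cnt cf) cf (T + 1) γ t := by
  rw [Psi]
  simp only [normW]
  split_ifs with h1 h2
  · rw [rest_of_pos_zero t hw h1, Phi_zero]
  · rw [rest_of_pos_53 t hw h2, Phi_53]
  · rfl

theorem Psi_nx_le (hG : Good S) (h : StepOK S e s (resS S e)) :
    Psi (nxS S e) ≤ Psi S + dcost S e s (resS S e) := by
  have h1 := place_le S.cf hG.wc (S.top + 1) e.1 (by have := h.atS.lev hG; omega) s (resS S e)
    (h.atS.base hG) h.wf (wfc_base _ h.wf) h.tlm
  rw [Psi_at h.atS, dcost]
  refine le_trans ?_ h1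
  rw [nxS, Psi_norm _ _ _ _ _ h.wf]
  split_ifs with h2
  · rcases Nat.lt_or_ge S.top (e.1.1 + 1) with h3 | h3
    · have h4 : max S.top (e.1.1 + 1) = S.top + 1 := by
        have := h.atS.lev hG
        omega
      rw [h4, Phi, Phi]
      have := S2_succ_le (cnt (Function.update S.cf e.1 (base (resS S e))))
        (Function.update S.cf e.1 (base (resS S e))) (S.top + 1) (by
          intro g
          rw [Function.update_of_ne]
          · exact hG.top1 _ (by simp)
          · intro hh
            have h5 : S.top + 1 = e.1.1 := congrArg Sigma.fst hh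
            omega)
      linarith
    · rw [max_eq_left h3]
  · exact le_rfl

/-- exact change of the potential for simple random walk steps -/
theorem Psi_nx_eq (hG : Good S) (h : StepOK S e s (resS S e))
    (hex : inc (posW S.w) ⊆ S.used) :
    Psi (nxS S e) = Psi S + dcost S e s (resS S e) := by
  have he : e ∈ S.used := by
    apply hex
    rw [mem_inc]
    rcases h.pos with h1 | h1
    · exact Or.inl h1.1
    · exact Or.inr h1.1
  have hk : base (resS S e) = S.cf e.1 := by
    rcases h.kind with ⟨h1, _⟩ | ⟨_, _, ⟨_, h1⟩ | ⟨_, h1⟩⟩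
    · exact absurd he h1
    · rw [h1]; rfl
    · rw [h1]; rfl
  have h1 := place_eq S.cf (S.top + 1) e.1 (by have := h.atS.lev hG; omega) s (resS S e)
    (h.atS.base hG) (by rw [hk])
  rw [Psi_at h.atS, dcost, ← h1]
  rw [nxS, Psi_norm _ _ _ _ _ h.wf]
  have h2 : (if lpos (resS S e) = 53 then max S.top (e.1.1 + 1) else S.top) = S.top := by
    split_ifs with h3
    · have h4 := h.tl53 h3
      rw [hk] at h4
      have : e.1.1 < S.top := by
        by_contra hcon
        rw [hG.top2 e.1 (by omega)] at h4
        exact absurd h4 (by simp)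
      exact max_eq_left (by omega)
    · rfl
  rw [h2]

end

end Pool.Agent.Lib.MP_4770bc_pr
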