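import Pool.Agent.Lib.MP_4770bc_pr.Walk

/-!
Subdivisions of loopless multigraphs, and certificates for recurrence of the greedy walk on them.
-/

open MeasureTheory ProbabilityTheory Filter Topology
open scoped ENNReal NNReal

namespace Pool.Agent.Lib.MP_4770bc_pr

/-- The subdivision (incidence graph) of the multigraph with vertex set `V₀`, edge set `E₀` and
endpoint maps `lf`, `rt`. -/
def Sd {V₀ E₀ : Type} (lf rt : E₀ → V₀) : SimpleGraph (V₀ ⊕ E₀) where
  Adj a b := match a, b with
    | .inl v, .inr e => v = lf e ∨ v = rt e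
    | .inr e, .inl v => v = lf e ∨ v = rt e
    | _, _ => False
  symm := ⟨by
    intro a b
    rcases a with v | e <;> rcases b with w | f <;> simp⟩
  loopless := ⟨by
    intro a
    rcases a with v | e <;> simp⟩

theorem Sd_adj_inl_inr {V₀ E₀ : Type} (lf rt : E₀ → V₀) (v : V₀) (e : E₀) :
    (Sd lf rt).Adj (.inl v) (.inr e) ↔ v = lf e ∨ v = rt e := Iff.rfl

theorem Sd_adj_inr_inl {V₀ E₀ : Type} (lf rt : E₀ → V₀) (v : V₀) (e : E₀) :
    (Sd lf rt).Adj (.inr e) (.inl v) ↔ v = lf e ∨ v = rt e := Iff.rfl

theorem Sd_adj_inl_inl {V₀ E₀ : Type} (lf rt : E₀ → V₀) (v w : V₀) :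
    ¬ (Sd lf rt).Adj (.inl v) (.inl w) := fun h => h

theorem Sd_adj_inr_inr {V₀ E₀ : Type} (lf rt : E₀ → V₀) (v w : E₀) :
    ¬ (Sd lf rt).Adj (.inr v) (.inr w) := fun h => h

/-- lanes allowed for the next step -/
def allowed {E₀ : Type} [DecidableEq E₀] (I U : Finset E₀) : Finset E₀ :=
  if (I \ U).Nonempty then I \ U else I

theorem allowed_subset {E₀ : Type} [DecidableEq E₀] (I U : Finset E₀) : allowed I U ⊆ I := by
  rw [allowed]
  split_ifs
  · exact Finset.sdiff_subset
  · exact Finset.Subset.refl _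

theorem mem_allowed_cases {E₀ : Type} [DecidableEq E₀] {I U : Finset E₀} {e : E₀}
    (h : e ∈ allowed I U) : (e ∈ I ∧ e ∉ U) ∨ (e ∈ I ∧ I ⊆ U) := by
  rw [allowed] at h
  split_ifs at h with h1
  · exact Or.inl (Finset.mem_sdiff.mp h)
  · right
    refine ⟨h, ?_⟩
    rw [Finset.not_nonempty_iff_eq_empty, Finset.sdiff_eq_empty_iff_subset] at h1
    exact h1

/-- A recurrence certificate for the greedy walk on the subdivision of a multigraph. -/
structure MCert {V₀ E₀ : Type} [DecidableEq V₀] [DecidableEq E₀] (lf rt : E₀ → V₀)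
    (o : V₀) where
  inc : V₀ → Finset E₀
  mem_inc : ∀ v e, e ∈ inc v ↔ lf e = v ∨ rt e = v
  ne : ∀ e, lf e ≠ rt e
  St : Type
  pos : St → V₀
  used : St → Finset E₀
  nx : St → E₀ → St
  init : St
  Good : St → Prop
  Ψ : St → ℝ
  good_init : Good init
  pos_init : pos init = o
  used_init : used init = ∅
  good_nx : ∀ S e, Good S → e ∈ allowed (inc (pos S)) (used S) → Good (nx S e)
  pos_nx : ∀ S e, Good S → e ∈ allowed (inc (pos S)) (used S) →
    pos (nx S e) = if lf e = pos S then rt e else lf e
  used_nx : ∀ S e, Good S → e ∈ allowed (inc (pos S)) (used S) →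
    used (nx S e) = insert e (used S)
  nonneg : ∀ S, Good S → 0 ≤ Ψ S
  super : ∀ S, Good S → pos S ≠ o → ∑ e ∈ allowed (inc (pos S)) (used S), Ψ (nx S e) ≤
    (allowed (inc (pos S)) (used S)).card * Ψ S
  fin : ∀ K : ℝ, ∃ n : ℕ, ∀ S, Good S → Ψ S ≤ K → (used S).card ≤ n
  osc : ∀ K : ℝ, ∃ δ : ℝ, 0 < δ ∧ ∀ S e, Good S → Ψ S ≤ K → pos S ≠ o →
    inc (pos S) ⊆ used S → e ∈ inc (pos S) → δ ≤ |Ψ (nx S e) - Ψ S|

/-- ghost states -/
inductive Gh (St E₀ : Type) : Type
  | on (S : St) : Gh St E₀
  | mid (S : St) (e : E₀) (b : Bool) : Gh St E₀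

section

variable {V₀ E₀ : Type} [DecidableEq V₀] [DecidableEq E₀] {lf rt : E₀ → V₀} {o : V₀}

/-- other endpoint -/
def oth (lf rt : E₀ → V₀) (p : V₀) (e : E₀) : V₀ := if lf e = p then rt e else lf e

/-- one step of the ghost -/
def gstep (c : MCert lf rt o) : Gh c.St E₀ → V₀ ⊕ E₀ → Gh c.St E₀
  | .on S, .inr e => .mid S e (decide (e ∉ c.used S))
  | .mid S e _, .inl w => if w = c.pos S then .on S else .on (c.nx S e)
  | .on S, .inl _ => .on S
  | .mid S e b, .inr _ => .mid S e b

/-- the ghost after a history -/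
def ghost (c : MCert lf rt o) : List (V₀ ⊕ E₀) → Gh c.St E₀
  | [] => .on c.init
  | [_] => .on c.init
  | y :: x :: h => gstep c (ghost c (x :: h)) y

/-- relation between the history and the ghost -/
def Rel (c : MCert lf rt o) (h : List (V₀ ⊕ E₀)) : Gh c.St E₀ → Prop
  | .on S => c.Good S ∧ (∃ h', h = .inl (c.pos S) :: h') ∧
      ∀ e v, (v = lf e ∨ v = rt e) →
        (s((.inl v : V₀ ⊕ E₀), (.inr e : V₀ ⊕ E₀)) ∈ crossedL h ↔ e ∈ c.used S)
  | .mid S e b => c.Good S ∧ (∃ h', h = .inr e :: h') ∧
      e ∈ allowed (c.inc (c.pos S)) (c.used S) ∧ (b = true ↔ e ∉ c.used S) ∧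
      ∀ e' v, (v = lf e' ∨ v = rt e') →
        (s((.inl v : V₀ ⊕ E₀), (.inr e' : V₀ ⊕ E₀)) ∈ crossedL h ↔
          (e' ∈ c.used S ∨ (e' = e ∧ v = c.pos S)))

theorem Sd_finite (c : MCert lf rt o) (v : V₀ ⊕ E₀) : ((Sd lf rt).neighborSet v).Finite := by
  rcases v with v | e
  · apply ((c.inc v).finite_toSet.image Sum.inr).subset
    intro y hy
    rcases y with w | e
    · exact absurd hy (Sd_adj_inl_inl lf rt v w)
    · have : v = lf e ∨ v = rt e := hy
      refine ⟨e, ?_, rfl⟩
      rw [Finset.mem_coe, c.mem_inc]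
      rcases this with h | h
      · exact Or.inl h.symm
      · exact Or.inr h.symm
  · apply (Set.toFinite {(.inl (lf e) : V₀ ⊕ E₀), .inl (rt e)}).subset
    intro y hy
    rcases y with w | e'
    · have : w = lf e ∨ w = rt e := hy
      rcases this with h | h <;> simp [h]
    · exact absurd hy (Sd_adj_inr_inr lf rt e e')

theorem CG_on (c : MCert lf rt o) {h : List (V₀ ⊕ E₀)} {S : c.St} (hr : Rel c h (.on S)) :
    CG (Sd lf rt) h = (allowed (c.inc (c.pos S)) (c.used S)).map Function.Embedding.inr := by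
  obtain ⟨hg, ⟨h', rfl⟩, hc⟩ := hr
  ext y
  rw [mem_CG _ (Sd_finite c)]
  have hfr : ∀ y, y ∈ freshL (Sd lf rt) (.inl (c.pos S) :: h') ↔
      ∃ e, y = .inr e ∧ e ∈ c.inc (c.pos S) ∧ e ∉ c.used S := by
    intro y
    rcases y with w | e
    · constructor
      · intro hy; exact absurd hy.1 (Sd_adj_inl_inl lf rt _ _)
      · rintro ⟨e, he, _⟩; cases he
    · constructor
      · intro hy
        refine ⟨e, rfl, ?_, ?_⟩
        · rw [c.mem_inc]
          have : c.pos S = lf e ∨ c.pos S = rt e := hy.1
          rcases this with h | h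
          · exact Or.inl h.symm
          · exact Or.inr h.symm
        · intro hu
          exact hy.2 ((hc e (c.pos S) hy.1).mpr hu)
      · rintro ⟨e', he', h1, h2⟩
        cases he'
        rw [c.mem_inc] at h1
        have h3 : c.pos S = lf e ∨ c.pos S = rt e := by
          rcases h1 with h | h
          · exact Or.inl h.symm
          · exact Or.inr h.symm
        exact ⟨h3, fun hcr => h2 ((hc e (c.pos S) h3).mp hcr)⟩
  have hemp : freshL (Sd lf rt) (.inl (c.pos S) :: h') = ∅ ↔
      ¬ (c.inc (c.pos S) \ c.used S).Nonempty := by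
    constructor
    · rintro h1 ⟨e, he⟩
      have : (.inr e : V₀ ⊕ E₀) ∈ freshL (Sd lf rt) (.inl (c.pos S) :: h') :=
        (hfr _).mpr ⟨e, rfl, Finset.mem_sdiff.mp he⟩
      rw [h1] at this
      exact this
    · intro h1
      rw [Set.eq_empty_iff_forall_notMem]
      intro y hy
      obtain ⟨e, _, he⟩ := (hfr y).mp hy
      exact h1 ⟨e, Finset.mem_sdiff.mpr he⟩
  simp only [choicesL, Set.mem_ofPred_eq, Finset.mem_map, Function.Embedding.inr_apply]
  rw [hfr, hemp, allowed]
  split_ifs with hne
  · constructor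
    · rintro (⟨e, rfl, he⟩ | h2)
      · exact ⟨e, Finset.mem_sdiff.mpr he, rfl⟩
      · exact absurd hne h2.1
    · rintro ⟨e, he, rfl⟩
      exact Or.inl ⟨e, rfl, Finset.mem_sdiff.mp he⟩
  · constructor
    · rintro (⟨e, rfl, he⟩ | h2)
      · exact ⟨e, he.1, rfl⟩
      · rcases y with w | e
        · exact absurd h2.2 (Sd_adj_inl_inl lf rt _ _)
        · refine ⟨e, ?_, rfl⟩
          rw [c.mem_inc]
          have : c.pos S = lf e ∨ c.pos S = rt e := h2.2
          rcases this with h | h
          · exact Or.inl h.symm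
          · exact Or.inr h.symm
    · rintro ⟨e, he, rfl⟩
      rw [c.mem_inc] at he
      refine Or.inr ⟨hne, ?_⟩
      rcases he with h | h
      · exact Or.inl h.symm
      · exact Or.inr h.symm

theorem allowed_ends (c : MCert lf rt o) {S : c.St} {e : E₀}
    (he : e ∈ allowed (c.inc (c.pos S)) (c.used S)) : c.pos S = lf e ∨ c.pos S = rt e := by
  have := allowed_subset _ _ he
  rw [c.mem_inc] at this
  rcases this with h | h
  · exact Or.inl h.symm
  · exact Or.inr h.symm

theorem oth_ne (c : MCert lf rt o) {S : c.St} {e : E₀}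
    (he : e ∈ allowed (c.inc (c.pos S)) (c.used S)) : oth lf rt (c.pos S) e ≠ c.pos S := by
  have h1 := allowed_ends c he
  have h2 := c.ne e
  rw [oth]
  split_ifs with h
  · rw [← h]; exact h2.symm
  · exact h

theorem CG_mid_true (c : MCert lf rt o) {h : List (V₀ ⊕ E₀)} {S : c.St} {e : E₀}
    (hr : Rel c h (.mid S e true)) :
    CG (Sd lf rt) h = {.inl (oth lf rt (c.pos S) e)} := by
  obtain ⟨hg, ⟨h', rfl⟩, hal, hb, hc⟩ := hr
  have hu : e ∉ c.used S := hb.mp rfl
  have hends := allowed_ends c hal
  have hne := oth_ne c hal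
  have hoth : oth lf rt (c.pos S) e = lf e ∨ oth lf rt (c.pos S) e = rt e := by
    rw [oth]; split_ifs
    · exact Or.inr rfl
    · exact Or.inl rfl
  have hfr : ∀ y, y ∈ freshL (Sd lf rt) (.inr e :: h') ↔ y = .inl (oth lf rt (c.pos S) e) := by
    intro y
    rcases y with w | e'
    · constructor
      · rintro ⟨h1, h2⟩
        have h1' : w = lf e ∨ w = rt e := h1
        rw [Sym2.eq_swap, hc e w h1'] at h2
        push Not at h2
        have hw : w ≠ c.pos S := h2.2 rfl
        congr 1
        rw [oth]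
        split_ifs with h3
        · rcases h1' with h4 | h4
          · exact absurd (h4.trans h3) hw
          · exact h4
        · rcases h1' with h4 | h4
          · exact h4
          · rcases hends with h5 | h5
            · exact absurd h5.symm h3
            · exact absurd (h4.trans h5.symm) hw
      · intro hy
        have hw : w = oth lf rt (c.pos S) e := by simpa using hy
        subst hw
        refine ⟨hoth, ?_⟩
        rw [Sym2.eq_swap, hc e _ hoth]
        push Not
        exact ⟨hu, fun _ => hne⟩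
    · constructor
      · intro hy; exact absurd hy.1 (Sd_adj_inr_inr lf rt _ _)
      · intro hy; cases hy
  ext y
  rw [mem_CG _ (Sd_finite c)]
  simp only [choicesL, Set.mem_ofPred_eq, Finset.mem_singleton]
  rw [hfr]
  constructor
  · rintro (h1 | ⟨h1, _⟩)
    · exact h1
    · exfalso
      have : (.inl (oth lf rt (c.pos S) e) : V₀ ⊕ E₀) ∈ freshL (Sd lf rt) (.inr e :: h') :=
        (hfr _).mpr rfl
      rw [h1] at this
      exact this
  · exact Or.inl

theorem CG_mid_false (c : MCert lf rt o) {h : List (V₀ ⊕ E₀)} {S : c.St} {e : E₀}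
    (hr : Rel c h (.mid S e false)) :
    CG (Sd lf rt) h = {.inl (c.pos S), .inl (oth lf rt (c.pos S) e)} := by
  obtain ⟨hg, ⟨h', rfl⟩, hal, hb, hc⟩ := hr
  have hu : e ∈ c.used S := by
    by_contra hcon
    exact absurd (hb.mpr hcon) (by simp)
  have hends := allowed_ends c hal
  have hemp : freshL (Sd lf rt) (.inr e :: h') = ∅ := by
    rw [Set.eq_empty_iff_forall_notMem]
    rintro (w | e') ⟨h1, h2⟩
    · have h1' : w = lf e ∨ w = rt e := h1
      rw [Sym2.eq_swap, hc e w h1'] at h2
      exact h2 (Or.inl hu)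
    · exact absurd h1 (Sd_adj_inr_inr lf rt _ _)
  ext y
  rw [mem_CG _ (Sd_finite c)]
  simp only [choicesL, Set.mem_ofPred_eq, Finset.mem_singleton, Finset.mem_insert, hemp]
  constructor
  · rintro (h1 | ⟨_, h1⟩)
    · exact absurd h1 (by simp)
    · rcases y with w | e'
      · have h1' : w = lf e ∨ w = rt e := h1
        simp only [Sum.inl.injEq, oth]
        split_ifs with h3
        · rcases h1' with h4 | h4
          · exact Or.inl (h4.trans h3)
          · exact Or.inr h4
        · rcases hends with h5 | h5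
          · exact absurd h5.symm h3
          · rcases h1' with h4 | h4
            · exact Or.inr h4
            · exact Or.inl (h4.trans h5.symm)
      · exact absurd h1 (Sd_adj_inr_inr lf rt _ _)
  · rintro (rfl | rfl)
    · exact Or.inr ⟨trivial, hends⟩
    · refine Or.inr ⟨trivial, ?_⟩
      show oth lf rt (c.pos S) e = lf e ∨ oth lf rt (c.pos S) e = rt e
      rw [oth]; split_ifs
      · exact Or.inr rfl
      · exact Or.inl rfl

theorem rel_step (c : MCert lf rt o) {h : List (V₀ ⊕ E₀)} {g : Gh c.St E₀} (hr : Rel c h g)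
    {y : V₀ ⊕ E₀} (hy : y ∈ CG (Sd lf rt) h) : Rel c (y :: h) (gstep c g y) := by
  rcases g with S | ⟨S, e, b⟩
  · rw [CG_on c hr] at hy
    obtain ⟨hg, ⟨h', rfl⟩, hc⟩ := hr
    simp only [Finset.mem_map, Function.Embedding.inr_apply] at hy
    obtain ⟨e, he, rfl⟩ := hy
    refine ⟨hg, ⟨_, rfl⟩, he, by simp, ?_⟩
    intro e' v hv
    rw [crossedL, Set.mem_insert_iff, hc e' v hv]
    simp only [Sym2.eq_iff, Sum.inl.injEq, Sum.inr.injEq, reduceCtorEq, false_and, or_false]
    tauto
  · cases b with
    | true =>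
      rw [CG_mid_true c hr] at hy
      obtain ⟨hg, ⟨h', rfl⟩, hal, hb, hc⟩ := hr
      rw [Finset.mem_singleton] at hy
      subst hy
      have hne := oth_ne c hal
      have hends := allowed_ends c hal
      rw [gstep, if_neg hne]
      have hpos : c.pos (c.nx S e) = oth lf rt (c.pos S) e := c.pos_nx S e hg hal
      refine ⟨c.good_nx S e hg hal, ⟨_, by rw [hpos]⟩, ?_⟩
      intro e' v hv
      rw [crossedL, Set.mem_insert_iff, hc e' v hv, c.used_nx S e hg hal, Finset.mem_insert]
      simp only [Sym2.eq_iff, Sum.inl.injEq, Sum.inr.injEq, reduceCtorEq, false_and, false_or]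
      constructor
      · rintro (h1 | h1 | h1)
        · exact Or.inl h1.2
        · exact Or.inr h1
        · exact Or.inl h1.1
      · rintro (rfl | h1)
        · rcases eq_or_ne v (c.pos S) with h2 | h2
          · exact Or.inr (Or.inr ⟨rfl, h2⟩)
          · left
            refine ⟨?_, rfl⟩
            rw [oth]
            split_ifs with h3
            · rcases hv with h4 | h4
              · exact absurd (h4.trans h3) h2
              · exact h4
            · rcases hv with h4 | h4
              · exact h4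
              · rcases hends with h5 | h5
                · exact absurd h5.symm h3
                · exact absurd (h4.trans h5.symm) h2
        · exact Or.inr (Or.inl h1)
    | false =>
      rw [CG_mid_false c hr] at hy
      obtain ⟨hg, ⟨h', rfl⟩, hal, hb, hc⟩ := hr
      have hu : e ∈ c.used S := by
        by_contra hcon
        exact absurd (hb.mpr hcon) (by simp)
      simp only [Finset.mem_insert, Finset.mem_singleton] at hy
      rcases hy with rfl | rfl
      · rw [gstep, if_pos rfl]
        refine ⟨hg, ⟨_, rfl⟩, ?_⟩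
        intro e' v hv
        rw [crossedL, Set.mem_insert_iff, hc e' v hv]
        simp only [Sym2.eq_iff, Sum.inl.injEq, Sum.inr.injEq, reduceCtorEq, false_and, false_or]
        constructor
        · rintro (h1 | h1 | h1)
          · rw [h1.2]; exact hu
          · exact h1
          · rw [h1.1]; exact hu
        · intro h1; exact Or.inr (Or.inl h1)
      · have hne := oth_ne c hal
        rw [gstep, if_neg hne]
        have hpos : c.pos (c.nx S e) = oth lf rt (c.pos S) e := c.pos_nx S e hg hal
        refine ⟨c.good_nx S e hg hal, ⟨_, by rw [hpos]⟩, ?_⟩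
        intro e' v hv
        rw [crossedL, Set.mem_insert_iff, hc e' v hv, c.used_nx S e hg hal, Finset.mem_insert]
        simp only [Sym2.eq_iff, Sum.inl.injEq, Sum.inr.injEq, reduceCtorEq, false_and, false_or]
        constructor
        · rintro (h1 | h1 | h1)
          · exact Or.inl h1.2
          · exact Or.inr h1
          · exact Or.inl h1.1
        · rintro (rfl | h1)
          · exact Or.inr (Or.inl hu)
          · exact Or.inr (Or.inl h1)

theorem rel_init (c : MCert lf rt o) : Rel c [.inl o] (ghost c [.inl o]) := by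
  refine ⟨c.good_init, ⟨[], by rw [c.pos_init]⟩, ?_⟩
  intro e v _
  rw [crossedL, c.used_init]
  simp

theorem valid_rel (c : MCert lf rt o) {h : List (V₀ ⊕ E₀)}
    (hv : Valid (CG (Sd lf rt)) (.inl o) h) : Rel c h (ghost c h) := by
  induction hv with
  | start => exact rel_init c
  | @cons h y hv hy ih =>
    rcases h with _ | ⟨x, h⟩
    · cases hv
    · exact rel_step c ih hy

/-- potential of a ghost state -/
noncomputable def gpot (c : MCert lf rt o) : Gh c.St E₀ → ℝ
  | .on S => c.Ψ S
  | .mid S e true => c.Ψ (c.nx S e)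
  | .mid S e false => (c.Ψ S + c.Ψ (c.nx S e)) / 2

theorem gpot_nonneg (c : MCert lf rt o) {h : List (V₀ ⊕ E₀)} {g : Gh c.St E₀}
    (hr : Rel c h g) : 0 ≤ gpot c g := by
  rcases g with S | ⟨S, e, b⟩
  · exact c.nonneg S hr.1
  · have h1 := c.nonneg S hr.1
    have h2 := c.nonneg _ (c.good_nx S e hr.1 hr.2.2.1)
    cases b with
    | true => exact h2
    | false => rw [gpot]; linarith

theorem gpot_super (c : MCert lf rt o) {h : List (V₀ ⊕ E₀)} {g : Gh c.St E₀}
    (hr : Rel c h g) (ho : h.head? ≠ some (.inl o)) :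
    ∑ y ∈ CG (Sd lf rt) h, gpot c (gstep c g y) ≤ (CG (Sd lf rt) h).card * gpot c g := by
  rcases g with S | ⟨S, e, b⟩
  · rw [CG_on c hr, Finset.sum_map, Finset.card_map]
    obtain ⟨hg, ⟨h', rfl⟩, hc⟩ := hr
    have hpo : c.pos S ≠ o := by
      intro hh
      apply ho
      simp [hh]
    have hsup := c.super S hg hpo
    simp only [Function.Embedding.inr_apply, gstep]
    by_cases hne : (c.inc (c.pos S) \ c.used S).Nonempty
    · refine le_trans (le_of_eq ?_) hsup
      apply Finset.sum_congr rfl
      intro e he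
      have : e ∉ c.used S := by
        rw [allowed, if_pos hne, Finset.mem_sdiff] at he
        exact he.2
      simp [this, gpot]
    · have hal : allowed (c.inc (c.pos S)) (c.used S) = c.inc (c.pos S) := by
        rw [allowed, if_neg hne]
      have hsub : c.inc (c.pos S) ⊆ c.used S := by
        rwa [Finset.not_nonempty_iff_eq_empty, Finset.sdiff_eq_empty_iff_subset] at hne
      have : ∑ e ∈ allowed (c.inc (c.pos S)) (c.used S),
          gpot c (.mid S e (decide (e ∉ c.used S))) =
          ∑ e ∈ allowed (c.inc (c.pos S)) (c.used S), (c.Ψ S + c.Ψ (c.nx S e)) / 2 := by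
        apply Finset.sum_congr rfl
        intro e he
        rw [hal] at he
        have : e ∈ c.used S := hsub he
        simp [this, gpot]
      rw [this, ← Finset.sum_div, Finset.sum_add_distrib, Finset.sum_const, nsmul_eq_mul, gpot]
      linarith
  · cases b with
    | true =>
      rw [CG_mid_true c hr]
      have hne := oth_ne c hr.2.2.1
      simp [gstep, gpot, hne]
    | false =>
      rw [CG_mid_false c hr]
      have hne := oth_ne c hr.2.2.1
      have hne' : (.inl (c.pos S) : V₀ ⊕ E₀) ≠ .inl (oth lf rt (c.pos S) e) := by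
        intro hh
        exact hne (by simpa using hh.symm)
      rw [Finset.sum_pair hne', Finset.card_pair hne']
      simp only [gstep, gpot, if_true, if_neg hne]
      push_cast
      linarith

theorem stabilize (f : ℕ → ℕ) (hm : Monotone f) (n : ℕ) (hb : ∀ t, f t ≤ n) :
    ∃ T, ∀ t ≥ T, f t = f T := by
  by_contra hcon
  push Not at hcon
  have : ∀ k, ∃ t, k ≤ f t := by
    intro k
    induction k with
    | zero => exact ⟨0, Nat.zero_le _⟩
    | succ k ih =>
      obtain ⟨t, ht⟩ := ih
      obtain ⟨t', ht', hne⟩ := hcon t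
      have := hm ht'
      exact ⟨t', by omega⟩
  obtain ⟨t, ht⟩ := this (n + 1)
  have := hb t
  omega

/-- the lanes used according to a ghost state -/
def gused (c : MCert lf rt o) : Gh c.St E₀ → Finset E₀
  | .on S => c.used S
  | .mid S _ _ => c.used S

theorem gused_mono (c : MCert lf rt o) {h : List (V₀ ⊕ E₀)} {g : Gh c.St E₀}
    (hr : Rel c h g) (y : V₀ ⊕ E₀) : gused c g ⊆ gused c (gstep c g y) := by
  rcases g with S | ⟨S, e, b⟩
  · rcases y with w | e
    · exact Finset.Subset.refl _
    · exact Finset.Subset.refl _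
  · rcases y with w | e'
    · rw [gstep]
      split_ifs
      · exact Finset.Subset.refl _
      · rw [gused, gused, c.used_nx S e hr.1 hr.2.2.1]
        exact Finset.subset_insert _ _
    · exact Finset.Subset.refl _

theorem gused_card (c : MCert lf rt o) {K : ℝ} {n : ℕ}
    (hn : ∀ S, c.Good S → c.Ψ S ≤ K → (c.used S).card ≤ n) {h : List (V₀ ⊕ E₀)} {g : Gh c.St E₀}
    (hr : Rel c h g) (hK : gpot c g ≤ K) : (gused c g).card ≤ n := by
  rcases g with S | ⟨S, e, b⟩
  · exact hn S hr.1 hK
  · have hg2 := c.good_nx S e hr.1 hr.2.2.1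
    have hsub : c.used S ⊆ c.used (c.nx S e) := by
      rw [c.used_nx S e hr.1 hr.2.2.1]; exact Finset.subset_insert _ _
    cases b with
    | true => exact le_trans (Finset.card_le_card hsub) (hn _ hg2 hK)
    | false =>
      rw [gpot] at hK
      rcases le_or_gt (c.Ψ S) K with h1 | h1
      · exact hn S hr.1 h1
      · exact le_trans (Finset.card_le_card hsub) (hn _ hg2 (by linarith))

theorem nonconv (c : MCert lf rt o) (x : ℕ → V₀ ⊕ E₀) (h0 : x 0 = .inl o)
    (hx : ∀ t, x (t + 1) ∈ CG (Sd lf rt) (hist x t)) (hT : ∃ T, ∀ t ≥ T, x t ≠ .inl o) :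
    ¬ ∃ l, Tendsto (fun t => gpot c (ghost c (hist x t))) atTop (𝓝 l) := by
  rintro ⟨l, hl⟩
  obtain ⟨T, hT⟩ := hT
  have hrel : ∀ t, Rel c (hist x t) (ghost c (hist x t)) := fun t =>
    valid_rel c (valid_hist h0 hx t)
  have hstep : ∀ t, ghost c (hist x (t + 1)) = gstep c (ghost c (hist x t)) (x (t + 1)) := by
    intro t
    obtain ⟨h, hh⟩ := hist_eq_cons x t
    rw [hist, hh, ghost]
  obtain ⟨K, hK⟩ := hl.bddAbove_range
  have hK' : ∀ t, gpot c (ghost c (hist x t)) ≤ K := fun t => hK ⟨t, rfl⟩
  obtain ⟨n, hn⟩ := c.fin K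
  obtain ⟨δ, hδ, hosc⟩ := c.osc K
  obtain ⟨T1, hT1⟩ := stabilize (fun t => (gused c (ghost c (hist x t))).card)
    (monotone_nat_of_le_succ (fun t => Finset.card_le_card (by
      rw [hstep]; exact gused_mono c (hrel t) _))) n (fun t => gused_card c hn (hrel t) (hK' t))
  have hon : ∀ t, T ≤ t → T1 ≤ t → ∀ S, ghost c (hist x t) = .on S →
      δ / 2 ≤ |gpot c (ghost c (hist x (t + 1))) - gpot c (ghost c (hist x t))| := by
    intro t ht1 ht2 S hS
    have hr := hrel t
    rw [hS] at hr
    have h1 := hx t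
    rw [CG_on c hr] at h1
    simp only [Finset.mem_map, Function.Embedding.inr_apply] at h1
    obtain ⟨e, he, hxe⟩ := h1
    have hg1 : ghost c (hist x (t + 1)) = .mid S e (decide (e ∉ c.used S)) := by
      rw [hstep, hS, ← hxe, gstep]
    have hnu : e ∈ c.used S := by
      by_contra hcon
      have hr1 := hrel (t + 1)
      rw [hg1] at hr1
      have hb : decide (e ∉ c.used S) = true := by simpa using hcon
      rw [hb] at hr1 hg1
      have h2 := hx (t + 1)
      rw [CG_mid_true c hr1, Finset.mem_singleton] at h2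
      have hg2 : ghost c (hist x (t + 2)) = .on (c.nx S e) := by
        rw [hstep (t + 1), hg1, h2, gstep, if_neg (oth_ne c he)]
      have e1 := hT1 t ht2
      have e2 := hT1 (t + 2) (by omega)
      simp only [hS, hg2, gused] at e1 e2
      rw [c.used_nx S e hr.1 he, Finset.card_insert_of_notMem hcon] at e2
      omega
    have hsub : c.inc (c.pos S) ⊆ c.used S := by
      rcases mem_allowed_cases he with h3 | h3
      · exact absurd hnu h3.2
      · exact h3.2
    have hin : e ∈ c.inc (c.pos S) := allowed_subset _ _ he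
    have hpo : c.pos S ≠ o := by
      intro hh
      obtain ⟨h', hh'⟩ := hr.2.1
      obtain ⟨h'', hh''⟩ := hist_eq_cons x t
      rw [hh''] at hh'
      have : x t = .inl (c.pos S) := by simpa using (List.cons.inj hh').1
      exact hT t ht1 (by rw [this, hh])
    have hb : decide (e ∉ c.used S) = false := by simpa using hnu
    have hKS : c.Ψ S ≤ K := by
      have := hK' t
      rw [hS] at this
      exact this
    have h4 := hosc S e hr.1 hKS hpo hsub hin
    rw [hg1, hS, hb, gpot, gpot]
    have : (c.Ψ S + c.Ψ (c.nx S e)) / 2 - c.Ψ S = (c.Ψ (c.nx S e) - c.Ψ S) / 2 := by ring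
    rw [this, abs_div, abs_of_pos (by norm_num : (0 : ℝ) < 2)]
    linarith
  have hex : ∀ t, T ≤ t → T1 ≤ t → ∃ t' ≥ t,
      δ / 2 ≤ |gpot c (ghost c (hist x (t' + 1))) - gpot c (ghost c (hist x t'))| := by
    intro t ht1 ht2
    rcases hg : ghost c (hist x t) with S | ⟨S, e, b⟩
    · exact ⟨t, le_rfl, hon t ht1 ht2 S hg⟩
    · have hr := hrel t
      rw [hg] at hr
      have h1 := hx t
      have : ∃ S', ghost c (hist x (t + 1)) = .on S' := by
        rw [hstep, hg]
        cases b with
        | true =>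
          rw [CG_mid_true c hr, Finset.mem_singleton] at h1
          rw [h1, gstep]
          split_ifs
          · exact ⟨_, rfl⟩
          · exact ⟨_, rfl⟩
        | false =>
          rw [CG_mid_false c hr, Finset.mem_insert, Finset.mem_singleton] at h1
          rcases h1 with h1 | h1 <;> rw [h1, gstep]
          · split_ifs
            · exact ⟨_, rfl⟩
            · exact ⟨_, rfl⟩
          · split_ifs
            · exact ⟨_, rfl⟩
            · exact ⟨_, rfl⟩
      obtain ⟨S', hS'⟩ := this
      exact ⟨t + 1, by omega, hon (t + 1) (by omega) (by omega) S' hS'⟩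
  have hdiff : Tendsto (fun t => gpot c (ghost c (hist x (t + 1))) -
      gpot c (ghost c (hist x t))) atTop (𝓝 (l - l)) :=
    ((tendsto_add_atTop_iff_nat 1).mpr hl).sub hl
  rw [sub_self] at hdiff
  have := (Metric.tendsto_atTop.mp hdiff) (δ / 2) (by linarith)
  obtain ⟨N, hN⟩ := this
  obtain ⟨t', ht', h5⟩ := hex (max N (max T T1)) (by omega) (by omega)
  have h6 := hN t' (by omega)
  rw [Real.dist_eq, sub_zero] at h6
  linarith

/-- A certificate implies that the greedy walk started at `o` returns to `o` infinitely often. -/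
theorem recurrent_of_cert [Countable V₀] [Countable E₀] (c : MCert lf rt o)
    {Ω : Type} [MeasurableSpace Ω] {P : Measure Ω} {X : ℕ → Ω → V₀ ⊕ E₀}
    (hG : IsGRW (Sd lf rt) (.inl o) P X) : ∀ᵐ ω ∂P, ∀ T, ∃ t ≥ T, X t ω = .inl o := by
  have := hG.prob
  apply infinitely_often (.inl o) (isProc_of_isGRW (Sd_finite c) hG) hG.start
    (fun h => gpot c (ghost c h))
  · intro h hv
    exact gpot_nonneg c (valid_rel c hv)
  · intro h hv ho
    have hr := valid_rel c hv
    refine le_trans (le_of_eq ?_) (gpot_super c hr ho)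
    apply Finset.sum_congr rfl
    intro y hy
    rcases h with _ | ⟨x, h⟩
    · cases hv
    · rfl
  · intro x h0 hx hT
    exact nonconv c x h0 hx hT

end

end Pool.Agent.Lib.MP_4770bc_pr
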