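import Pool.Agent.Lib.MP_4770bc_pr.Global2
import Pool.Agent.Lib.MP_4770bc_pr.Subdiv

/-!
The recurrence certificate.
-/

set_option linter.unusedSimpArgs false
set_option linter.unusedVariables false
set_option linter.unnecessarySeqFocus false

namespace Pool.Agent.Lib.MP_4770bc_pr

open Finset Cfg LS

section
variable {S : GS} {e : E0} {s s' : LS}

theorem Psi_lower (hG : Good S) :
    1 / 2 * ∑ k ∈ range (S.top + 1), kap (cnt S.cf) k * (cnt S.cf k : ℝ) ≤ Psi S := by
  have h1 := lower (cnt S.cf) S.cf hG.wc (S.top + 1) 0 (fun k _ => rfl)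
  simp only [Nat.zero_add, AA, if_true, kap] at h1
  have hD : ((D 0 : ℕ) : ℝ) = 64 := by norm_num [D]
  rw [hD] at h1
  have h3 : S2 (cnt S.cf) S.cf (S.top + 1) =
    ∑ k ∈ range (S.top + 1), kap (cnt S.cf) k * W (cnt S.cf) S.cf k := rfl
  rcases hw : S.w with n | ⟨γ, s⟩
  · have h4 := S1_nonneg (cnt S.cf) n
    rw [Psi, hw]
    simp only [hubPot]
    linarith
  · have h4 := S1_nonneg (cnt S.cf) γ.1
    rw [Psi, hw]
    simp only [Phi]
    have h5 := cost_lower (AA (cnt S.cf) γ.1) (sg (cnt S.cf) γ.1) s (hG.ins _ _ hw).1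
      (by have := sg_ge (cnt S.cf) γ.1; linarith)
    have h6 := kap_pos (cnt S.cf) γ.1
    have h7 := kap_le_one (cnt S.cf) γ.1
    nlinarith

theorem Psi_nonneg (hG : Good S) : 0 ≤ Psi S := by
  refine le_trans ?_ (Psi_lower hG)
  have : 0 ≤ ∑ k ∈ range (S.top + 1), kap (cnt S.cf) k * (cnt S.cf k : ℝ) := by
    apply Finset.sum_nonneg
    intro k _
    have := kap_pos (cnt S.cf) k
    positivity
  linarith

theorem top_bound (K : ℝ) : ∃ M : ℕ, ∀ S, Good S → Psi S ≤ K → S.top ≤ M := by
  obtain ⟨K', hK'⟩ := exists_nat_gt (2 * K)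
  refine ⟨K' * 2 ^ K', ?_⟩
  intro S hG hS
  by_contra hcon
  push Not at hcon
  have h1 : ∀ k < S.top, 1 ≤ cnt S.cf k := by
    intro k hk
    obtain ⟨g, hg⟩ := hG.top3 k hk
    rw [cnt, Nat.succ_le_iff, Finset.card_pos]
    exact ⟨g, by simp [hg]⟩
  have h2 := growth_bound (cnt S.cf) S.top K' h1 hcon.le
  have h3 := Psi_lower hG
  rw [sum_range_succ] at h3
  have h4 := kap_pos (cnt S.cf) S.top
  have h5 : 0 ≤ kap (cnt S.cf) S.top * (cnt S.cf S.top : ℝ) := by positivity
  linarith

theorem used_level (hG : Good S) (he : e ∈ S.used) : e.1.1 ≤ S.top := by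
  by_contra hcon
  have h1 := hG.top1 e.1 (by omega)
  have hc := cell_lt e.2
  have h2 := hG.cnts e.1 (cell e.2) hc
  have h3 : uW S.cf e.1 (cell e.2) S.w = mult (cell e.2) := by
    have h4 : uc (U 0) (cell e.2) = mult (cell e.2) := by
      simp only [uc, mult]
      rw [if_neg (by omega)]
    rcases hw : S.w with n | ⟨γ, s⟩
    · simp only [uW, h1, h4]
    · simp only [uW]
      rw [if_neg, h1, h4]
      intro h5
      have := (hG.ins _ _ hw).2.2.2.2.1
      rw [h5] at this
      omega
  rw [h3, fcount] at h2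
  have h4 : (gamLanes e.1 (cell e.2) \ S.used).card < (gamLanes e.1 (cell e.2)).card := by
    apply Finset.card_lt_card
    rw [Finset.ssubset_iff_of_subset Finset.sdiff_subset]
    exact ⟨e, (mem_gamLanes _ _ _).mpr ⟨rfl, rfl⟩, fun h => (Finset.mem_sdiff.mp h).2 he⟩
  rw [card_gamLanes _ _ hc] at h4
  omega

theorem fin_bound (K : ℝ) : ∃ n : ℕ, ∀ S, Good S → Psi S ≤ K → S.used.card ≤ n := by
  obtain ⟨M, hM⟩ := top_bound K
  refine ⟨((range (M + 1)).biUnion (fun n => (range 53).biUnion (fun c => levLanes n c))).card, ?_⟩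
  intro S hG hS
  apply Finset.card_le_card
  intro e he
  have h1 := used_level hG he
  have h2 := hM S hG hS
  simp only [mem_biUnion, mem_range]
  exact ⟨e.1.1, by omega, cell e.2, cell_lt _, (mem_levLanes _ _ _).mpr ⟨rfl, rfl⟩⟩

theorem sg_lower_half (b : ℕ → ℕ) (n : ℕ) : (0 : ℝ) ≤ sg b n := by
  have := sg_ge b n
  linarith

theorem osc_bound (K : ℝ) : ∃ δ : ℝ, 0 < δ ∧ ∀ S e, Good S → Psi S ≤ K →
    inc (posW S.w) ⊆ S.used → e ∈ inc (posW S.w) → δ ≤ |Psi (nxS S e) - Psi S| := by
  obtain ⟨M, hM⟩ := top_bound K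
  refine ⟨(1 / 2) ^ M * (1 / 2), by positivity, ?_⟩
  intro S e hG hS hex he
  obtain ⟨s, hs⟩ := step_ok hG e (Or.inr ⟨he, hex⟩)
  rw [Psi_nx_eq hG hs hex, add_sub_cancel_left, dcost, abs_mul, abs_of_pos (kap_pos _ _)]
  have hlev := hs.atS.lev hG
  have hM' := hM S hG hS
  have h1 : (1 / 2 : ℝ) ^ M ≤ kap (cnt S.cf) e.1.1 :=
    le_trans (pow_le_pow_of_le_one (by norm_num) (by norm_num) (by omega)) (kap_ge _ _)
  apply mul_le_mul h1 _ (by norm_num) (kap_pos _ _).le
  have heu : e ∈ S.used := hex he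
  have hwf := hs.atS.wf hG
  have hwf' := hs.wf
  rcases hs.kind with ⟨h2, _⟩ | ⟨_, h3, h4⟩
  · exact absurd heu h2
  · have hc := cell_lt e.2
    rcases hs.pos with ⟨hp1, hp2, hp3⟩ | ⟨hp1, hp2, hp3⟩
    · have h5 : resS S e = rest (S.cf e.1) (lpos s + 1) := by
        rcases h4 with ⟨_, h5⟩ | ⟨h5, _⟩
        · exact h5
        · exact absurd (hp1.trans h5.symm) (lf_ne_rt e)
      rw [h5] at hwf' ⊢
      rw [h3] at hwf ⊢
      simp only [lpos] at hwf' ⊢
      have := cost_step_lower (AA (cnt S.cf) e.1.1) (sg (cnt S.cf) e.1.1) (S.cf e.1) (lpos s)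
        (hG.wc _) hwf.2 hwf'.2 (by omega) (sg_ge _ _)
      exact le_trans this (le_abs_self _)
    · have h5 : resS S e = rest (S.cf e.1) (lpos s - 1) := by
        rcases h4 with ⟨h5, _⟩ | ⟨_, h5⟩
        · exact absurd (h5.trans hp1.symm) (lf_ne_rt e)
        · exact h5
      obtain ⟨q, hq⟩ : ∃ q, lpos s = q + 1 := ⟨cell e.2, hp2⟩
      have h5' : resS S e = rest (S.cf e.1) q := by rw [h5, hq]; rfl
      have h3' : s = rest (S.cf e.1) (q + 1) := by rw [← hq]; exact h3
      rw [h5'] at hwf' ⊢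
      rw [h3'] at hwf ⊢
      have := cost_step_lower (AA (cnt S.cf) e.1.1) (sg (cnt S.cf) e.1.1) (S.cf e.1) q
        (hG.wc _) hwf'.2 hwf.2 (by omega) (sg_ge _ _)
      rw [abs_sub_comm]
      exact le_trans this (le_abs_self _)

theorem tl_of_full {cf : Gam → Cfg} {n : ℕ} (h : full (cnt cf) n = true) (g : Fin (D n)) :
    tl (cf ⟨n, g⟩) = true := by
  have h1 : D n ≤ cnt cf n := by simpa [full] using h
  rw [cnt] at h1
  have h2 : (Finset.univ.filter (fun g : Fin (D n) => tl (cf ⟨n, g⟩) = true)) = Finset.univ := by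
    apply Finset.eq_univ_of_card
    rw [Fintype.card_fin]
    exact le_antisymm (le_trans (Finset.card_filter_le _ _) (by simp)) h1
  have h3 := Finset.mem_univ g
  rw [← h2] at h3
  simpa using h3

theorem reg_at {γ : Gam} (hs : At S γ s) (hG : Good S)
    (hA : AA (cnt S.cf) γ.1 = true ∨ okA s) : Reg (AA (cnt S.cf) γ.1) (sg (cnt S.cf) γ.1) s := by
  refine ⟨?_, hA⟩
  rw [sg]
  split_ifs with h
  · right
    refine ⟨rfl, ?_⟩
    rw [hs.base hG]
    exact tl_of_full h γ.2
  · exact Or.inl rfl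

theorem sum_greedy (v : V0) (U : Finset E0) (f : E0 → ℝ)
    (h : (inc v \ U).Nonempty) :
    ∑ e ∈ allowed (inc v) U, f e = ∑ e ∈ incR v \ U, f e + ∑ e ∈ incL v \ U, f e := by
  rw [allowed, if_pos h, inc, Finset.union_sdiff_distrib, Finset.sum_union]
  exact Finset.disjoint_of_subset_left Finset.sdiff_subset
    (Finset.disjoint_of_subset_right Finset.sdiff_subset (disjoint_inc v))

theorem sum_srw (v : V0) (U : Finset E0) (f : E0 → ℝ)
    (h : ¬ (inc v \ U).Nonempty) :
    ∑ e ∈ allowed (inc v) U, f e = ∑ e ∈ incR v, f e + ∑ e ∈ incL v, f e := by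
  rw [allowed, if_neg h, inc, Finset.sum_union (disjoint_inc v)]

/-- the increments along the allowed lanes -/
noncomputable def inc1 (S : GS) (e : E0) : ℝ := dcost S e (locW S.cf e.1 S.w) (resS S e)

theorem super_of_inc (hG : Good S)
    (h : ∑ e ∈ allowed (inc (posW S.w)) S.used, inc1 S e ≤ 0) :
    ∑ e ∈ allowed (inc (posW S.w)) S.used, Psi (nxS S e) ≤
      (allowed (inc (posW S.w)) S.used).card * Psi S := by
  calc ∑ e ∈ allowed (inc (posW S.w)) S.used, Psi (nxS S e)
      ≤ ∑ e ∈ allowed (inc (posW S.w)) S.used, (Psi S + inc1 S e) := by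
        apply Finset.sum_le_sum
        intro e he
        obtain ⟨s, hs⟩ := step_ok hG e (mem_allowed_cases he)
        have := Psi_nx_le hG hs
        rw [inc1, hs.atS.loc]
        exact this
    _ = (allowed (inc (posW S.w)) S.used).card * Psi S +
        ∑ e ∈ allowed (inc (posW S.w)) S.used, inc1 S e := by
        rw [Finset.sum_add_distrib, Finset.sum_const, nsmul_eq_mul]
    _ ≤ _ := by linarith

/-- the supermartingale property at inner positions -/
theorem super_ins (hG : Good S) {γ : Gam} {s : LS} (hw : S.w = Wk.ins γ s) :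
    ∑ e ∈ allowed (inc (posW S.w)) S.used, inc1 S e ≤ 0 := by
  obtain ⟨h1, h2, h3, h4, h5, h6, h7⟩ := hG.ins _ _ hw
  have hat : At S γ s := Or.inl hw
  obtain ⟨q, hq⟩ : ∃ q, lpos s = q + 1 := ⟨lpos s - 1, by omega⟩
  have hpos : posW S.w = V0.inn γ ⟨q, by omega⟩ := by
    rw [hw, posW, posV_inn γ (lpos s) ⟨by omega, by omega⟩]
    congr 1
    simp only [Fin.mk.injEq]
    omega
  have hR : incR (posW S.w) = gamLanes γ (q + 1) := by rw [hpos]; rfl
  have hL : incL (posW S.w) = gamLanes γ q := by rw [hpos]; rfl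
  have hk := kap_pos (cnt S.cf) γ.1
  have hloc : locW S.cf γ S.w = s := hat.loc
  by_cases hne : (inc (posW S.w) \ S.used).Nonempty
  · rw [sum_greedy _ _ _ hne, hR, hL]
    have e1 : ∀ e ∈ gamLanes γ (q + 1) \ S.used, inc1 S e = kap (cnt S.cf) γ.1 *
        (cost (AA (cnt S.cf) γ.1) (sg (cnt S.cf) γ.1) (goR s) -
          cost (AA (cnt S.cf) γ.1) (sg (cnt S.cf) γ.1) s) := by
      intro e he
      rw [mem_sdiff, mem_gamLanes] at he
      obtain ⟨⟨rfl, hc⟩, hu⟩ := he
      rw [inc1, resS, hloc, if_pos (by omega), if_neg hu, dcost]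
    have e2 : ∀ e ∈ gamLanes γ q \ S.used, inc1 S e = kap (cnt S.cf) γ.1 *
        (cost (AA (cnt S.cf) γ.1) (sg (cnt S.cf) γ.1) (goL s) -
          cost (AA (cnt S.cf) γ.1) (sg (cnt S.cf) γ.1) s) := by
      intro e he
      rw [mem_sdiff, mem_gamLanes] at he
      obtain ⟨⟨rfl, hc⟩, hu⟩ := he
      rw [inc1, resS, hloc, if_neg (by omega), if_neg hu, dcost]
    rw [Finset.sum_congr rfl e1, Finset.sum_congr rfl e2, Finset.sum_const, Finset.sum_const,
      nsmul_eq_mul, nsmul_eq_mul]
    have c1 : (gamLanes γ (q + 1) \ S.used).card = u s (q + 1) :=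
      hat.count hG (q + 1) (by omega)
    have c2 : (gamLanes γ q \ S.used).card = u s q := hat.count hG q (by omega)
    rw [c1, c2]
    have hineq := ineq_all _ _ s q hq (by omega) h1 (reg_at hat hG h6)
    rw [Ineq] at hineq
    have := mul_le_mul_of_nonneg_left hineq hk.le
    linarith
  · rw [sum_srw _ _ _ hne, hR, hL]
    have hex : inc (posW S.w) ⊆ S.used := by
      rwa [Finset.not_nonempty_iff_eq_empty, Finset.sdiff_eq_empty_iff_subset] at hne
    obtain ⟨hs, hur, hul⟩ := exhausted hat hG hex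
    rw [hq] at hs hur hul
    have hu1 : ∀ e ∈ gamLanes γ (q + 1), e ∈ S.used := by
      intro e he
      apply hex
      rw [inc, hR]
      exact Finset.mem_union_left _ he
    have hu2 : ∀ e ∈ gamLanes γ q, e ∈ S.used := by
      intro e he
      apply hex
      rw [inc, hL]
      exact Finset.mem_union_right _ he
    have e1 : ∀ e ∈ gamLanes γ (q + 1), inc1 S e = kap (cnt S.cf) γ.1 *
        (cost (AA (cnt S.cf) γ.1) (sg (cnt S.cf) γ.1) (rest (S.cf γ) (q + 2)) -
          cost (AA (cnt S.cf) γ.1) (sg (cnt S.cf) γ.1) (rest (S.cf γ) (q + 1))) := by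
      intro e he
      have hu := hu1 e he
      rw [mem_gamLanes] at he
      obtain ⟨rfl, hc⟩ := he
      rw [inc1, resS, hloc, if_pos (by omega), if_pos hu, dcost, hc, ← hs]
    have e2 : ∀ e ∈ gamLanes γ q, inc1 S e = kap (cnt S.cf) γ.1 *
        (cost (AA (cnt S.cf) γ.1) (sg (cnt S.cf) γ.1) (rest (S.cf γ) q) -
          cost (AA (cnt S.cf) γ.1) (sg (cnt S.cf) γ.1) (rest (S.cf γ) (q + 1))) := by
      intro e he
      have hu := hu2 e he
      rw [mem_gamLanes] at he
      obtain ⟨rfl, hc⟩ := he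
      rw [inc1, resS, hloc, if_neg (by omega), if_pos hu, dcost, hc, ← hs]
    rw [Finset.sum_congr rfl e1, Finset.sum_congr rfl e2, Finset.sum_const, Finset.sum_const,
      nsmul_eq_mul, nsmul_eq_mul, card_gamLanes _ _ (by omega), card_gamLanes _ _ (by omega)]
    have hok : okpos (S.cf γ) (q + 1) := by
      rw [hs] at h1; exact h1.2
    have hc := cost_srw (AA (cnt S.cf) γ.1) (sg (cnt S.cf) γ.1) (S.cf γ) q (hG.wc _) hok
      (by omega) (hur (by omega))
    apply le_of_eq
    linear_combination (kap (cnt S.cf) γ.1) * hc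

theorem inc1_right_greedy (hG : Good S) {n : ℕ} (hw : S.w = Wk.hub n) (he : e ∈ levLanes n 0)
    (hu : e ∉ S.used) : inc1 S e ≤ kap (cnt S.cf) n *
      (if AA (cnt S.cf) n = true then 0 else eps) := by
  rw [mem_levLanes] at he
  obtain ⟨rfl, hc⟩ := he
  have hat : At S e.1 (rest (S.cf e.1) 0) := Or.inr (Or.inl ⟨hw, rfl⟩)
  rw [inc1, resS, hat.loc, if_pos (by rw [hc]; rfl), if_neg hu, dcost]
  apply mul_le_mul_of_nonneg_left _ (kap_pos _ _).le
  have h0 : 0 < uc (S.cf e.1) 0 := by
    have h1 := hat.count hG 0 (by norm_num)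
    have h2 := fcount_pos hu
    rw [hc, h1] at h2
    exact h2
  have := enter_left (AA (cnt S.cf) e.1.1) (sg (cnt S.cf) e.1.1) (S.cf e.1) (hG.wc _) h0
    (sg_lower_half _ _) (sg_le _ _)
  linarith

theorem inc1_left_greedy (hG : Good S) {n : ℕ} (hw : S.w = Wk.hub (n + 1))
    (he : e ∈ levLanes n 52) (hu : e ∉ S.used) : inc1 S e ≤ - kap (cnt S.cf) n := by
  rw [mem_levLanes] at he
  obtain ⟨rfl, hc⟩ := he
  have hat : At S e.1 (rest (S.cf e.1) 53) := Or.inr (Or.inr ⟨hw, rfl⟩)
  rw [inc1, resS, hat.loc, if_neg (by rw [hc]; simp [lpos]), if_neg hu, dcost]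
  have h0 : 0 < uc (S.cf e.1) 52 := by
    have h1 := hat.count hG 52 (by norm_num)
    have h2 := fcount_pos hu
    rw [hc, h1] at h2
    exact h2
  have hsg : sg (cnt S.cf) e.1.1 = 1 / 2 := by
    rw [sg, if_neg]
    intro hf
    have h3 : tl (S.cf e.1) = true := tl_of_full hf e.1.2
    rw [uc_52 _ (hG.wc _), if_pos h3] at h0
    exact absurd h0 (by norm_num)
  rw [hsg]
  have := enter_right (AA (cnt S.cf) e.1.1) (S.cf e.1) (hG.wc _) h0
  have hk := kap_pos (cnt S.cf) e.1.1
  nlinarith

theorem card_left_fresh (hG : Good S) {n : ℕ} (hw : S.w = Wk.hub (n + 1)) :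
    D n ≤ (levLanes n 52 \ S.used).card + cnt S.cf n := by
  have h1 : (Finset.univ.filter (fun g : Fin (D n) => ¬ tl (S.cf ⟨n, g⟩) = true)).card ≤
      (levLanes n 52 \ S.used).card := by
    apply Finset.card_le_card_of_injOn (fun g => ((⟨n, g⟩ : Gam), (⟨94, by norm_num⟩ : Fin 95)))
    · intro g hg
      have hg' : ¬ tl (S.cf ⟨n, g⟩) = true := by simpa using hg
      rw [Finset.mem_coe, mem_sdiff, mem_levLanes]
      refine ⟨⟨rfl, rfl⟩, ?_⟩
      intro hu
      have h2 := hG.cnts ⟨n, g⟩ 52 (by norm_num)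
      have hat : At S ⟨n, g⟩ (rest (S.cf ⟨n, g⟩) 53) := Or.inr (Or.inr ⟨hw, rfl⟩)
      rw [hat.uW] at h2
      have h3 : u (rest (S.cf ⟨n, g⟩) 53) 52 = 1 := by
        show uc (S.cf ⟨n, g⟩) 52 = 1
        rw [uc_52 _ (hG.wc _), if_neg hg']
      rw [h3, fcount_zero] at h2
      · exact absurd h2 (by norm_num)
      · intro e he
        rw [mem_gamLanes] at he
        have : e = ((⟨n, g⟩ : Gam), (⟨94, by norm_num⟩ : Fin 95)) := by
          refine Prod.ext he.1 ?_
          have h4 := he.2
          have h5 := e.2.2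
          rw [cell] at h4
          apply Fin.ext
          simp only
          split_ifs at h4 <;> omega
        rw [this]; exact hu
    · intro a _ b _ hab
      simp only [Prod.mk.injEq, Sigma.mk.injEq, heq_eq_eq, true_and, and_true] at hab
      exact hab
  have h2 := Finset.card_filter_add_card_filter_not (s := (Finset.univ : Finset (Fin (D n))))
    (fun g : Fin (D n) => tl (S.cf ⟨n, g⟩) = true)
  have h3 : (Finset.univ : Finset (Fin (D n))).card = D n := by simp
  rw [h3] at h2
  have h4 : cnt S.cf n = (Finset.univ.filter (fun g : Fin (D n) =>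
    tl (S.cf ⟨n, g⟩) = true)).card := rfl
  omega

/-- the supermartingale property at hubs -/
theorem super_hub (hG : Good S) {n : ℕ} (hw : S.w = Wk.hub (n + 1)) :
    ∑ e ∈ allowed (inc (posW S.w)) S.used, inc1 S e ≤ 0 := by
  have hpos : posW S.w = V0.hub (n + 1) := by rw [hw]; rfl
  have hR : incR (posW S.w) = levLanes (n + 1) 0 := by rw [hpos]; rfl
  have hL : incL (posW S.w) = levLanes n 52 := by rw [hpos]; rfl
  have hk := kap_pos (cnt S.cf) n
  have hDpos : (0 : ℝ) < D n := by
    have : 0 < D n := lt_of_lt_of_le (by norm_num) (D_ge n)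
    exact_mod_cast this
  by_cases hne : (inc (posW S.w) \ S.used).Nonempty
  · rw [sum_greedy _ _ _ hne, hR, hL]
    have h1 : ∑ e ∈ levLanes (n + 1) 0 \ S.used, inc1 S e ≤
        (levLanes (n + 1) 0 \ S.used).card * (kap (cnt S.cf) (n + 1) *
          (if AA (cnt S.cf) (n + 1) = true then 0 else eps)) := by
      rw [← nsmul_eq_mul]
      apply Finset.sum_le_card_nsmul
      intro e he
      rw [mem_sdiff] at he
      exact inc1_right_greedy hG hw he.1 he.2
    have h2 : ∑ e ∈ levLanes n 52 \ S.used, inc1 S e ≤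
        (levLanes n 52 \ S.used).card * (- kap (cnt S.cf) n) := by
      rw [← nsmul_eq_mul]
      apply Finset.sum_le_card_nsmul
      intro e he
      rw [mem_sdiff] at he
      exact inc1_left_greedy hG hw he.1 he.2
    by_cases hA : AA (cnt S.cf) (n + 1) = true
    · rw [if_pos hA] at h1
      have h3 : (0 : ℝ) ≤ (levLanes n 52 \ S.used).card * kap (cnt S.cf) n :=
        mul_nonneg (Nat.cast_nonneg _) hk.le
      linarith
    · rw [if_neg hA] at h1
      have hh : half (cnt S.cf) n = false := by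
        have : AA (cnt S.cf) (n + 1) = half (cnt S.cf) n := rfl
        rw [this] at hA
        simpa using hA
      have hkk : kap (cnt S.cf) (n + 1) = kap (cnt S.cf) n := by
        rw [kap, if_neg (by rw [hh]; simp)]
      rw [hkk] at h1
      have hcnt : 2 * cnt S.cf n < D n := by
        simp only [half, decide_eq_false_iff_not, not_le] at hh
        exact hh
      have hcardL := card_left_fresh hG hw
      have hcardL' : (D n : ℝ) / 2 ≤ (levLanes n 52 \ S.used).card := by
        have : D n ≤ 2 * (levLanes n 52 \ S.used).card := by omega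
        have : (D n : ℝ) ≤ 2 * ((levLanes n 52 \ S.used).card : ℝ) := by exact_mod_cast this
        linarith
      have hcardR : ((levLanes (n + 1) 0 \ S.used).card : ℝ) ≤ 4 * D n := by
        have h3 : (levLanes (n + 1) 0 \ S.used).card ≤ (levLanes (n + 1) 0).card :=
          Finset.card_le_card Finset.sdiff_subset
        rw [card_levLanes _ _ (by norm_num), D_succ] at h3
        have h4 : mult 0 = 2 := by norm_num [mult]
        rw [h4] at h3
        have h5 : (levLanes (n + 1) 0 \ S.used).card ≤ 4 * D n := by omega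
        exact_mod_cast h5
      have he1 := eps_lt
      have he0 := eps_pos
      have h5 : ((levLanes (n + 1) 0 \ S.used).card : ℝ) * (kap (cnt S.cf) n * eps) ≤
          4 * D n * (kap (cnt S.cf) n * (1 / 8)) := by
        apply mul_le_mul hcardR _ (mul_nonneg hk.le he0) (by linarith)
        exact mul_le_mul_of_nonneg_left he1 hk.le
      have h6 : (D n : ℝ) / 2 * kap (cnt S.cf) n ≤
          ((levLanes n 52 \ S.used).card : ℝ) * kap (cnt S.cf) n :=
        mul_le_mul_of_nonneg_right hcardL' hk.le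
      nlinarith
  · rw [sum_srw _ _ _ hne, hR, hL]
    have hex : inc (posW S.w) ⊆ S.used := by
      rwa [Finset.not_nonempty_iff_eq_empty, Finset.sdiff_eq_empty_iff_subset] at hne
    have hfull := full_of_exhausted hG hw hex
    have hhalf := half_of_full hfull
    have hkk : kap (cnt S.cf) (n + 1) = kap (cnt S.cf) n / 2 := by
      rw [kap, if_pos hhalf]
    have h1 : ∑ e ∈ levLanes (n + 1) 0, inc1 S e ≤
        (levLanes (n + 1) 0).card * (kap (cnt S.cf) n / 2) := by
      rw [← nsmul_eq_mul]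
      apply Finset.sum_le_card_nsmul
      intro e he
      have hu : e ∈ S.used := by
        apply hex
        rw [inc, hR]
        exact Finset.mem_union_left _ he
      rw [mem_levLanes] at he
      obtain ⟨hl, hc⟩ := he
      have hat : At S e.1 (rest (S.cf e.1) 0) := Or.inr (Or.inl ⟨by rw [hw, hl], rfl⟩)
      rw [inc1, resS, hat.loc, if_pos (by rw [hc]; rfl), if_pos hu, dcost, hc, hl, ← hkk]
      have h2 := cost_first_upper (AA (cnt S.cf) (n + 1)) (sg (cnt S.cf) (n + 1)) (S.cf e.1)
        (sg_le _ _)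
      have h3 := kap_pos (cnt S.cf) (n + 1)
      simp only [Nat.zero_add]
      nlinarith
    have h2 : ∑ e ∈ levLanes n 52, inc1 S e ≤
        (levLanes n 52).card * (-(2 * kap (cnt S.cf) n)) := by
      rw [← nsmul_eq_mul]
      apply Finset.sum_le_card_nsmul
      intro e he
      have hu : e ∈ S.used := by
        apply hex
        rw [inc, hL]
        exact Finset.mem_union_right _ he
      rw [mem_levLanes] at he
      obtain ⟨hl, hc⟩ := he
      have hat : At S e.1 (rest (S.cf e.1) 53) := Or.inr (Or.inr ⟨by rw [hw, hl], rfl⟩)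
      have htl : tl (S.cf e.1) = true := by
        have h3 : ∀ m, e.1.1 = m → full (cnt S.cf) m = true → tl (S.cf e.1) = true := by
          intro m hm hf
          subst hm
          exact tl_of_full hf e.1.2
        exact h3 n hl hfull
      rw [inc1, resS, hat.loc, if_neg (by rw [hc]; simp [lpos]), if_pos hu, dcost, hc, hl]
      have hsg : sg (cnt S.cf) n = 1 := by rw [sg, if_pos hfull]
      rw [cost_last _ _ _ htl, hsg]
      apply le_of_eq
      ring
    rw [card_levLanes _ _ (by norm_num), D_succ] at h1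
    rw [card_levLanes _ _ (by norm_num)] at h2
    have h4 : mult 0 = 2 := by norm_num [mult]
    have h5 : mult 52 = 1 := by norm_num [mult]
    rw [h4] at h1
    rw [h5] at h2
    push_cast at h1 h2
    nlinarith

end

/-- the initial state -/
def initS : GS := ⟨fun _ => U 0, Wk.hub 0, ∅, 0⟩

theorem good_init : Good initS := by
  constructor
  · intro γ; simp [initS, WFc]
  · intro γ s h; cases h
  · intro n h; cases h; exact le_rfl
  · intro γ c hc
    rw [fcount]
    show (gamLanes γ c \ ∅).card = uc (U 0) c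
    rw [Finset.sdiff_empty, card_gamLanes _ _ hc]
    simp [mult, uc]
  · intro γ _; rfl
  · intro γ _; rfl
  · intro m hm; exact absurd hm (Nat.not_lt_zero m)

/-- the certificate -/
noncomputable def cert : MCert lf rt (V0.hub 0) where
  inc := inc
  mem_inc := mem_inc
  ne := lf_ne_rt
  St := GS
  pos := fun S => posW S.w
  used := fun S => S.used
  nx := nxS
  init := initS
  Good := Good
  Ψ := Psi
  good_init := good_init
  pos_init := rfl
  used_init := rfl
  good_nx := by
    intro S e hG he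
    obtain ⟨s, hs⟩ := step_ok hG e (mem_allowed_cases he)
    exact good_nx hG hs
  pos_nx := by
    intro S e hG he
    obtain ⟨s, hs⟩ := step_ok hG e (mem_allowed_cases he)
    exact pos_nx hG hs
  used_nx := by
    intro S e hG he
    rfl
  nonneg := fun S hG => Psi_nonneg hG
  super := by
    intro S hG ho
    apply super_of_inc hG
    rcases hw : S.w with n | ⟨γ, s⟩
    · rw [hw] at ho
      cases n with
      | zero => exact absurd rfl ho
      | succ n =>
        rw [← hw]
        exact super_hub hG hw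
    · rw [← hw]
      exact super_ins hG hw
  fin := fin_bound
  osc := by
    intro K
    obtain ⟨δ, h1, h2⟩ := osc_bound K
    exact ⟨δ, h1, fun S e hG hK _ hex he => h2 S e hG hK hex he⟩

end Pool.Agent.Lib.MP_4770bc_pr
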