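import Pool.Agent.Lib.MP_4770bc_pr.Cost

/-!
The global potential.
-/

set_option linter.unusedSimpArgs false
set_option linter.unusedVariables false
set_option linter.unnecessarySeqFocus false

namespace Pool.Agent.Lib.MP_4770bc_pr

open Cfg LS Finset

/-- number of gadgets between hub `n` and hub `n+1` -/
def D (n : ℕ) : ℕ := 2 ^ (n + 6)

theorem D_succ (n : ℕ) : D (n + 1) = 2 * D n := by
  rw [D, D, show n + 1 + 6 = (n + 6) + 1 by ring, pow_succ]; ring

theorem D_ge (n : ℕ) : 64 ≤ D n := by
  induction n with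
  | zero => norm_num [D]
  | succ n ih => rw [D_succ]; omega

theorem D_eq (n : ℕ) : D n = 64 * 2 ^ n := by
  rw [D, pow_add]; ring

/-- gadgets -/
abbrev Gam : Type := Σ n : ℕ, Fin (D n)

/-- number of gadgets of level `n` with used tail -/
def cnt (cf : Gam → Cfg) (n : ℕ) : ℕ :=
  (Finset.univ.filter (fun g : Fin (D n) => tl (cf ⟨n, g⟩) = true)).card

theorem cnt_le (cf : Gam → Cfg) (n : ℕ) : cnt cf n ≤ D n := by
  refine le_trans (Finset.card_filter_le _ _) ?_
  simp

def half (b : ℕ → ℕ) (n : ℕ) : Bool := decide (D n ≤ 2 * b n)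

def full (b : ℕ → ℕ) (n : ℕ) : Bool := decide (D n ≤ b n)

def AA (b : ℕ → ℕ) : ℕ → Bool
  | 0 => true
  | n + 1 => half b n

noncomputable def kap (b : ℕ → ℕ) : ℕ → ℝ
  | 0 => 1
  | n + 1 => if half b n = true then kap b n / 2 else kap b n

noncomputable def sg (b : ℕ → ℕ) (n : ℕ) : ℝ := if full b n = true then 1 else 1 / 2

noncomputable def W (b : ℕ → ℕ) (cf : Gam → Cfg) (n : ℕ) : ℝ :=
  ∑ g : Fin (D n), om (AA b n) (cf ⟨n, g⟩) - if full b n = true then 32 else 0

noncomputable def S1 (b : ℕ → ℕ) (n : ℕ) : ℝ := ∑ m ∈ range n, kap b m * (64 * sg b m)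

noncomputable def S2 (b : ℕ → ℕ) (cf : Gam → Cfg) (T : ℕ) : ℝ :=
  ∑ m ∈ range T, kap b m * W b cf m

noncomputable def Phi (b : ℕ → ℕ) (cf : Gam → Cfg) (T : ℕ) (γ : Gam) (s : LS) : ℝ :=
  S1 b γ.1 + S2 b cf T +
    kap b γ.1 * (cost (AA b γ.1) (sg b γ.1) s - om (AA b γ.1) (base s)) + 234

noncomputable def hubPot (b : ℕ → ℕ) (cf : Gam → Cfg) (T : ℕ) (n : ℕ) : ℝ :=
  S1 b n + S2 b cf T + 234

theorem kap_pos (b : ℕ → ℕ) (n : ℕ) : 0 < kap b n := by
  induction n with
  | zero => norm_num [kap]
  | succ n ih =>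
    rw [kap]; split_ifs <;> linarith

theorem kap_succ_le (b : ℕ → ℕ) (n : ℕ) : kap b (n + 1) ≤ kap b n := by
  have := kap_pos b n
  rw [kap]; split_ifs <;> linarith

theorem kap_anti (b : ℕ → ℕ) {m n : ℕ} (h : m ≤ n) : kap b n ≤ kap b m := by
  induction n, h using Nat.le_induction with
  | base => exact le_rfl
  | succ n _ ih => exact le_trans (kap_succ_le b n) ih

theorem kap_le_one (b : ℕ → ℕ) (n : ℕ) : kap b n ≤ 1 := kap_anti b (Nat.zero_le n)

theorem kap_ge (b : ℕ → ℕ) (n : ℕ) : (1 / 2 : ℝ) ^ n ≤ kap b n := by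
  induction n with
  | zero => norm_num [kap]
  | succ n ih =>
    have h2 : (0 : ℝ) < (1 / 2) ^ n := by positivity
    rw [kap, pow_succ]
    split_ifs <;> linarith

theorem sg_cases (b : ℕ → ℕ) (n : ℕ) : sg b n = 1 / 2 ∨ sg b n = 1 := by
  rw [sg]; split_ifs
  · exact Or.inr rfl
  · exact Or.inl rfl

theorem sg_ge (b : ℕ → ℕ) (n : ℕ) : 1 / 2 ≤ sg b n := by
  rcases sg_cases b n with h | h <;> rw [h] <;> norm_num

theorem sg_le (b : ℕ → ℕ) (n : ℕ) : sg b n ≤ 1 := by
  rcases sg_cases b n with h | h <;> rw [h] <;> norm_num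

theorem S1_nonneg (b : ℕ → ℕ) (n : ℕ) : 0 ≤ S1 b n := by
  apply Finset.sum_nonneg
  intro m _
  have h1 := kap_pos b m
  have h2 := sg_ge b m
  positivity

theorem Phi_zero (b : ℕ → ℕ) (cf : Gam → Cfg) (T : ℕ) (γ : Gam) (c : Cfg) :
    Phi b cf T γ (rest c 0) = hubPot b cf T γ.1 := by
  rw [Phi, hubPot, cost_rest_zero, base]; ring

theorem Phi_53 (b : ℕ → ℕ) (cf : Gam → Cfg) (T : ℕ) (γ : Gam) (c : Cfg) :
    Phi b cf T γ (rest c 53) = hubPot b cf T (γ.1 + 1) := by
  rw [Phi, hubPot, cost_rest_53, base, S1, S1, sum_range_succ]; ring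

/-! ### Lower bound -/

theorem W_lower (b : ℕ → ℕ) (cf : Gam → Cfg) (hw : ∀ γ, WFc (cf γ)) (n : ℕ)
    (hb : b n = cnt cf n) :
    7 * (b n : ℝ) - (if AA b n = true then 3 else 0) * ((D n : ℝ) - b n) -
      (if full b n = true then 32 else 0) ≤ W b cf n := by
  have h1 : ∑ g : Fin (D n), (if tl (cf ⟨n, g⟩) = true then (7 : ℝ) else
      -(if AA b n = true then 3 else 0)) ≤ ∑ g : Fin (D n), om (AA b n) (cf ⟨n, g⟩) := by
    apply Finset.sum_le_sum
    intro g _
    split_ifs with h1 h2
    · exact om_tl_ge _ _ (hw _) h1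
    · have := om_ge (AA b n) (cf ⟨n, g⟩) (hw _) (by simpa using h1)
      rw [if_pos h2] at this
      exact this
    · have := om_ge (AA b n) (cf ⟨n, g⟩) (hw _) (by simpa using h1)
      rw [if_neg h2] at this
      exact this
  rw [Finset.sum_ite, Finset.sum_const, Finset.sum_const, nsmul_eq_mul, nsmul_eq_mul] at h1
  have h2 : (Finset.univ.filter (fun g : Fin (D n) => tl (cf ⟨n, g⟩) = true)).card = b n := by
    rw [hb]; rfl
  have h3 : ((Finset.univ.filter (fun g : Fin (D n) => ¬ tl (cf ⟨n, g⟩) = true)).card : ℝ) =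
      (D n : ℝ) - b n := by
    have h4 := Finset.card_filter_add_card_filter_not (s := (Finset.univ : Finset (Fin (D n))))
      (fun g : Fin (D n) => tl (cf ⟨n, g⟩) = true)
    rw [h2, Finset.card_univ, Fintype.card_fin] at h4
    have h5 : ((b n : ℝ) + ((Finset.univ.filter
        (fun g : Fin (D n) => ¬ tl (cf ⟨n, g⟩) = true)).card : ℝ)) = (D n : ℝ) := by
      exact_mod_cast h4
    linarith
  rw [h2, h3] at h1
  rw [W]
  linarith

theorem key_ineq (k x d : ℝ) (A Hf Fu : Bool) (hk : 0 < k) (hx : 0 ≤ x)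
    (hd : 64 ≤ d) (hH : Hf = true → d ≤ 2 * x) (hF : Fu = true → d ≤ x)
    (hFH : Fu = true → Hf = true) :
    (if Hf = true then 3 * (k / 2) * (2 * d) else 0) + 1 / 2 * (k * x) ≤
      k * (7 * x - (if A = true then 3 else 0) * (d - x) - (if Fu = true then 32 else 0)) +
      (if A = true then 3 * k * d else 0) := by
  have core : (if Hf = true then 3 * d else 0) + 1 / 2 * x ≤
      7 * x - (if A = true then 3 else 0) * (d - x) - (if Fu = true then 32 else 0) +
      (if A = true then 3 * d else 0) := by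
    cases A <;> cases Hf <;> cases Fu <;> simp at * <;> linarith
  have h2 := mul_le_mul_of_nonneg_left core hk.le
  cases A <;> cases Hf <;> cases Fu <;> simp at * <;> linarith

theorem lower (b : ℕ → ℕ) (cf : Gam → Cfg) (hw : ∀ γ, WFc (cf γ)) (d m : ℕ)
    (hb : ∀ k ≥ m, b k = cnt cf k) :
    1 / 2 * ∑ k ∈ range d, kap b (m + k) * b (m + k) ≤
      ∑ k ∈ range d, kap b (m + k) * W b cf (m + k) +
        (if AA b m = true then 3 * kap b m * D m else 0) := by
  induction d generalizing m with
  | zero =>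
    simp only [range_zero, sum_empty, mul_zero, zero_add]
    have := kap_pos b m
    split_ifs
    · positivity
    · exact le_rfl
  | succ d ih =>
    rw [sum_range_succ', sum_range_succ']
    simp only [Nat.add_zero]
    have ih' := ih (m + 1) (fun k hk => hb k (by omega))
    have e1 : ∀ k, m + 1 + k = m + (k + 1) := by intro k; ring
    simp only [e1] at ih'
    have hW := W_lower b cf hw m (hb m le_rfl)
    have hk := kap_pos b m
    have hb0 : (0 : ℝ) ≤ b m := by positivity
    have hD : (64 : ℝ) ≤ D m := by exact_mod_cast D_ge m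
    have hDs : ((D (m + 1) : ℕ) : ℝ) = 2 * D m := by rw [D_succ]; push_cast; ring
    have hmul := mul_le_mul_of_nonneg_left hW hk.le
    have key := key_ineq (kap b m) (b m) (D m) (AA b m) (half b m) (full b m) hk hb0 hD
      (by
        intro h
        have : D m ≤ 2 * b m := by simpa [half] using h
        exact_mod_cast this)
      (by
        intro h
        have : D m ≤ b m := by simpa [full] using h
        exact_mod_cast this)
      (by
        intro h
        have : D m ≤ b m := by simpa [full] using h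
        simp only [half, decide_eq_true_eq]; omega)
    have e3 : (if AA b (m + 1) = true then 3 * kap b (m + 1) * ((D (m + 1) : ℕ) : ℝ) else 0) =
        (if half b m = true then 3 * (kap b m / 2) * (2 * (D m : ℝ)) else 0) := by
      have hA : AA b (m + 1) = half b m := rfl
      rw [hA, hDs]
      split_ifs with hh
      · rw [kap, if_pos hh]
      · rfl
    rw [e3] at ih'
    linarith

/-! ### Changing the counts -/

/-- `b'` arises from `b` by increasing the count of level `n` by one -/
structure Bump (b b' : ℕ → ℕ) (n : ℕ) : Prop where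
  ne : ∀ m, m ≠ n → b' m = b m
  eq : b' n = b n + 1

theorem Bump.half_ne {b b' : ℕ → ℕ} {n : ℕ} (h : Bump b b' n) {m : ℕ} (hm : m ≠ n) :
    half b' m = half b m := by rw [half, half, h.ne m hm]

theorem Bump.full_ne {b b' : ℕ → ℕ} {n : ℕ} (h : Bump b b' n) {m : ℕ} (hm : m ≠ n) :
    full b' m = full b m := by rw [full, full, h.ne m hm]

theorem Bump.half_mono {b b' : ℕ → ℕ} {n : ℕ} (h : Bump b b' n) (hh : half b n = true) :
    half b' n = true := by
  simp only [half, decide_eq_true_eq, h.eq] at hh ⊢; omega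

theorem Bump.full_mono {b b' : ℕ → ℕ} {n : ℕ} (h : Bump b b' n) (hh : full b n = true) :
    full b' n = true := by
  simp only [full, decide_eq_true_eq, h.eq] at hh ⊢; omega

theorem Bump.AA_ne {b b' : ℕ → ℕ} {n : ℕ} (h : Bump b b' n) {m : ℕ} (hm : m ≠ n + 1) :
    AA b' m = AA b m := by
  cases m with
  | zero => rfl
  | succ m => exact h.half_ne (by omega)

theorem Bump.kap_le {b b' : ℕ → ℕ} {n : ℕ} (h : Bump b b' n) {m : ℕ} (hm : m ≤ n) :
    kap b' m = kap b m := by
  induction m with
  | zero => rfl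
  | succ m ih =>
    rw [kap, kap, h.half_ne (by omega), ih (by omega)]

theorem Bump.kap_same {b b' : ℕ → ℕ} {n : ℕ} (h : Bump b b' n) (hh : half b' n = half b n)
    (m : ℕ) : kap b' m = kap b m := by
  induction m with
  | zero => rfl
  | succ m ih =>
    rw [kap, kap, ih]
    rcases eq_or_ne m n with h1 | h1
    · rw [h1, hh]
    · rw [h.half_ne h1]

theorem Bump.kap_half {b b' : ℕ → ℕ} {n : ℕ} (h : Bump b b' n) (h0 : half b n = false)
    (h1 : half b' n = true) (m : ℕ) : kap b' (n + 1 + m) = kap b (n + 1 + m) / 2 := by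
  induction m with
  | zero =>
    rw [Nat.add_zero, kap, kap, h1, h0, h.kap_le le_rfl]
    simp
  | succ m ih =>
    have e : n + 1 + (m + 1) = (n + 1 + m) + 1 := by ring
    rw [e, kap, kap, ih, h.half_ne (by omega)]
    split_ifs <;> ring

theorem om_anti (A A' : Bool) (h : A = true → A' = true) (c : Cfg) : om A' c ≤ om A c := by
  cases A
  · cases A'
    · exact le_rfl
    · exact om_true_le c
  · rw [h rfl]

theorem S2_split (b : ℕ → ℕ) (cf : Gam → Cfg) (n T : ℕ) (h : n < T) :
    S2 b cf T = ∑ m ∈ range n, kap b m * W b cf m + kap b n * W b cf n +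
      ∑ k ∈ range (T - (n + 1)), kap b (n + 1 + k) * W b cf (n + 1 + k) := by
  obtain ⟨d, rfl⟩ : ∃ d, T = n + 1 + d := ⟨T - (n + 1), by omega⟩
  rw [S2, Finset.sum_range_add, sum_range_succ]
  congr 2
  congr 1
  omega

theorem S2_bump {b b' : ℕ → ℕ} {n : ℕ} (h : Bump b b' n) (cf : Gam → Cfg)
    (hw : ∀ γ, WFc (cf γ)) (hb : ∀ k > n, b k = cnt cf k) (T : ℕ) (hT : n < T) :
    S2 b' cf T + kap b n * ((if full b' n = true then 32 else 0) -
      (if full b n = true then 32 else 0)) ≤ S2 b cf T := by
  rw [S2_split b' cf n T hT, S2_split b cf n T hT]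
  have e1 : ∑ m ∈ range n, kap b' m * W b' cf m = ∑ m ∈ range n, kap b m * W b cf m := by
    apply Finset.sum_congr rfl
    intro m hm
    have hm' : m < n := by simpa using hm
    rw [h.kap_le hm'.le, W, W, h.AA_ne (by omega), h.full_ne (by omega)]
  have e2 : kap b' n * W b' cf n = kap b n * W b cf n - kap b n *
      ((if full b' n = true then 32 else 0) - (if full b n = true then 32 else 0)) := by
    rw [h.kap_le le_rfl, W, W, h.AA_ne (by omega)]
    ring
  have hlow := lower b cf hw (T - (n + 1)) (n + 1) (fun k hk => hb k (by omega))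
  have e3 : ∑ k ∈ range (T - (n + 1)), kap b' (n + 1 + k) * W b' cf (n + 1 + k) ≤
      ∑ k ∈ range (T - (n + 1)), kap b (n + 1 + k) * W b cf (n + 1 + k) := by
    by_cases hh : half b' n = half b n
    · apply le_of_eq
      apply Finset.sum_congr rfl
      intro k _
      rw [h.kap_same hh, W, W, h.full_ne (by omega)]
      rcases eq_or_ne k 0 with hk | hk
      · subst hk
        have : AA b' (n + 1 + 0) = AA b (n + 1 + 0) := hh
        rw [this]
      · rw [h.AA_ne (by omega)]
    · have h0 : half b n = false := by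
        by_contra hcon
        have hcon' : half b n = true := by simpa using hcon
        exact hh (by rw [hcon', h.half_mono hcon'])
      have h1 : half b' n = true := by
        by_contra hcon
        have hcon' : half b' n = false := by simpa using hcon
        exact hh (by rw [hcon', h0])
      have hAA : AA b (n + 1) = false := h0
      rw [hAA] at hlow
      simp only [Bool.false_eq_true, if_false, add_zero] at hlow
      have hpos : 0 ≤ ∑ k ∈ range (T - (n + 1)), kap b (n + 1 + k) * (b (n + 1 + k) : ℝ) := by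
        apply Finset.sum_nonneg
        intro k _
        have := kap_pos b (n + 1 + k)
        positivity
      have h2 : ∑ k ∈ range (T - (n + 1)), kap b' (n + 1 + k) * W b' cf (n + 1 + k) ≤
          ∑ k ∈ range (T - (n + 1)), kap b (n + 1 + k) * W b cf (n + 1 + k) / 2 := by
        apply Finset.sum_le_sum
        intro k _
        have hk := kap_pos b (n + 1 + k)
        have hW : W b' cf (n + 1 + k) ≤ W b cf (n + 1 + k) := by
          rw [W, W, h.full_ne (by omega)]
          have : ∑ g : Fin (D (n + 1 + k)), om (AA b' (n + 1 + k)) (cf ⟨n + 1 + k, g⟩) ≤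
              ∑ g : Fin (D (n + 1 + k)), om (AA b (n + 1 + k)) (cf ⟨n + 1 + k, g⟩) := by
            apply Finset.sum_le_sum
            intro g _
            apply om_anti
            intro hA
            rcases eq_or_ne k 0 with hk | hk
            · subst hk
              exact h1
            · rw [h.AA_ne (by omega)]; exact hA
          linarith
        rw [h.kap_half h0 h1]
        have := mul_le_mul_of_nonneg_left hW (by linarith : 0 ≤ kap b (n + 1 + k) / 2)
        linarith
      rw [← Finset.sum_div] at h2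
      linarith
  linarith

theorem sg_bump {b b' : ℕ → ℕ} {n : ℕ} (h : Bump b b' n) (A : Bool) (s : LS) (hs : WF s)
    (ht : tl (base s) = true) :
    cost A (sg b' n) s ≤ cost A (sg b n) s + ((if full b' n = true then 32 else 0) -
      (if full b n = true then 32 else 0)) := by
  rw [sg, sg]
  by_cases h0 : full b n = true
  · rw [if_pos h0, if_pos (h.full_mono h0), if_pos h0, if_pos (h.full_mono h0)]
    simp
  · rw [if_neg h0, if_neg h0]
    by_cases h1 : full b' n = true
    · rw [if_pos h1, if_pos h1]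
      have := cost_sigma A s hs ht
      linarith
    · rw [if_neg h1, if_neg h1]
      simp

theorem Phi_bump {b b' : ℕ → ℕ} (cf : Gam → Cfg) (γ : Gam) (h : Bump b b' γ.1)
    (hw : ∀ γ, WFc (cf γ)) (hb : ∀ k > γ.1, b k = cnt cf k) (T : ℕ) (hT : γ.1 < T) (s : LS)
    (hs : WF s) (ht : tl (base s) = true) : Phi b' cf T γ s ≤ Phi b cf T γ s := by
  have h1 := S2_bump h cf hw hb T hT
  have h2 := sg_bump h (AA b γ.1) s hs ht
  have hk := kap_pos b γ.1
  have e1 : S1 b' γ.1 = S1 b γ.1 := by
    rw [S1, S1]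
    apply Finset.sum_congr rfl
    intro m hm
    have hm' : m < γ.1 := by simpa using hm
    rw [h.kap_le hm'.le, sg, sg, h.full_ne (by omega)]
  rw [Phi, Phi, e1, h.kap_le le_rfl, h.AA_ne (by omega)]
  have h3 := mul_le_mul_of_nonneg_left h2 hk.le
  linarith

/-! ### Moving the walker -/

theorem cnt_update_same (cf : Gam → Cfg) (γ : Gam) (c : Cfg) (h : tl c = tl (cf γ)) :
    cnt (Function.update cf γ c) = cnt cf := by
  funext n
  rw [cnt, cnt]
  congr 1
  apply Finset.filter_congr
  intro g _
  rcases eq_or_ne (⟨n, g⟩ : Gam) γ with h1 | h1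
  · rw [h1, Function.update_self, h]
  · rw [Function.update_of_ne h1]

theorem cnt_update_bump (cf : Gam → Cfg) (γ : Gam) (c : Cfg) (h0 : tl (cf γ) = false)
    (h1 : tl c = true) : Bump (cnt cf) (cnt (Function.update cf γ c)) γ.1 := by
  obtain ⟨n, g0⟩ := γ
  constructor
  · intro m hm
    rw [cnt, cnt]
    congr 1
    apply Finset.filter_congr
    intro g _
    rw [Function.update_of_ne]
    intro hh
    apply hm
    exact congrArg Sigma.fst hh
  · simp only [cnt]
    have : (Finset.univ.filter (fun g : Fin (D n) =>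
        tl (Function.update cf ⟨n, g0⟩ c ⟨n, g⟩) = true)) =
        insert g0 (Finset.univ.filter (fun g : Fin (D n) => tl (cf ⟨n, g⟩) = true)) := by
      ext g
      simp only [mem_filter, mem_univ, true_and, mem_insert]
      rcases eq_or_ne g g0 with h2 | h2
      · subst h2
        simp [h1]
      · rw [Function.update_of_ne]
        · simp [h2]
        · intro hh
          apply h2
          have := (Sigma.mk.inj_iff.mp hh).2
          exact eq_of_heq this
    rw [this, Finset.card_insert_of_notMem]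
    simp [h0]

theorem S2_update (b : ℕ → ℕ) (cf : Gam → Cfg) (γ : Gam) (c : Cfg) (T : ℕ) (hT : γ.1 < T) :
    S2 b (Function.update cf γ c) T = S2 b cf T +
      kap b γ.1 * (om (AA b γ.1) c - om (AA b γ.1) (cf γ)) := by
  obtain ⟨n, g0⟩ := γ
  have hW : ∀ m, m ≠ n → W b (Function.update cf ⟨n, g0⟩ c) m = W b cf m := by
    intro m hm
    rw [W, W]
    congr 1
    apply Finset.sum_congr rfl
    intro g _
    rw [Function.update_of_ne]
    intro hh
    exact hm (congrArg Sigma.fst hh)
  have hW2 : W b (Function.update cf ⟨n, g0⟩ c) n = W b cf n +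
      (om (AA b n) c - om (AA b n) (cf ⟨n, g0⟩)) := by
    rw [W, W]
    have h1 : ∑ g : Fin (D n), om (AA b n) (Function.update cf ⟨n, g0⟩ c ⟨n, g⟩) =
        ∑ g : Fin (D n), (om (AA b n) (cf ⟨n, g⟩) +
          if g = g0 then (om (AA b n) c - om (AA b n) (cf ⟨n, g0⟩)) else 0) := by
      apply Finset.sum_congr rfl
      intro g _
      rcases eq_or_ne g g0 with h2 | h2
      · subst h2
        simp
      · rw [Function.update_of_ne, if_neg h2, add_zero]
        intro hh
        apply h2
        have := (Sigma.mk.inj_iff.mp hh).2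
        exact eq_of_heq this
    rw [h1, Finset.sum_add_distrib, Finset.sum_ite_eq' Finset.univ g0]
    simp only [mem_univ, if_true]
    ring
  rw [S2_split b _ n T hT, S2_split b cf n T hT, hW2]
  have e1 : ∑ m ∈ range n, kap b m * W b (Function.update cf ⟨n, g0⟩ c) m =
      ∑ m ∈ range n, kap b m * W b cf m := by
    apply Finset.sum_congr rfl
    intro m hm
    have hm' : m < n := by simpa using hm
    rw [hW m (by omega)]
  have e2 : ∑ k ∈ range (T - (n + 1)), kap b (n + 1 + k) *
      W b (Function.update cf ⟨n, g0⟩ c) (n + 1 + k) =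
      ∑ k ∈ range (T - (n + 1)), kap b (n + 1 + k) * W b cf (n + 1 + k) := by
    apply Finset.sum_congr rfl
    intro k _
    rw [hW _ (by omega)]
  rw [e1, e2]
  ring

/-- the effect of a local move on the potential, when the tail flag does not change -/
theorem place_eq (cf : Gam → Cfg) (T : ℕ) (γ : Gam) (hT : γ.1 < T) (s s' : LS)
    (hbase : base s = cf γ) (ht : tl (base s') = tl (cf γ)) :
    Phi (cnt (Function.update cf γ (base s'))) (Function.update cf γ (base s')) T γ s' =
      Phi (cnt cf) cf T γ s + kap (cnt cf) γ.1 *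
        (cost (AA (cnt cf) γ.1) (sg (cnt cf) γ.1) s' -
          cost (AA (cnt cf) γ.1) (sg (cnt cf) γ.1) s) := by
  rw [cnt_update_same cf γ _ ht, Phi, Phi, S2_update _ _ _ _ _ hT, hbase]
  ring

theorem place_le (cf : Gam → Cfg) (hw : ∀ γ, WFc (cf γ)) (T : ℕ) (γ : Gam) (hT : γ.1 < T)
    (s s' : LS) (hbase : base s = cf γ) (hs' : WF s') (hb' : WFc (base s'))
    (hmono : tl (base s) = true → tl (base s') = true) :
    Phi (cnt (Function.update cf γ (base s'))) (Function.update cf γ (base s')) T γ s' ≤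
      Phi (cnt cf) cf T γ s + kap (cnt cf) γ.1 *
        (cost (AA (cnt cf) γ.1) (sg (cnt cf) γ.1) s' -
          cost (AA (cnt cf) γ.1) (sg (cnt cf) γ.1) s) := by
  by_cases ht : tl (base s') = tl (cf γ)
  · exact (place_eq cf T γ hT s s' hbase ht).le
  · have h0 : tl (cf γ) = false := by
      by_contra hcon
      have hcon' : tl (cf γ) = true := by simpa using hcon
      apply ht
      rw [hcon']
      exact hmono (by rw [hbase]; exact hcon')
    have h1 : tl (base s') = true := by
      by_contra hcon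
      have hcon' : tl (base s') = false := by simpa using hcon
      exact ht (by rw [hcon', h0])
    have hbump := cnt_update_bump cf γ (base s') h0 h1
    have hw' : ∀ δ, WFc (Function.update cf γ (base s') δ) := by
      intro δ
      rcases eq_or_ne δ γ with h2 | h2
      · subst h2; rw [Function.update_self]; exact hb'
      · rw [Function.update_of_ne h2]; exact hw δ
    have h2 := Phi_bump (Function.update cf γ (base s')) γ hbump hw'
      (fun k hk => (hbump.ne k (by omega)).symm) T hT s' hs' h1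
    refine le_trans h2 (le_of_eq ?_)
    rw [Phi, Phi, S2_update _ _ _ _ _ hT, hbase]
    ring

/-- enlarging the horizon -/
theorem S2_succ_le (b : ℕ → ℕ) (cf : Gam → Cfg) (T : ℕ) (h : ∀ g, cf ⟨T, g⟩ = U 0) :
    S2 b cf (T + 1) ≤ S2 b cf T := by
  rw [S2, S2, sum_range_succ]
  have hk := kap_pos b T
  have hW : W b cf T ≤ 0 := by
    rw [W]
    have h1 : ∑ g : Fin (D T), om (AA b T) (cf ⟨T, g⟩) ≤ 0 := by
      apply Finset.sum_nonpos
      intro g _
      rw [h g]
      exact om_U_le _ _
    have h2 : (0 : ℝ) ≤ (if full b T = true then 32 else 0) := by split_ifs <;> norm_num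
    linarith
  nlinarith

/-! ### Growth -/

theorem growth (b : ℕ → ℕ) (M : ℕ) (hb : ∀ k < M, 1 ≤ b k) :
    (∃ h : ℕ, kap b M = (1 / 2) ^ h ∧ (h : ℝ) ≤ ∑ k ∈ range M, kap b k * b k) ∧
      (M : ℝ) * kap b M ≤ ∑ k ∈ range M, kap b k * b k := by
  induction M with
  | zero =>
    refine ⟨⟨0, ?_, ?_⟩, ?_⟩
    · simp [kap]
    · simp
    · simp
  | succ M ih =>
    obtain ⟨⟨h, h1, h2⟩, h3⟩ := ih (fun k hk => hb k (by omega))
    have hbM : (1 : ℝ) ≤ b M := by exact_mod_cast hb M (by omega)
    have hk := kap_pos b M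
    have hkge := kap_ge b M
    rw [sum_range_succ]
    refine ⟨?_, ?_⟩
    · by_cases hh : half b M = true
      · refine ⟨h + 1, ?_, ?_⟩
        · rw [kap, if_pos hh, h1, pow_succ]; ring
        · have hD : D M ≤ 2 * b M := by simpa [half] using hh
          have hD' : (64 : ℝ) * 2 ^ M ≤ 2 * b M := by
            rw [D_eq] at hD; exact_mod_cast hD
          have h4 : (1 : ℝ) ≤ kap b M * b M := by
            have h5 : (1 / 2 : ℝ) ^ M * (32 * 2 ^ M) ≤ kap b M * b M := by
              apply mul_le_mul hkge (by linarith) (by positivity) hk.le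
            have h6 : (1 / 2 : ℝ) ^ M * (32 * 2 ^ M) = 32 := by
              rw [one_div, inv_pow]; field_simp
            rw [h6] at h5
            linarith
          push_cast
          linarith
      · refine ⟨h, ?_, ?_⟩
        · rw [kap, if_neg hh, h1]
        · have : 0 ≤ kap b M * b M := by positivity
          linarith
    · have h4 := kap_succ_le b M
      have h5 : kap b M ≤ kap b M * b M := by nlinarith
      have h6 : (M : ℝ) * kap b (M + 1) ≤ M * kap b M :=
        mul_le_mul_of_nonneg_left h4 (by positivity)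
      push_cast
      linarith

theorem growth_bound (b : ℕ → ℕ) (M K : ℕ) (hb : ∀ k < M, 1 ≤ b k) (hM : K * 2 ^ K ≤ M) :
    (K : ℝ) ≤ ∑ k ∈ range M, kap b k * b k := by
  obtain ⟨⟨h, h1, h2⟩, h3⟩ := growth b M hb
  rcases Nat.lt_or_ge h K with h4 | h4
  · have h5 : (1 / 2 : ℝ) ^ K ≤ kap b M := by
      rw [h1]
      exact pow_le_pow_of_le_one (by norm_num) (by norm_num) h4.le
    have h6 : (K : ℝ) * 2 ^ K ≤ M := by exact_mod_cast hM
    have h7 : (K : ℝ) * 2 ^ K * (1 / 2 : ℝ) ^ K ≤ M * kap b M :=
      mul_le_mul h6 h5 (by positivity) (by positivity)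
    have h8 : (K : ℝ) * 2 ^ K * (1 / 2 : ℝ) ^ K = K := by
      rw [one_div, inv_pow]; field_simp
    linarith
  · have : (K : ℝ) ≤ h := by exact_mod_cast h4
    linarith

end Pool.Agent.Lib.MP_4770bc_pr
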