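import Pool.Agent.Lib.MP_4770bc_pr.Defs
import Pool.Agent.Lib.MP_4770bc_pr.Exist

/-!
The greedy random walk as a history-dependent walk.
-/

open MeasureTheory ProbabilityTheory Filter Topology
open scoped ENNReal NNReal

namespace Pool.Agent.Lib.MP_4770bc_pr

variable {V : Type}

/-- crossed edges of a history (most recent position first) -/
def crossedL : List V → Set (Sym2 V)
  | [] => ∅
  | [_] => ∅
  | y :: x :: h => insert s(x, y) (crossedL (x :: h))

/-- fresh neighbours after a history -/
def freshL (G : SimpleGraph V) : List V → Set V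
  | [] => ∅
  | a :: h => {y | G.Adj a y ∧ s(a, y) ∉ crossedL (a :: h)}

/-- the possible next positions after a history -/
def choicesL (G : SimpleGraph V) : List V → Set V
  | [] => ∅
  | a :: h => {y | y ∈ freshL G (a :: h) ∨ (freshL G (a :: h) = ∅ ∧ G.Adj a y)}

theorem hist_eq_cons (x : ℕ → V) (t : ℕ) : ∃ h, hist x t = x t :: h := by
  cases t with
  | zero => exact ⟨[], rfl⟩
  | succ t => exact ⟨hist x t, rfl⟩

theorem crossed_eq (x : ℕ → V) (t : ℕ) : crossed x t = crossedL (hist x t) := by
  induction t with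
  | zero =>
    simp [crossed, hist, crossedL]
  | succ t ih =>
    obtain ⟨h, hh⟩ := hist_eq_cons x t
    rw [hist, hh, crossedL, ← hh, ← ih]
    ext e
    simp only [crossed, Set.mem_ofPred_eq, Set.mem_insert_iff]
    constructor
    · rintro ⟨s, hs, rfl⟩
      rcases Nat.lt_or_ge s t with h1 | h1
      · exact Or.inr ⟨s, h1, rfl⟩
      · have : s = t := by omega
        subst this; exact Or.inl rfl
    · rintro (rfl | ⟨s, hs, rfl⟩)
      · exact ⟨t, by omega, rfl⟩
      · exact ⟨s, by omega, rfl⟩

theorem fresh_eq (G : SimpleGraph V) (x : ℕ → V) (t : ℕ) :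
    freshNbrs G x t = freshL G (hist x t) := by
  have hc := crossed_eq x t
  obtain ⟨h, hh⟩ := hist_eq_cons x t
  rw [hh] at hc ⊢
  rw [freshNbrs, freshL, hc]

theorem choices_eq (G : SimpleGraph V) (x : ℕ → V) (t : ℕ) :
    choices G x t = choicesL G (hist x t) := by
  have hc := fresh_eq G x t
  obtain ⟨h, hh⟩ := hist_eq_cons x t
  rw [hh] at hc ⊢
  rw [choices, choicesL, hc]

theorem choicesL_subset (G : SimpleGraph V) (a : V) (h : List V) :
    choicesL G (a :: h) ⊆ G.neighborSet a := by
  rintro y (hy | hy)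
  · exact hy.1
  · exact hy.2

theorem choicesL_finite (G : SimpleGraph V) (hfin : ∀ v, (G.neighborSet v).Finite) (h : List V) :
    (choicesL G h).Finite := by
  rcases h with _ | ⟨a, h⟩
  · exact Set.finite_empty
  · exact (hfin a).subset (choicesL_subset G a h)

open Classical in
/-- the possible next positions after a history, as a `Finset` -/
noncomputable def CG (G : SimpleGraph V) (h : List V) : Finset V :=
  if hf : (choicesL G h).Finite then hf.toFinset else ∅

theorem coe_CG (G : SimpleGraph V) (hfin : ∀ v, (G.neighborSet v).Finite) (h : List V) :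
    (CG G h : Set V) = choicesL G h := by
  rw [CG, dif_pos (choicesL_finite G hfin h)]
  simp

theorem mem_CG (G : SimpleGraph V) (hfin : ∀ v, (G.neighborSet v).Finite) (h : List V) (y : V) :
    y ∈ CG G h ↔ y ∈ choicesL G h := by
  rw [← coe_CG G hfin h]; simp

theorem card_CG (G : SimpleGraph V) (hfin : ∀ v, (G.neighborSet v).Finite) (h : List V) :
    (choicesL G h).ncard = (CG G h).card := by
  rw [← coe_CG G hfin h, Set.ncard_coe_finset]

theorem CG_nonempty (G : SimpleGraph V) (hfin : ∀ v, (G.neighborSet v).Finite)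
    (hne : ∀ v, (G.neighborSet v).Nonempty) (h : List V) (hh : h ≠ []) : (CG G h).Nonempty := by
  rcases h with _ | ⟨a, h⟩
  · exact absurd rfl hh
  · rcases Set.eq_empty_or_nonempty (freshL G (a :: h)) with h1 | ⟨y, hy⟩
    · obtain ⟨y, hy⟩ := hne a
      exact ⟨y, (mem_CG G hfin _ _).mpr (Or.inr ⟨h1, hy⟩)⟩
    · exact ⟨y, (mem_CG G hfin _ _).mpr (Or.inl hy)⟩

theorem setOf_H_eq {Ω : Type} (X : ℕ → Ω → V) (t : ℕ) (x : ℕ → V) :
    {ω | H X t ω = hist x t} = {ω | ∀ s ≤ t, X s ω = x s} := by
  ext ω
  simp only [H, Set.mem_ofPred_eq, hist_eq_iff]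

theorem exists_path (a : V) (h : List V) (t : ℕ) (hl : (a :: h).length = t + 1) :
    ∃ x : ℕ → V, hist x t = a :: h := by
  induction t generalizing a h with
  | zero =>
    have : h = [] := by
      rcases h with _ | _
      · rfl
      · simp at hl
    subst this
    exact ⟨fun _ => a, rfl⟩
  | succ t ih =>
    rcases h with _ | ⟨b, h⟩
    · simp at hl
    · obtain ⟨x, hx⟩ := ih b h (by simpa using hl)
      refine ⟨Function.update x (t + 1) a, ?_⟩
      rw [hist, Function.update_self, ← hx]
      congr 1
      rw [hist_eq_iff]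
      intro s hs
      rw [Function.update_of_ne (by omega)]

theorem length_hist (x : ℕ → V) (t : ℕ) : (hist x t).length = t + 1 := by
  induction t with
  | zero => rfl
  | succ t ih => simp [hist, ih]

theorem isProc_of_isGRW {G : SimpleGraph V} (hfin : ∀ v, (G.neighborSet v).Finite) {v₀ : V}
    {Ω : Type} [MeasurableSpace Ω] {P : Measure Ω} {X : ℕ → Ω → V} (hG : IsGRW G v₀ P X) :
    IsProc (CG G) P X := by
  refine ⟨hG.measurable, ?_, ?_⟩
  · intro t h y hy
    by_cases hl : h.length = t + 1
    · obtain ⟨x, hx⟩ := exists_path y h (t + 1) (by simpa using hl)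
      have hx' : x (t + 1) = y ∧ hist x t = h := by simpa [hist] using hx
      obtain ⟨rfl, rfl⟩ := hx'
      have hmem : x (t + 1) ∈ choices G x t := by
        rw [choices_eq]; exact (mem_CG G hfin _ _).mp hy
      have := hG.step_mem x t hmem
      rw [← hx, setOf_H_eq, this, setOf_H_eq, choices_eq, card_CG G hfin, ENNReal.div_eq_inv_mul,
        mul_comm]
    · have e1 : {ω | H X t ω = h} = ∅ := by
        ext ω
        simp only [Set.mem_ofPred_eq, Set.mem_empty_iff_false, iff_false]
        rintro rfl
        exact hl (length_hist _ _)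
      have e2 : {ω | H X (t + 1) ω = y :: h} = ∅ := by
        ext ω
        simp only [Set.mem_ofPred_eq, Set.mem_empty_iff_false, iff_false]
        intro hh
        have := length_hist (fun s => X s ω) (t + 1)
        rw [H] at hh
        rw [hh] at this
        exact hl (by simpa using this)
      rw [e1, e2]; simp
  · intro t h y hy
    by_cases hl : h.length = t + 1
    · obtain ⟨x, hx⟩ := exists_path y h (t + 1) (by simpa using hl)
      have hx' : x (t + 1) = y ∧ hist x t = h := by simpa [hist] using hx
      obtain ⟨rfl, rfl⟩ := hx'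
      have hmem : x (t + 1) ∉ choices G x t := by
        rw [choices_eq]; exact fun hc => hy ((mem_CG G hfin _ _).mpr hc)
      have := hG.step_not_mem x t hmem
      rw [← hx, setOf_H_eq, this]
    · have e2 : {ω | H X (t + 1) ω = y :: h} = ∅ := by
        ext ω
        simp only [Set.mem_ofPred_eq, Set.mem_empty_iff_false, iff_false]
        intro hh
        have := length_hist (fun s => X s ω) (t + 1)
        rw [H] at hh
        rw [hh] at this
        exact hl (by simpa using this)
      rw [e2]; simp

theorem isGRW_of_isProc {G : SimpleGraph V} (hfin : ∀ v, (G.neighborSet v).Finite) {v₀ : V}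
    {Ω : Type} [MeasurableSpace Ω] {P : Measure Ω} {X : ℕ → Ω → V}
    (hprob : IsProbabilityMeasure P) (hp : IsProc (CG G) P X) (hs : ∀ᵐ ω ∂P, X 0 ω = v₀) :
    IsGRW G v₀ P X := by
  refine ⟨hprob, hp.meas, hs, ?_, ?_⟩
  · intro x t hx
    rw [choices_eq] at hx
    have := hp.step_mem t (hist x t) (x (t + 1)) ((mem_CG G hfin _ _).mpr hx)
    rw [← setOf_H_eq, ← setOf_H_eq, choices_eq, card_CG G hfin, ENNReal.div_eq_inv_mul, mul_comm]
    exact this
  · intro x t hx
    rw [choices_eq] at hx
    have := hp.step_not_mem t (hist x t) (x (t + 1)) (fun hc => hx ((mem_CG G hfin _ _).mp hc))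
    rw [← setOf_H_eq]
    exact this

/-- Existence of the greedy random walk. -/
theorem exists_GRW [Countable V] (G : SimpleGraph V) (hfin : ∀ v, (G.neighborSet v).Finite)
    (hne : ∀ v, (G.neighborSet v).Nonempty) (v₀ : V) :
    ∃ (Ω : Type) (_ : MeasurableSpace Ω) (P : Measure Ω) (X : ℕ → Ω → V), IsGRW G v₀ P X := by
  obtain ⟨Ω, m, P, X, h1, h2, h3⟩ := exists_proc (CG G) v₀ (CG_nonempty G hfin hne)
  exact ⟨Ω, m, P, X, isGRW_of_isProc hfin h1 h2 h3⟩

end Pool.Agent.Lib.MP_4770bc_pr
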